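import Mathlib
import Pool.Agent.Lib.MP_757a88_nt.PS.Defs

section

/-!
# Pseudoprimes, A0: elementary asymptotics
-/

set_option autoImplicit false

noncomputable section

namespace Pool.Agent.Lib.MP_757a88_nt.PS

open Filter

theorem tendsto_l2 : Tendsto l2 atTop atTop :=
  Real.tendsto_log_atTop.comp Real.tendsto_log_atTop

theorem tendsto_l3 : Tendsto l3 atTop atTop :=
  Real.tendsto_log_atTop.comp tendsto_l2

/-- `l3 x / l2 x → 0`. -/
theorem tendsto_l3_div_l2 : Tendsto (fun x => l3 x / l2 x) atTop (nhds 0) := by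
  have h : Tendsto (fun y : ℝ => Real.log y / y) atTop (nhds 0) := by
    have := Real.isLittleO_log_id_atTop.tendsto_div_nhds_zero
    simpa using this
  exact h.comp tendsto_l2

/-- PROOF. With `y = log x`: `LL x / sqrt y = sqrt y * log (log y) / log y → ∞` (`log y = o(sqrt y)`). -/
theorem eventually_sqrt_le_LL (K : ℝ) : ∀ᶠ x : ℝ in atTop, K * Real.sqrt (Real.log x) ≤ LL x := by
  -- eventually `K * log y ≤ sqrt y`
  have h1 : ∀ᶠ y : ℝ in atTop, |K| * Real.log y ≤ Real.sqrt y := by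
    have h := (isLittleO_log_rpow_atTop (r := (1 / 2 : ℝ)) (by norm_num)).bound
      (c := (|K| + 1)⁻¹) (by positivity)
    filter_upwards [h, eventually_ge_atTop (1 : ℝ)] with y hy hy1
    rw [Real.norm_of_nonneg (Real.log_nonneg hy1), Real.norm_of_nonneg (by positivity),
      ← Real.sqrt_eq_rpow] at hy
    have hK : (0 : ℝ) < |K| + 1 := by positivity
    have h2 : (|K| + 1) * Real.log y ≤ Real.sqrt y := by
      calc (|K| + 1) * Real.log y ≤ (|K| + 1) * ((|K| + 1)⁻¹ * Real.sqrt y) :=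
            mul_le_mul_of_nonneg_left hy hK.le
        _ = Real.sqrt y := by field_simp
    have h3 : 0 ≤ Real.log y := Real.log_nonneg hy1
    nlinarith
  have h1' := Real.tendsto_log_atTop.eventually h1
  filter_upwards [h1', tendsto_l3.eventually_ge_atTop 1, tendsto_l2.eventually_gt_atTop 0,
    Real.tendsto_log_atTop.eventually_gt_atTop 0] with x hx h3 h2 hy
  unfold LL
  rw [le_div_iff₀ h2]
  have hs : Real.sqrt (Real.log x) * Real.sqrt (Real.log x) = Real.log x :=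
    Real.mul_self_sqrt hy.le
  have hs0 : 0 ≤ Real.sqrt (Real.log x) := Real.sqrt_nonneg _
  have hx' : |K| * l2 x ≤ Real.sqrt (Real.log x) := hx
  calc K * Real.sqrt (Real.log x) * l2 x ≤ |K| * Real.sqrt (Real.log x) * l2 x := by
        gcongr
        exact le_abs_self K
    _ = Real.sqrt (Real.log x) * (|K| * l2 x) := by ring
    _ ≤ Real.sqrt (Real.log x) * Real.sqrt (Real.log x) := by gcongr
    _ = Real.log x := hs
    _ ≤ Real.log x * l3 x := le_mul_of_one_le_right hy.le h3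

/-- PROOF. `l3 x / l2 x → 0`. -/
theorem eventually_LL_le {η : ℝ} (hη : 0 < η) : ∀ᶠ x : ℝ in atTop, LL x ≤ η * Real.log x := by
  have h := tendsto_l3_div_l2.eventually (eventually_le_nhds hη)
  filter_upwards [h, Real.tendsto_log_atTop.eventually_gt_atTop 0] with x hx hy
  unfold LL
  rw [mul_div_assoc, mul_comm]
  exact mul_le_mul_of_nonneg_right hx hy.le

end Pool.Agent.Lib.MP_757a88_nt.PS
end
end

section

/-!
# Pseudoprimes, E3: sums over subsets of arithmetic progressions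
-/

set_option autoImplicit false

noncomputable section

namespace Pool.Agent.Lib.MP_757a88_nt.PS

/-- PROOF. Let `N = J.card`. The elements of `J` outside `Icc 1 N` are `> N` and their number is that of the elements of `Icc 1 N` outside `J`;
each of the first has `f j ≤ f N`, each of the second `f N ≤ f j`. -/
theorem sum_le_sum_Icc_card {f : ℕ → ℝ} (hf : ∀ i j, 1 ≤ i → i ≤ j → f j ≤ f i) (J : Finset ℕ)
    (hJ : ∀ j ∈ J, 1 ≤ j) : ∑ j ∈ J, f j ≤ ∑ j ∈ Finset.Icc 1 J.card, f j := by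
  induction J using Finset.induction_on_max with
  | empty => simp
  | insert a s ha ih =>
    have hna : a ∉ s := fun h => lt_irrefl _ (ha a h)
    rw [Finset.sum_insert hna, Finset.card_insert_of_notMem hna]
    have h1 := ih (fun j hj => hJ j (Finset.mem_insert_of_mem hj))
    rw [Finset.sum_Icc_succ_top (by omega)]
    have hsub : insert a s ⊆ Finset.Icc 1 a := by
      intro x hx
      rw [Finset.mem_Icc]
      refine ⟨hJ x hx, ?_⟩
      rcases Finset.mem_insert.1 hx with h | h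
      · exact h.le
      · exact (ha x h).le
    have hcard := Finset.card_le_card hsub
    rw [Finset.card_insert_of_notMem hna, Nat.card_Icc] at hcard
    have h2 : f a ≤ f (s.card + 1) := hf _ _ (by omega) (by omega)
    linarith

private theorem E3_AP {F : Finset ℕ} {k : ℕ} (hk : 1 ≤ k) (hF : ∀ p ∈ F, 1 < p ∧ k ∣ p - 1)
    {f : ℕ → ℝ} (hf : ∀ i j, 1 ≤ i → i ≤ j → f j ≤ f i) :
    ∑ p ∈ F, f ((p - 1) / k) ≤ ∑ j ∈ Finset.Icc 1 F.card, f j := by
  have hinj : Set.InjOn (fun p : ℕ => (p - 1) / k) (F : Set ℕ) := by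
    intro p hp q hq h
    obtain ⟨hp1, a, ha⟩ := hF p hp
    obtain ⟨hq1, b, hb⟩ := hF q hq
    simp only [ha, hb, Nat.mul_div_cancel_left _ (show 0 < k by omega)] at h
    subst h
    omega
  have h1 : ∑ p ∈ F, f ((p - 1) / k) = ∑ j ∈ F.image (fun p : ℕ => (p - 1) / k), f j := by
    rw [Finset.sum_image (fun p hp q hq h => hinj hp hq h)]
  have hcard : (F.image (fun p : ℕ => (p - 1) / k)).card = F.card :=
    Finset.card_image_of_injOn hinj
  rw [h1, ← hcard]
  refine sum_le_sum_Icc_card hf _ ?_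
  intro j hj
  obtain ⟨p, hp, rfl⟩ := Finset.mem_image.1 hj
  obtain ⟨hp1, a, ha⟩ := hF p hp
  simp only [ha, Nat.mul_div_cancel_left _ (show 0 < k by omega)]
  rcases Nat.eq_zero_or_pos a with h | h
  · subst h
    omega
  · exact h

private theorem E3_prog {p k : ℕ} (hk : 1 ≤ k) (hp : 1 < p ∧ k ∣ p - 1) :
    0 < ((p - 1) / k) ∧ (k : ℝ) * (((p - 1) / k : ℕ) : ℝ) ≤ p := by
  obtain ⟨hp1, a, ha⟩ := hp
  rw [ha, Nat.mul_div_cancel_left _ (show 0 < k by omega)]
  constructor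
  · rcases Nat.eq_zero_or_pos a with h | h
    · subst h
      omega
    · exact h
  · have : k * a ≤ p := by omega
    exact_mod_cast this

private theorem E3_harm (n : ℕ) : ∑ j ∈ Finset.Icc 1 n, 1 / (j : ℝ) ≤ 1 + Real.log n := by
  have h := harmonic_le_one_add_log n
  rw [harmonic_eq_sum_Icc] at h
  push_cast at h
  simpa [one_div] using h

private theorem E3_harm' {n : ℕ} {N : ℝ} (hN : 1 ≤ N) (hc : (n : ℝ) ≤ N) :
    ∑ j ∈ Finset.Icc 1 n, 1 / (j : ℝ) ≤ 1 + Real.log N := by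
  refine (E3_harm n).trans ?_
  rcases Nat.eq_zero_or_pos n with h | h
  · subst h
    simpa using Real.log_nonneg hN
  · have := Real.log_le_log (show (0 : ℝ) < n by exact_mod_cast h) hc
    linarith

/-- PROOF. `p ≥ p - 1 = k j` with `j = (p - 1) / k ≥ 1`, different `p` give different `j`; `sum_le_sum_Icc_card` for `f j = 1 / (k j)` and
`∑_{j ≤ n} 1 / j ≤ 1 + log n` (`harmonic_le_one_add_log`). -/
theorem sum_inv_AP_le {F : Finset ℕ} {k : ℕ} (hk : 1 ≤ k) (hF : ∀ p ∈ F, 1 < p ∧ k ∣ p - 1)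
    {N : ℝ} (hN : 1 ≤ N) (hc : (F.card : ℝ) ≤ N) :
    ∑ p ∈ F, 1 / (p : ℝ) ≤ (1 + Real.log N) / k := by
  have hk0 : (0 : ℝ) < k := by exact_mod_cast hk
  have h1 : ∑ p ∈ F, 1 / (p : ℝ) ≤
      ∑ p ∈ F, (fun j : ℕ => (1 / (j : ℝ)) / k) ((p - 1) / k) := by
    refine Finset.sum_le_sum fun p hp => ?_
    obtain ⟨h0, h2⟩ := E3_prog hk (hF p hp)
    have h0' : (0 : ℝ) < (((p - 1) / k : ℕ) : ℝ) := by exact_mod_cast h0
    show 1 / (p : ℝ) ≤ (1 / (((p - 1) / k : ℕ) : ℝ)) / k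
    rw [div_div]
    refine one_div_le_one_div_of_le (by positivity) ?_
    rw [mul_comm]
    exact h2
  refine h1.trans ?_
  have hf : ∀ i j : ℕ, 1 ≤ i → i ≤ j →
      (fun j : ℕ => (1 / (j : ℝ)) / k) j ≤ (fun j : ℕ => (1 / (j : ℝ)) / k) i := by
    intro i j hi hij
    have hi' : (0 : ℝ) < i := by exact_mod_cast hi
    have hij' : (i : ℝ) ≤ j := by exact_mod_cast hij
    exact div_le_div_of_nonneg_right (one_div_le_one_div_of_le hi' hij') hk0.le
  refine (E3_AP hk hF hf).trans ?_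
  show ∑ j ∈ Finset.Icc 1 F.card, (1 / (j : ℝ)) / k ≤ _
  rw [← Finset.sum_div]
  exact div_le_div_of_nonneg_right (E3_harm' hN hc) hk0.le

private theorem E3_rpow (v : ℝ) (hv : 0 < v) (hv1 : v ≤ 1) (n : ℕ) :
    ∑ j ∈ Finset.Icc 1 n, (j : ℝ) ^ (-1 + v) ≤ (n : ℝ) ^ v / v := by
  induction n with
  | zero => simp [Real.zero_rpow hv.ne']
  | succ n ih =>
    rw [Finset.sum_Icc_succ_top (by omega)]
    have hx : (0 : ℝ) < ((n + 1 : ℕ) : ℝ) := by exact_mod_cast Nat.succ_pos n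
    set x : ℝ := ((n + 1 : ℕ) : ℝ) with hxdef
    have hn : (n : ℝ) = x * (1 + (-(1 / x))) := by
      field_simp
      rw [hxdef]
      push_cast
      ring
    have hx1 : (1 : ℝ) ≤ x := by
      rw [hxdef]
      exact_mod_cast Nat.succ_le_succ (Nat.zero_le n)
    have h1x : 1 / x ≤ 1 := by
      rw [div_le_one hx]
      exact hx1
    have hb := rpow_one_add_le_one_add_mul_self (s := -(1 / x)) (by linarith) hv.le hv1
    have h2 : (n : ℝ) ^ v ≤ x ^ v * (1 + v * (-(1 / x))) := by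
      rw [hn, Real.mul_rpow hx.le (by linarith)]
      exact mul_le_mul_of_nonneg_left hb (Real.rpow_nonneg hx.le _)
    have h3 : x ^ (-1 + v) = x ^ v * (1 / x) := by
      rw [Real.rpow_add hx, Real.rpow_neg_one]
      ring
    have h4 : x ^ (-1 + v) ≤ x ^ v / v - (n : ℝ) ^ v / v := by
      rw [← sub_div, le_div_iff₀ hv, h3]
      nlinarith
    linarith

/-- PROOF. As above with `f j = (k j) ^ (-1 + v)`; `∑_{j ≤ n} j ^ (-1 + v) ≤ n ^ v / v` by induction on `n`:
`(n + 1) ^ (-1 + v) ≤ ((n + 1) ^ v - n ^ v) / v` (mean value theorem, or comparison with an integral). -/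
theorem sum_rpow_AP_le {F : Finset ℕ} {k : ℕ} (hk : 1 ≤ k) (hF : ∀ p ∈ F, 1 < p ∧ k ∣ p - 1)
    {N v : ℝ} (hN : 1 ≤ N) (hc : (F.card : ℝ) ≤ N) (hv : 0 < v) (hv1 : v ≤ 1) :
    ∑ p ∈ F, (p : ℝ) ^ (-1 + v) ≤ (k : ℝ) ^ (-1 + v) * (N ^ v / v) := by
  have hk0 : (0 : ℝ) < k := by exact_mod_cast hk
  have h1 : ∑ p ∈ F, (p : ℝ) ^ (-1 + v) ≤
      ∑ p ∈ F, (fun j : ℕ => (k : ℝ) ^ (-1 + v) * (j : ℝ) ^ (-1 + v)) ((p - 1) / k) := by
    refine Finset.sum_le_sum fun p hp => ?_
    obtain ⟨h0, h2⟩ := E3_prog hk (hF p hp)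
    have h0' : (0 : ℝ) < (((p - 1) / k : ℕ) : ℝ) := by exact_mod_cast h0
    show (p : ℝ) ^ (-1 + v) ≤ (k : ℝ) ^ (-1 + v) * (((p - 1) / k : ℕ) : ℝ) ^ (-1 + v)
    rw [← Real.mul_rpow hk0.le h0'.le]
    exact Real.rpow_le_rpow_of_nonpos (by positivity) h2 (by linarith)
  refine h1.trans ?_
  have hf : ∀ i j : ℕ, 1 ≤ i → i ≤ j →
      (fun j : ℕ => (k : ℝ) ^ (-1 + v) * (j : ℝ) ^ (-1 + v)) j ≤
        (fun j : ℕ => (k : ℝ) ^ (-1 + v) * (j : ℝ) ^ (-1 + v)) i := by
    intro i j hi hij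
    have hi' : (0 : ℝ) < i := by exact_mod_cast hi
    have hij' : (i : ℝ) ≤ j := by exact_mod_cast hij
    exact mul_le_mul_of_nonneg_left (Real.rpow_le_rpow_of_nonpos hi' hij' (by linarith))
      (Real.rpow_nonneg hk0.le _)
  refine (E3_AP hk hF hf).trans ?_
  show ∑ j ∈ Finset.Icc 1 F.card, (k : ℝ) ^ (-1 + v) * (j : ℝ) ^ (-1 + v) ≤ _
  rw [← Finset.mul_sum]
  refine mul_le_mul_of_nonneg_left ?_ (Real.rpow_nonneg hk0.le _)
  refine (E3_rpow v hv hv1 F.card).trans ?_
  exact div_le_div_of_nonneg_right (Real.rpow_le_rpow (Nat.cast_nonneg _) hc hv.le) hv.le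

/-- PROOF. `p ^ v ≤ Z ^ v` and `∑_{p ≤ Z} 1 / p ≤ 1 + log Z`. -/
theorem sum_small_le {Z v : ℝ} (hZ : 1 ≤ Z) (hv : 0 ≤ v) (F : Finset ℕ)
    (hF : ∀ p ∈ F, 1 ≤ p ∧ (p : ℝ) ≤ Z) :
    ∑ p ∈ F, (p : ℝ) ^ (-1 + v) ≤ Z ^ v * (1 + Real.log Z) := by
  have hZ0 : (0 : ℝ) ≤ Z := by linarith
  have h1 : ∑ p ∈ F, (p : ℝ) ^ (-1 + v) ≤ ∑ p ∈ F, Z ^ v * (1 / (p : ℝ)) := by
    refine Finset.sum_le_sum fun p hp => ?_
    obtain ⟨hp1, hp2⟩ := hF p hp
    have hp0 : (0 : ℝ) < p := by exact_mod_cast hp1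
    rw [Real.rpow_add hp0, Real.rpow_neg_one, mul_comm, one_div]
    exact mul_le_mul_of_nonneg_right (Real.rpow_le_rpow hp0.le hp2 hv) (by positivity)
  refine h1.trans ?_
  rw [← Finset.mul_sum]
  refine mul_le_mul_of_nonneg_left ?_ (Real.rpow_nonneg hZ0 _)
  have hsub : F ⊆ Finset.Icc 1 ⌊Z⌋₊ := by
    intro p hp
    obtain ⟨hp1, hp2⟩ := hF p hp
    exact Finset.mem_Icc.2 ⟨hp1, Nat.le_floor hp2⟩
  refine (Finset.sum_le_sum_of_subset_of_nonneg hsub (fun j _ _ => by positivity)).trans ?_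
  exact E3_harm' hZ (Nat.floor_le hZ0)

end Pool.Agent.Lib.MP_757a88_nt.PS
end
end

section

/-!
# Pseudoprimes, P1: numbers with a prime of large `d`
-/

set_option autoImplicit false

noncomputable section

namespace Pool.Agent.Lib.MP_757a88_nt.PS

variable {P : ℕ → Prop} {d : ℕ → ℕ} {C : ℝ}

/-- PROOF. `n = p m`, `m > 1` (as `n` is composite), `p ≡ 1` and `n ≡ 1` modulo `d p`, so `m ≡ 1` and `m - 1 = (d p) j` with `1 ≤ j ≤ x / (p d p)`;
`n ↦ j` is injective. -/
theorem card_mult_le (H : Sys P d C) {x : ℝ} (hx : 0 ≤ x) {p : ℕ} (hp : p.Prime) (hP : P p) (s : Finset ℕ)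
    (hs : ∀ n ∈ s, (n : ℝ) ≤ x ∧ NN P d n ∧ p ∣ n) :
    (s.card : ℝ) ≤ x * (1 / (p * d p)) := by
  classical
  have hd := H.pos hp hP
  have hdp : 0 < d p := hd
  have hpp : 0 < p := hp.pos
  -- the structure of the elements
  have key : ∀ n ∈ s, ∃ j : ℕ, 1 ≤ j ∧ n = p * (1 + d p * j) := by
    intro n hn
    obtain ⟨-, ⟨h1, h2, h3⟩, m, rfl⟩ := hs n hn
    have h4 : d p ∣ p * m - 1 := (h3 p hp (Dvd.intro m rfl)).2
    have h5 : d p ∣ p - 1 := H.dvd p hp hP
    have hm0 : m ≠ 0 := by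
      rintro rfl
      simp at h1
    have hm1 : m ≠ 1 := by
      rintro rfl
      rw [mul_one] at h2
      exact h2 hp
    have h6 : p * m - 1 = (p - 1) * m + (m - 1) := by
      obtain ⟨q, rfl⟩ : ∃ q, p = q + 1 := ⟨p - 1, by omega⟩
      obtain ⟨r, rfl⟩ : ∃ r, m = r + 1 := ⟨m - 1, by omega⟩
      have : (q + 1) * (r + 1) = q * (r + 1) + r + 1 := by ring
      rw [this]
      simp
    rw [h6] at h4
    have h7 : d p ∣ m - 1 := (Nat.dvd_add_right (Dvd.dvd.mul_right h5 m)).mp h4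
    obtain ⟨j, hj⟩ := h7
    refine ⟨j, ?_, ?_⟩
    · rcases Nat.eq_zero_or_pos j with rfl | h
      · rw [mul_zero] at hj
        omega
      · exact h
    · rw [← hj]
      congr 1
      omega
  have hcard : s.card ≤ (Finset.Icc 1 ⌊x * (1 / (p * d p))⌋₊).card := by
    refine Finset.card_le_card_of_injOn (fun n => (n / p - 1) / d p) ?_ ?_
    · intro n hn
      obtain ⟨j, hj, hnj⟩ := key n hn
      have h1 : (n / p - 1) / d p = j := by
        rw [hnj, Nat.mul_div_cancel_left _ hpp, Nat.add_sub_cancel_left,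
          Nat.mul_div_cancel_left _ hdp]
      have h2 : (n : ℝ) ≤ x := (hs n hn).1
      simp only [h1, Finset.coe_Icc, Set.mem_Icc]
      refine ⟨hj, Nat.le_floor ?_⟩
      rw [mul_one_div, le_div_iff₀ (by positivity)]
      refine le_trans ?_ h2
      rw [hnj]
      push_cast
      have : (0 : ℝ) ≤ p := by positivity
      nlinarith
    · intro n hn n' hn' h
      obtain ⟨j, hj, hnj⟩ := key n hn
      obtain ⟨j', hj', hnj'⟩ := key n' hn'
      have h1 : (n / p - 1) / d p = j := by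
        rw [hnj, Nat.mul_div_cancel_left _ hpp, Nat.add_sub_cancel_left,
          Nat.mul_div_cancel_left _ hdp]
      have h2 : (n' / p - 1) / d p = j' := by
        rw [hnj', Nat.mul_div_cancel_left _ hpp, Nat.add_sub_cancel_left,
          Nat.mul_div_cancel_left _ hdp]
      have h3 : (n / p - 1) / d p = (n' / p - 1) / d p := h
      rw [h1, h2] at h3
      rw [hnj, hnj', h3]
  rw [Nat.card_Icc, Nat.add_sub_cancel] at hcard
  calc (s.card : ℝ) ≤ (⌊x * (1 / (p * d p))⌋₊ : ℝ) := by exact_mod_cast hcard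
    _ ≤ x * (1 / (p * d p)) := Nat.floor_le (by positivity)

/-- PROOF. Group by `k = d p`, `W < k ≤ x` (as `d p ≤ p - 1 < x`): `sum_inv_AP_le` with `N = C k ≤ C x` gives
`∑_{k > W} (1 / k) (1 + log (C x)) / k`, and `∑_{k > W} 1 / k ^ 2 ≤ 2 / W` (`W ≥ 1`; `1 / k ^ 2 ≤ 2 / (k (k + 1))`, or telescoping). -/
theorem sum_large_d_le (H : Sys P d C) {x W : ℝ} (hx : 1 ≤ x) (hW : 1 ≤ W) (F : Finset ℕ)
    (hF : ∀ p ∈ F, p.Prime ∧ P p ∧ (p : ℝ) ≤ x ∧ W < d p) :
    ∑ p ∈ F, 1 / ((p : ℝ) * d p) ≤ 2 * (1 + Real.log (C * x)) / W := by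
  classical
  have hC := H.one_le
  have hlog : 0 ≤ Real.log (C * x) := Real.log_nonneg (by nlinarith)
  rw [← Finset.sum_fiberwise_of_maps_to (s := F) (t := F.image d)
    (fun p hp => Finset.mem_image_of_mem d hp)]
  have h1 : ∀ k ∈ F.image d, ∑ p ∈ F with d p = k, 1 / ((p : ℝ) * d p) ≤
      (1 + Real.log (C * x)) * ((k : ℝ) ^ 2)⁻¹ := by
    intro k hk
    obtain ⟨p₀, hp₀, hk₀⟩ := Finset.mem_image.mp hk
    have h2 := hF p₀ hp₀
    have hk1 : 1 ≤ k := by rw [← hk₀]; exact H.pos h2.1 h2.2.1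
    have hkr : (1 : ℝ) ≤ k := by exact_mod_cast hk1
    have hkx : (k : ℝ) ≤ x := by
      have h3 : d p₀ ≤ p₀ - 1 :=
        Nat.le_of_dvd (Nat.sub_pos_of_lt h2.1.one_lt) (H.dvd p₀ h2.1 h2.2.1)
      have h4 : (d p₀ : ℝ) ≤ p₀ := by exact_mod_cast h3.trans (Nat.sub_le _ _)
      rw [← hk₀]
      exact h4.trans h2.2.2.1
    have h3 : ∑ p ∈ F with d p = k, 1 / ((p : ℝ) * d p) =
        (∑ p ∈ F with d p = k, 1 / (p : ℝ)) * (1 / k) := by
      rw [Finset.sum_mul]
      refine Finset.sum_congr rfl fun p hp => ?_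
      rw [(Finset.mem_filter.mp hp).2, one_div_mul_one_div]
    have h4 : ∑ p ∈ F with d p = k, 1 / (p : ℝ) ≤ (1 + Real.log (C * k)) / k := by
      apply sum_inv_AP_le hk1
      · intro p hp
        rw [Finset.mem_filter] at hp
        have h5 := hF p hp.1
        refine ⟨h5.1.one_lt, ?_⟩
        rw [← hp.2]
        exact H.dvd p h5.1 h5.2.1
      · nlinarith
      · apply H.card k hk1
        intro p hp
        rw [Finset.mem_filter] at hp
        have h5 := hF p hp.1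
        exact ⟨h5.1, h5.2.1, hp.2⟩
    have h5 : Real.log (C * k) ≤ Real.log (C * x) :=
      Real.log_le_log (by positivity) (by gcongr)
    rw [h3]
    calc (∑ p ∈ F with d p = k, 1 / (p : ℝ)) * (1 / k) ≤
        ((1 + Real.log (C * x)) / k) * (1 / k) := by
          apply mul_le_mul_of_nonneg_right _ (by positivity)
          refine h4.trans ?_
          gcongr
      _ = _ := by
          field_simp
  refine (Finset.sum_le_sum h1).trans ?_
  rw [← Finset.mul_sum]
  have h6 : ∑ k ∈ F.image d, ((k : ℝ) ^ 2)⁻¹ ≤ 2 / W := by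
    set M := (F.image d).sup id with hM
    have hsub : F.image d ⊆ Finset.Ioo ⌊W⌋₊ (M + 1) := by
      intro k hk
      rw [Finset.mem_Ioo]
      refine ⟨?_, ?_⟩
      · obtain ⟨p₀, hp₀, hk₀⟩ := Finset.mem_image.mp hk
        have h2 := (hF p₀ hp₀).2.2.2
        rw [hk₀] at h2
        rw [Nat.floor_lt (by linarith)]
        exact h2
      · have : id k ≤ M := Finset.le_sup (f := id) hk
        exact Nat.lt_succ_of_le this
    calc ∑ k ∈ F.image d, ((k : ℝ) ^ 2)⁻¹ ≤ ∑ k ∈ Finset.Ioo ⌊W⌋₊ (M + 1), ((k : ℝ) ^ 2)⁻¹ :=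
          Finset.sum_le_sum_of_subset_of_nonneg hsub (fun k _ _ => by positivity)
      _ ≤ 2 / (⌊W⌋₊ + 1) := sum_Ioo_inv_sq_le _ _
      _ ≤ 2 / W := by
          apply div_le_div_of_nonneg_left (by norm_num) (by linarith)
          exact (Nat.lt_floor_add_one W).le
  calc (1 + Real.log (C * x)) * ∑ k ∈ F.image d, ((k : ℝ) ^ 2)⁻¹ ≤
      (1 + Real.log (C * x)) * (2 / W) := mul_le_mul_of_nonneg_left h6 (by linarith)
    _ = 2 * (1 + Real.log (C * x)) / W := by ring

/-- PROOF. `s` is contained in the union of `{n ∈ s | p ∣ n}` over the primes `p ≤ x` with `P p`, `W < d p`; `card_mult_le`, `sum_large_d_le`. -/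
theorem card_large_d (H : Sys P d C) {x W : ℝ} (hx : 1 ≤ x) (hW : 1 ≤ W) (s : Finset ℕ)
    (hs : ∀ n ∈ s, (n : ℝ) ≤ x ∧ NN P d n ∧ ∃ p, p.Prime ∧ p ∣ n ∧ W < d p) :
    (s.card : ℝ) ≤ x * (2 * (1 + Real.log (C * x))) / W := by
  classical
  set F : Finset ℕ := (Finset.range (⌊x⌋₊ + 1)).filter fun p => p.Prime ∧ P p ∧ W < d p with hFdef
  have hF : ∀ p ∈ F, p.Prime ∧ P p ∧ (p : ℝ) ≤ x ∧ W < d p := by
    intro p hp
    rw [hFdef, Finset.mem_filter, Finset.mem_range] at hp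
    refine ⟨hp.2.1, hp.2.2.1, ?_, hp.2.2.2⟩
    have h1 : p ≤ ⌊x⌋₊ := Nat.lt_succ_iff.mp hp.1
    exact (Nat.le_floor_iff (by linarith)).mp h1
  have hsub : s ⊆ F.biUnion fun p => s.filter fun n => p ∣ n := by
    intro n hn
    obtain ⟨h1, h2, p, hp, hpn, hW'⟩ := hs n hn
    rw [Finset.mem_biUnion]
    refine ⟨p, ?_, Finset.mem_filter.mpr ⟨hn, hpn⟩⟩
    rw [hFdef, Finset.mem_filter, Finset.mem_range]
    refine ⟨?_, hp, (h2.2.2 p hp hpn).1, hW'⟩
    apply Nat.lt_succ_of_le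
    apply Nat.le_floor
    have h3 : p ≤ n := Nat.le_of_dvd (by have := h2.1; omega) hpn
    have h4 : (p : ℝ) ≤ n := by exact_mod_cast h3
    linarith
  have h1 : (s.card : ℝ) ≤ ∑ p ∈ F, x * (1 / (p * d p)) := by
    calc (s.card : ℝ) ≤ ((F.biUnion fun p => s.filter fun n => p ∣ n).card : ℝ) := by
          exact_mod_cast Finset.card_le_card hsub
      _ ≤ ((∑ p ∈ F, (s.filter fun n => p ∣ n).card : ℕ) : ℝ) := by
          exact_mod_cast Finset.card_biUnion_le
      _ = ∑ p ∈ F, ((s.filter fun n => p ∣ n).card : ℝ) := by push_cast; rfl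
      _ ≤ ∑ p ∈ F, x * (1 / (p * d p)) := by
          refine Finset.sum_le_sum fun p hp => ?_
          have h2 := hF p hp
          apply card_mult_le H (by linarith) h2.1 h2.2.1
          intro n hn
          rw [Finset.mem_filter] at hn
          have h3 := hs n hn.1
          exact ⟨h3.1, h3.2.1, hn.2⟩
  rw [← Finset.mul_sum] at h1
  refine h1.trans ?_
  rw [mul_div_assoc]
  exact mul_le_mul_of_nonneg_left (sum_large_d_le H hx hW F hF) (by linarith)

end Pool.Agent.Lib.MP_757a88_nt.PS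
end
end

section

/-!
# Pseudoprimes, P2: numbers with a large prime of small `d`; divisors of medium size
-/

set_option autoImplicit false

noncomputable section

namespace Pool.Agent.Lib.MP_757a88_nt.PS

variable {P : ℕ → Prop} {d : ℕ → ℕ} {C : ℝ}

/-- PROOF. The number of primes `p ≤ x` with `P p`, `d p ≤ W` is at most `∑_{1 ≤ k ≤ W} C k ≤ C W ^ 2` (`Sys.card`, `Sys.pos`), and for
`p > W ^ 4` the number of `n ∈ s` (`n ≥ 1`, `n ≤ x`) divisible by `p` is at most `x / W ^ 4`. Total `≤ C x / W ^ 2 ≤ C x / W`. -/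
theorem card_large_p (H : Sys P d C) {x W : ℝ} (hx : 0 ≤ x) (hW : 1 ≤ W) (s : Finset ℕ)
    (hs : ∀ n ∈ s, (n : ℝ) ≤ x ∧ NN P d n ∧ ∃ p, p.Prime ∧ p ∣ n ∧ W ^ 4 < p ∧ (d p : ℝ) ≤ W) :
    (s.card : ℝ) ≤ C * x / W := by
  classical
  have hC := H.one_le
  have hW0 : 0 < W := by linarith
  set F : Finset ℕ := (Finset.range (⌊x⌋₊ + 1)).filter
    fun p => p.Prime ∧ P p ∧ W ^ 4 < p ∧ (d p : ℝ) ≤ W with hFdef
  have hsub : s ⊆ F.biUnion fun p => s.filter fun n => p ∣ n := by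
    intro n hn
    obtain ⟨h1, h2, p, hp, hpn, hW4, hdW⟩ := hs n hn
    rw [Finset.mem_biUnion]
    refine ⟨p, ?_, Finset.mem_filter.mpr ⟨hn, hpn⟩⟩
    rw [hFdef, Finset.mem_filter, Finset.mem_range]
    refine ⟨?_, hp, (h2.2.2 p hp hpn).1, hW4, hdW⟩
    apply Nat.lt_succ_of_le
    apply Nat.le_floor
    have h3 : p ≤ n := Nat.le_of_dvd (by have := h2.1; omega) hpn
    have h4 : (p : ℝ) ≤ n := by exact_mod_cast h3
    linarith
  -- the number of primes
  have hFc : (F.card : ℝ) ≤ C * W ^ 2 := by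
    have h1 : F.card = ∑ k ∈ Finset.Icc 1 ⌊W⌋₊, (F.filter fun p => d p = k).card := by
      apply Finset.card_eq_sum_card_fiberwise
      intro p hp
      rw [hFdef] at hp
      have h2 := Finset.mem_filter.mp hp
      simp only [Finset.coe_Icc, Set.mem_Icc]
      exact ⟨H.pos h2.2.1 h2.2.2.1, Nat.le_floor h2.2.2.2.2⟩
    have h2 : ∀ k ∈ Finset.Icc 1 ⌊W⌋₊, ((F.filter fun p => d p = k).card : ℝ) ≤ C * W := by
      intro k hk
      rw [Finset.mem_Icc] at hk
      have h3 : ((F.filter fun p => d p = k).card : ℝ) ≤ C * k := by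
        apply H.card k hk.1
        intro p hp
        rw [Finset.mem_filter, hFdef, Finset.mem_filter] at hp
        exact ⟨hp.1.2.1, hp.1.2.2.1, hp.2⟩
      have h4 : (k : ℝ) ≤ W := (Nat.le_floor_iff hW0.le).mp hk.2
      exact h3.trans (mul_le_mul_of_nonneg_left h4 (by linarith))
    calc (F.card : ℝ) = ∑ k ∈ Finset.Icc 1 ⌊W⌋₊, ((F.filter fun p => d p = k).card : ℝ) := by
          rw [h1]
          push_cast
          rfl
      _ ≤ ∑ k ∈ Finset.Icc 1 ⌊W⌋₊, C * W := Finset.sum_le_sum h2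
      _ = (⌊W⌋₊ : ℝ) * (C * W) := by
          rw [Finset.sum_const, nsmul_eq_mul, Nat.card_Icc, Nat.add_sub_cancel]
      _ ≤ W * (C * W) := mul_le_mul_of_nonneg_right (Nat.floor_le hW0.le) (by positivity)
      _ = C * W ^ 2 := by ring
  have h1 : (s.card : ℝ) ≤ ∑ p ∈ F, x / W ^ 4 := by
    calc (s.card : ℝ) ≤ ((F.biUnion fun p => s.filter fun n => p ∣ n).card : ℝ) := by
          exact_mod_cast Finset.card_le_card hsub
      _ ≤ ((∑ p ∈ F, (s.filter fun n => p ∣ n).card : ℕ) : ℝ) := by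
          exact_mod_cast Finset.card_biUnion_le
      _ = ∑ p ∈ F, ((s.filter fun n => p ∣ n).card : ℝ) := by push_cast; rfl
      _ ≤ ∑ p ∈ F, x / W ^ 4 := by
          refine Finset.sum_le_sum fun p hp => ?_
          rw [hFdef, Finset.mem_filter] at hp
          have hpp : 0 < p := hp.2.1.pos
          have hpr : (0 : ℝ) < p := by exact_mod_cast hpp
          have h2 : (s.filter fun n => p ∣ n).card ≤ (Finset.Icc 1 ⌊x / p⌋₊).card := by
            refine Finset.card_le_card_of_injOn (fun n => n / p) ?_ ?_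
            · intro n hn
              rw [Finset.mem_coe, Finset.mem_filter] at hn
              obtain ⟨m, rfl⟩ := hn.2
              have h3 := hs _ hn.1
              simp only [Finset.coe_Icc, Set.mem_Icc]
              rw [Nat.mul_div_cancel_left _ hpp]
              refine ⟨?_, Nat.le_floor ?_⟩
              · rcases Nat.eq_zero_or_pos m with rfl | h
                · have := h3.2.1.1
                  simp at this
                · exact h
              · rw [le_div_iff₀ hpr]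
                have h4 := h3.1
                push_cast at h4
                linarith
            · intro n hn n' hn' h
              rw [Finset.mem_coe, Finset.mem_filter] at hn hn'
              obtain ⟨m, rfl⟩ := hn.2
              obtain ⟨m', rfl⟩ := hn'.2
              have h3 : p * m / p = p * m' / p := h
              rw [Nat.mul_div_cancel_left _ hpp, Nat.mul_div_cancel_left _ hpp] at h3
              rw [h3]
          rw [Nat.card_Icc, Nat.add_sub_cancel] at h2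
          calc ((s.filter fun n => p ∣ n).card : ℝ) ≤ (⌊x / p⌋₊ : ℝ) := by exact_mod_cast h2
            _ ≤ x / p := Nat.floor_le (by positivity)
            _ ≤ x / W ^ 4 := by
                apply div_le_div_of_nonneg_left hx (by positivity) hp.2.2.2.1.le
  rw [Finset.sum_const, nsmul_eq_mul] at h1
  calc (s.card : ℝ) ≤ (F.card : ℝ) * (x / W ^ 4) := h1
    _ ≤ (C * W ^ 2) * (x / W ^ 4) := mul_le_mul_of_nonneg_right hFc (by positivity)
    _ = C * x / W ^ 2 := by field_simp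
    _ ≤ C * x / W := by
        apply div_le_div_of_nonneg_left (by positivity) hW0
        nlinarith

/-- PROOF. Take the least divisor `m` of `n` with `y < m`; `m > 1`, so it has a prime `p`, and `m / p ≤ y`. -/
theorem exists_mid_divisor {n : ℕ} (hn : n ≠ 0) {y z : ℝ} (hy : 1 ≤ y)
    (hp : ∀ p, p.Prime → p ∣ n → (p : ℝ) ≤ z) (hyn : y < n) :
    ∃ m, m ∣ n ∧ y < m ∧ (m : ℝ) ≤ y * z := by
  classical
  have hex : ∃ m, m ∣ n ∧ y < (m : ℝ) := ⟨n, dvd_rfl, hyn⟩
  set m := Nat.find hex with hm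
  have h1 : m ∣ n ∧ y < (m : ℝ) := Nat.find_spec hex
  have hm1 : 1 < m := by
    have : (1 : ℝ) < m := by linarith [h1.2]
    exact_mod_cast this
  obtain ⟨p, hpp, hpm⟩ := Nat.exists_prime_and_dvd (by omega : m ≠ 1)
  obtain ⟨q, hq⟩ := hpm
  have hq0 : 0 < q := by
    rcases Nat.eq_zero_or_pos q with rfl | h
    · omega
    · exact h
  have hqm : q < m := by
    rw [hq]
    have := hpp.two_le
    nlinarith
  have h2 : ¬ (q ∣ n ∧ y < (q : ℝ)) := Nat.find_min hex hqm
  have h3 : q ∣ n := (Dvd.intro_left p hq.symm).trans h1.1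
  have h4 : (q : ℝ) ≤ y := by
    by_contra h
    exact h2 ⟨h3, not_le.mp h⟩
  have h5 : (p : ℝ) ≤ z := hp p hpp ((Dvd.intro q hq.symm).trans h1.1)
  refine ⟨m, h1.1, h1.2, ?_⟩
  rw [hq]
  push_cast
  have hp0 : (0 : ℝ) ≤ p := by positivity
  nlinarith

/-- PROOF. If `s` is nonempty then `m` and `D` are coprime, and any two elements are congruent modulo `m D`; so `n ↦ n / (m D)` is injective on `s`
with values `≤ x / (m D)`. -/
theorem card_class_le {x : ℝ} (hx : 0 ≤ x) {m D : ℕ} (hm : 1 ≤ m) (hD : 1 ≤ D) (s : Finset ℕ)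
    (hs : ∀ n ∈ s, 1 ≤ n ∧ (n : ℝ) ≤ x ∧ m ∣ n ∧ D ∣ n - 1) :
    (s.card : ℝ) ≤ x / (m * D) + 1 := by
  classical
  have hmr : (0 : ℝ) < m := by exact_mod_cast hm
  have hDr : (0 : ℝ) < D := by exact_mod_cast hD
  have hmD : 0 < m * D := Nat.mul_pos hm hD
  have hcong : ∀ n ∈ s, ∀ n' ∈ s, n ≡ n' [MOD m * D] := by
    intro n hn n' hn'
    obtain ⟨h1, -, h2, h3⟩ := hs n hn
    obtain ⟨h1', -, h2', h3'⟩ := hs n' hn'
    have hcop : Nat.Coprime m D := by
      rw [Nat.coprime_iff_gcd_eq_one]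
      have h4 : Nat.gcd m D ∣ n := (Nat.gcd_dvd_left m D).trans h2
      have h5 : Nat.gcd m D ∣ n - 1 := (Nat.gcd_dvd_right m D).trans h3
      have h6 : Nat.gcd m D ∣ n - (n - 1) := Nat.dvd_sub h4 h5
      have h7 : n - (n - 1) = 1 := by omega
      rw [h7] at h6
      exact Nat.dvd_one.mp h6
    rw [← Nat.modEq_and_modEq_iff_modEq_mul hcop]
    refine ⟨?_, ?_⟩
    · exact ((Nat.modEq_zero_iff_dvd.mpr h2).trans (Nat.modEq_zero_iff_dvd.mpr h2').symm)
    · have h4 : 1 ≡ n [MOD D] := (Nat.modEq_iff_dvd' h1).mpr h3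
      have h5 : 1 ≡ n' [MOD D] := (Nat.modEq_iff_dvd' h1').mpr h3'
      exact h4.symm.trans h5
  have h1 : s.card ≤ (Finset.range (⌊x / (m * D)⌋₊ + 1)).card := by
    refine Finset.card_le_card_of_injOn (fun n => n / (m * D)) ?_ ?_
    · intro n hn
      simp only [Finset.coe_range, Set.mem_Iio]
      apply Nat.lt_succ_of_le
      apply Nat.le_floor
      rw [le_div_iff₀ (by positivity)]
      have h2 : n / (m * D) * (m * D) ≤ n := Nat.div_mul_le_self n (m * D)
      have h3 : ((n / (m * D) * (m * D) : ℕ) : ℝ) ≤ n := by exact_mod_cast h2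
      push_cast at h3
      exact h3.trans (hs n hn).2.1
    · intro n hn n' hn' h
      have h2 : n / (m * D) = n' / (m * D) := h
      have h3 : n % (m * D) = n' % (m * D) := hcong n hn n' hn'
      rw [← Nat.div_add_mod n (m * D), ← Nat.div_add_mod n' (m * D), h2, h3]
  rw [Finset.card_range] at h1
  calc (s.card : ℝ) ≤ ((⌊x / (m * D)⌋₊ + 1 : ℕ) : ℝ) := by exact_mod_cast h1
    _ = (⌊x / (m * D)⌋₊ : ℝ) + 1 := by push_cast; rfl
    _ ≤ x / (m * D) + 1 := by
        gcongr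
        exact Nat.floor_le (by positivity)

end Pool.Agent.Lib.MP_757a88_nt.PS
end
end

section

/-!
# Pseudoprimes, P4: numbers with a divisor of medium size
-/

set_option autoImplicit false

noncomputable section

namespace Pool.Agent.Lib.MP_757a88_nt.PS

variable {P : ℕ → Prop} {d : ℕ → ℕ} {C : ℝ}

private theorem P4_sum_inv (N : ℕ) {y : ℝ} (hy : 1 ≤ y) (hN : (N : ℝ) ≤ y) :
    ∑ m ∈ Finset.Icc 1 N, 1 / (m : ℝ) ≤ 1 + Real.log y := by
  have h1 := harmonic_le_one_add_log N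
  have h2 : ((harmonic N : ℚ) : ℝ) = ∑ m ∈ Finset.Icc 1 N, 1 / (m : ℝ) := by
    rw [harmonic_eq_sum_Icc]
    push_cast
    exact Finset.sum_congr rfl fun m _ => by rw [one_div]
  rw [← h2]
  refine h1.trans ?_
  rcases Nat.eq_zero_or_pos N with h3 | h3
  · rw [h3]
    simp only [Nat.cast_zero, Real.log_zero]
    have := Real.log_nonneg hy
    linarith
  · have h4 : Real.log N ≤ Real.log y := Real.log_le_log (by exact_mod_cast h3) hN
    linarith

/-- PROOF. Let `D m = lcm` of the `d p`, `p ∣ m` (`m.primeFactors.lcm d`), and `Mid` the set of the `m` with `x / W ^ 5 < m ≤ x / W`, `Q m`, all primes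
`p ∣ m` in `P` and `≤ W ^ 4`. For `n ∈ s` there is `m ∈ Mid` with `m ∣ n`, `D m ∣ n - 1`. So (`card_class_le`)
`s.card ≤ ∑_{m ∈ Mid} (x / (m D m) + 1)`. The `1`s give at most `x / W`. The `m` with `D m > W` give at most
`(x / W) ∑_{m ≤ x} 1 / m ≤ (x / W) (1 + log x)`. The others: `∑_{1 ≤ k ≤ W} (x / k) ∑_{m ∈ Mid, D m = k} 1 / m ≤ x R ∑_{k ≤ W} 1 / k ≤ x R (1 + log W)`
(for `D m = k` all `d p` divide `k`). -/
theorem card_mid (H : Sys P d C) (Q : ℕ → Prop) {x W R : ℝ} (hW : 1 ≤ W) (hxW : W ^ 5 ≤ x)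
    (hR0 : 0 ≤ R)
    (hR : ∀ k : ℕ, 1 ≤ k → (k : ℝ) ≤ W → ∀ M : Finset ℕ, (∀ m ∈ M, x / W ^ 5 < m ∧ Q m ∧
      ∀ p, p.Prime → p ∣ m → P p ∧ (p : ℝ) ≤ W ^ 4 ∧ d p ∣ k) → ∑ m ∈ M, 1 / (m : ℝ) ≤ R)
    (s : Finset ℕ)
    (hs : ∀ n ∈ s, (n : ℝ) ≤ x ∧ NN P d n ∧ ∃ m, m ∣ n ∧ x / W ^ 5 < m ∧ (m : ℝ) ≤ x / W ∧ Q m ∧
      ∀ p, p.Prime → p ∣ m → (p : ℝ) ≤ W ^ 4) :
    (s.card : ℝ) ≤ x * (2 + Real.log x) / W + x * (1 + Real.log W) * R := by
  classical
  have hW0 : 0 < W := by linarith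
  have hW5 : 1 ≤ W ^ 5 := one_le_pow₀ hW
  have hx1 : 1 ≤ x := by linarith
  have hx0 : 0 < x := by linarith
  have hxWd : 0 ≤ x / W := div_nonneg hx0.le hW0.le
  set D : ℕ → ℕ := fun m => m.primeFactors.lcm d with hD
  set N : ℕ := ⌊x / W⌋₊ with hN
  set Mid : Finset ℕ := (Finset.Icc 1 N).filter (fun m : ℕ => x / W ^ 5 < m ∧ Q m ∧
    ∀ p, p.Prime → p ∣ m → P p ∧ (p : ℝ) ≤ W ^ 4) with hMid
  have hDpos : ∀ m ∈ Mid, 1 ≤ D m := by
    intro m hm
    obtain ⟨h1, h2, h3, h4⟩ := Finset.mem_filter.1 hm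
    have h5 : D m ∣ ∏ p ∈ m.primeFactors, d p :=
      Finset.lcm_dvd fun p hp => Finset.dvd_prod_of_mem d hp
    have h6 : 0 < ∏ p ∈ m.primeFactors, d p := by
      refine Finset.prod_pos fun p hp => ?_
      have hp1 := Nat.prime_of_mem_primeFactors hp
      have hp2 := Nat.dvd_of_mem_primeFactors hp
      exact H.pos hp1 (h4 p hp1 hp2).1
    exact Nat.pos_of_dvd_of_pos h5 h6
  have hmpos : ∀ m ∈ Mid, 1 ≤ m := fun m hm =>
    (Finset.mem_Icc.1 (Finset.mem_filter.1 hm).1).1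
  have hcov : s ⊆ Mid.biUnion (fun m => s.filter (fun n => m ∣ n ∧ D m ∣ n - 1)) := by
    intro n hn
    obtain ⟨h1, h2, m, h3, h4, h5, h6, h7⟩ := hs n hn
    have hn1 := h2.1
    have hm0 : m ≠ 0 := by
      rintro rfl
      have := Nat.eq_zero_of_zero_dvd h3
      omega
    refine Finset.mem_biUnion.2 ⟨m, ?_, Finset.mem_filter.2 ⟨hn, h3, ?_⟩⟩
    · refine Finset.mem_filter.2 ⟨Finset.mem_Icc.2 ⟨Nat.pos_of_ne_zero hm0, Nat.le_floor h5⟩,
        h4, h6, ?_⟩
      intro p hp hpm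
      exact ⟨(h2.2.2 p hp (hpm.trans h3)).1, h7 p hp hpm⟩
    · refine Finset.lcm_dvd fun p hp => ?_
      exact (h2.2.2 p (Nat.prime_of_mem_primeFactors hp)
        ((Nat.dvd_of_mem_primeFactors hp).trans h3)).2
  have hcl : ∀ m ∈ Mid, ((s.filter (fun n => m ∣ n ∧ D m ∣ n - 1)).card : ℝ) ≤
      x / (m * D m) + 1 := by
    intro m hm
    refine card_class_le hx0.le (hmpos m hm) (hDpos m hm) _ ?_
    intro n hn
    obtain ⟨h1, h2, h3⟩ := Finset.mem_filter.1 hn
    obtain ⟨k1, k2, -⟩ := hs n h1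
    exact ⟨k2.1.le, k1, h2, h3⟩
  have h1 : (s.card : ℝ) ≤ ∑ m ∈ Mid, (x / ((m : ℝ) * D m) + 1) := by
    have h2 : s.card ≤ ∑ m ∈ Mid, (s.filter (fun n => m ∣ n ∧ D m ∣ n - 1)).card :=
      (Finset.card_le_card hcov).trans Finset.card_biUnion_le
    calc (s.card : ℝ) ≤ ((∑ m ∈ Mid, (s.filter (fun n => m ∣ n ∧ D m ∣ n - 1)).card : ℕ) : ℝ) := by
          exact_mod_cast h2
      _ = ∑ m ∈ Mid, ((s.filter (fun n => m ∣ n ∧ D m ∣ n - 1)).card : ℝ) := by
          rw [Nat.cast_sum]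
      _ ≤ _ := Finset.sum_le_sum hcl
  have h2 : ∑ m ∈ Mid, (x / ((m : ℝ) * D m) + 1) =
      ∑ m ∈ Mid, x / ((m : ℝ) * D m) + Mid.card := by
    rw [Finset.sum_add_distrib, Finset.sum_const, nsmul_eq_mul, mul_one]
  have h3 : (Mid.card : ℝ) ≤ x / W := by
    have h4 : Mid.card ≤ N := by
      have := Finset.card_filter_le (Finset.Icc 1 N) (fun m : ℕ => x / W ^ 5 < m ∧ Q m ∧
        ∀ p, p.Prime → p ∣ m → P p ∧ (p : ℝ) ≤ W ^ 4)
      rwa [Nat.card_Icc, Nat.add_sub_cancel] at this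
    exact le_trans (by exact_mod_cast h4) (Nat.floor_le hxWd)
  have hsplit : ∑ m ∈ Mid, x / ((m : ℝ) * D m) =
      ∑ m ∈ Mid.filter (fun m => W < (D m : ℝ)), x / ((m : ℝ) * D m) +
      ∑ m ∈ Mid.filter (fun m => ¬ W < (D m : ℝ)), x / ((m : ℝ) * D m) :=
    (Finset.sum_filter_add_sum_filter_not Mid _ _).symm
  have hNx : (N : ℝ) ≤ x := by
    refine (Nat.floor_le hxWd).trans ?_
    rw [div_le_iff₀ hW0]
    nlinarith
  have h5 : ∑ m ∈ Mid.filter (fun m => W < (D m : ℝ)), x / ((m : ℝ) * D m) ≤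
      x / W * (1 + Real.log x) := by
    calc _ ≤ ∑ m ∈ Mid.filter (fun m => W < (D m : ℝ)), x / W * (1 / (m : ℝ)) := by
          refine Finset.sum_le_sum fun m hm => ?_
          obtain ⟨h6, h7⟩ := Finset.mem_filter.1 hm
          have hm1 : (0 : ℝ) < m := by exact_mod_cast hmpos m h6
          have h8 : x / W * (1 / (m : ℝ)) = x / (m * W) := by
            field_simp
          rw [h8]
          refine div_le_div_of_nonneg_left hx0.le (by positivity) ?_
          exact mul_le_mul_of_nonneg_left h7.le hm1.le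
      _ = x / W * ∑ m ∈ Mid.filter (fun m => W < (D m : ℝ)), 1 / (m : ℝ) := by
          rw [Finset.mul_sum]
      _ ≤ x / W * ∑ m ∈ Finset.Icc 1 N, 1 / (m : ℝ) := by
          refine mul_le_mul_of_nonneg_left ?_ hxWd
          refine Finset.sum_le_sum_of_subset_of_nonneg ?_ ?_
          · intro m hm
            exact (Finset.mem_filter.1 (Finset.mem_filter.1 hm).1).1
          · intro m _ _
            positivity
      _ ≤ _ := mul_le_mul_of_nonneg_left (P4_sum_inv N hx1 hNx) hxWd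
  have h6 : ∑ m ∈ Mid.filter (fun m => ¬ W < (D m : ℝ)), x / ((m : ℝ) * D m) ≤
      x * (1 + Real.log W) * R := by
    have hmap : ∀ m ∈ Mid.filter (fun m => ¬ W < (D m : ℝ)), D m ∈ Finset.Icc 1 ⌊W⌋₊ := by
      intro m hm
      obtain ⟨h7, h8⟩ := Finset.mem_filter.1 hm
      exact Finset.mem_Icc.2 ⟨hDpos m h7, Nat.le_floor (not_lt.1 h8)⟩
    rw [← Finset.sum_fiberwise_of_maps_to hmap]
    calc _ ≤ ∑ k ∈ Finset.Icc 1 ⌊W⌋₊, x * R * (1 / (k : ℝ)) := by
          refine Finset.sum_le_sum fun k hk => ?_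
          obtain ⟨hk1, hk2⟩ := Finset.mem_Icc.1 hk
          have hk0 : (0 : ℝ) < k := by exact_mod_cast hk1
          have hkW : (k : ℝ) ≤ W := (Nat.cast_le.2 hk2).trans (Nat.floor_le hW0.le)
          have h9 := hR k hk1 hkW
            ((Mid.filter (fun m => ¬ W < (D m : ℝ))).filter (fun m => D m = k)) (by
              intro m hm
              obtain ⟨h10, h11⟩ := Finset.mem_filter.1 hm
              obtain ⟨h12, h13⟩ := Finset.mem_filter.1 h10
              obtain ⟨h14, h15, h16, h17⟩ := Finset.mem_filter.1 h12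
              refine ⟨h15, h16, fun p hp hpm => ⟨(h17 p hp hpm).1, (h17 p hp hpm).2, ?_⟩⟩
              rw [← h11]
              have hm0 : m ≠ 0 := by
                have := hmpos m h12
                omega
              exact Finset.dvd_lcm (Nat.mem_primeFactors.2 ⟨hp, hpm, hm0⟩))
          calc _ = x * (1 / (k : ℝ)) *
              ∑ m ∈ (Mid.filter (fun m => ¬ W < (D m : ℝ))).filter (fun m => D m = k),
                1 / (m : ℝ) := by
                rw [Finset.mul_sum]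
                refine Finset.sum_congr rfl fun m hm => ?_
                obtain ⟨h10, h11⟩ := Finset.mem_filter.1 hm
                rw [h11]
                have hm1 : (0 : ℝ) < m := by
                  exact_mod_cast hmpos m (Finset.mem_filter.1 h10).1
                field_simp
            _ ≤ x * (1 / (k : ℝ)) * R := mul_le_mul_of_nonneg_left h9 (by positivity)
            _ = x * R * (1 / (k : ℝ)) := by ring
      _ = x * R * ∑ k ∈ Finset.Icc 1 ⌊W⌋₊, 1 / (k : ℝ) := by rw [Finset.mul_sum]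
      _ ≤ x * R * (1 + Real.log W) :=
          mul_le_mul_of_nonneg_left (P4_sum_inv _ hW (Nat.floor_le hW0.le)) (by positivity)
      _ = _ := by ring
  have h7 : x / W * (1 + Real.log x) + x / W = x * (2 + Real.log x) / W := by ring
  rw [h2, hsplit] at h1
  linarith

end Pool.Agent.Lib.MP_757a88_nt.PS
end
end

section

/-!
# Pseudoprimes, P5: the reduction to numbers with given `d`
-/

set_option autoImplicit false

noncomputable section

namespace Pool.Agent.Lib.MP_757a88_nt.PS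

variable {P : ℕ → Prop} {d : ℕ → ℕ} {C : ℝ}

/-- PROOF. Split `s` into four parts: `n ≤ x / W` (at most `x / W` numbers `≥ 1`); `n` with a prime `p`, `W < d p` (`card_large_d`); `n` with a prime `p`
with `d p ≤ W`, `W ^ 4 < p` (`card_large_p`); the rest: all primes `p ∣ n` are `≤ W ^ 4`, `exists_mid_divisor` with `y = x / W ^ 5 ≥ 1`, `z = W ^ 4`
gives `m` (`Q m` by `hQ`), `card_mid`. Sum: `x / W * (1 + 2 (1 + log (C x)) + C + 2 + log x) ≤ x * (6 C (1 + log (C x))) / W` as `C ≥ 1`, `x ≥ 1`. -/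
theorem card_NN_le (H : Sys P d C) (Q : ℕ → Prop) (hQ : ∀ m n : ℕ, m ∣ n → n ≠ 0 → Q n → Q m)
    {x W R : ℝ} (hW : 1 ≤ W) (hxW : W ^ 5 ≤ x) (hR0 : 0 ≤ R)
    (hR : ∀ k : ℕ, 1 ≤ k → (k : ℝ) ≤ W → ∀ M : Finset ℕ, (∀ m ∈ M, x / W ^ 5 < m ∧ Q m ∧
      ∀ p, p.Prime → p ∣ m → P p ∧ (p : ℝ) ≤ W ^ 4 ∧ d p ∣ k) → ∑ m ∈ M, 1 / (m : ℝ) ≤ R)
    (s : Finset ℕ) (hs : ∀ n ∈ s, (n : ℝ) ≤ x ∧ NN P d n ∧ Q n) :
    (s.card : ℝ) ≤ x * (6 * C * (1 + Real.log (C * x))) / W + x * (1 + Real.log W) * R := by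
  classical
  have hC : 1 ≤ C := H.one_le
  have hW0 : 0 < W := by linarith
  have hW5 : 1 ≤ W ^ 5 := one_le_pow₀ hW
  have hx1 : 1 ≤ x := by linarith
  have hx0 : 0 < x := by linarith
  set s1 := s.filter (fun n : ℕ => (n : ℝ) ≤ x / W) with hs1
  set s2 := s.filter (fun n : ℕ => ∃ p, p.Prime ∧ p ∣ n ∧ W < d p) with hs2
  set s3 := s.filter (fun n : ℕ => ∃ p, p.Prime ∧ p ∣ n ∧ W ^ 4 < p ∧ (d p : ℝ) ≤ W) with hs3
  set s4 := s.filter (fun n : ℕ => x / W < (n : ℝ) ∧ ∀ p, p.Prime → p ∣ n → (p : ℝ) ≤ W ^ 4)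
    with hs4
  have hcov : s ⊆ s1 ∪ (s2 ∪ (s3 ∪ s4)) := by
    intro n hn
    rw [Finset.mem_union, Finset.mem_union, Finset.mem_union]
    by_cases h1 : (n : ℝ) ≤ x / W
    · exact Or.inl (Finset.mem_filter.2 ⟨hn, h1⟩)
    by_cases h2 : ∃ p, p.Prime ∧ p ∣ n ∧ W < d p
    · exact Or.inr (Or.inl (Finset.mem_filter.2 ⟨hn, h2⟩))
    by_cases h3 : ∃ p, p.Prime ∧ p ∣ n ∧ W ^ 4 < p ∧ (d p : ℝ) ≤ W
    · exact Or.inr (Or.inr (Or.inl (Finset.mem_filter.2 ⟨hn, h3⟩)))
    refine Or.inr (Or.inr (Or.inr (Finset.mem_filter.2 ⟨hn, not_le.1 h1, ?_⟩)))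
    intro p hp hpn
    by_contra h4
    rcases lt_or_ge W (d p : ℝ) with h5 | h5
    · exact h2 ⟨p, hp, hpn, h5⟩
    · exact h3 ⟨p, hp, hpn, not_le.1 h4, h5⟩
  have hcard : (s.card : ℝ) ≤ s1.card + (s2.card + (s3.card + s4.card)) := by
    have h1 := Finset.card_le_card hcov
    have h2 : (s1 ∪ (s2 ∪ (s3 ∪ s4))).card ≤ s1.card + (s2.card + (s3.card + s4.card)) := by
      refine (Finset.card_union_le _ _).trans (Nat.add_le_add_left ?_ _)
      refine (Finset.card_union_le _ _).trans (Nat.add_le_add_left ?_ _)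
      exact Finset.card_union_le _ _
    exact_mod_cast h1.trans h2
  have hxWd : 0 ≤ x / W := div_nonneg hx0.le hW0.le
  have b1 : (s1.card : ℝ) ≤ x / W := by
    have h1 : s1 ⊆ Finset.Icc 1 ⌊x / W⌋₊ := by
      intro n hn
      obtain ⟨h2, h3⟩ := Finset.mem_filter.1 hn
      have h4 := (hs n h2).2.1.1
      exact Finset.mem_Icc.2 ⟨h4.le, Nat.le_floor h3⟩
    have h2 : s1.card ≤ ⌊x / W⌋₊ := by
      have := Finset.card_le_card h1
      rwa [Nat.card_Icc, Nat.add_sub_cancel] at this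
    exact le_trans (by exact_mod_cast h2) (Nat.floor_le hxWd)
  have b2 : (s2.card : ℝ) ≤ x * (2 * (1 + Real.log (C * x))) / W := by
    refine card_large_d H hx1 hW s2 ?_
    intro n hn
    obtain ⟨h2, h3⟩ := Finset.mem_filter.1 hn
    exact ⟨(hs n h2).1, (hs n h2).2.1, h3⟩
  have b3 : (s3.card : ℝ) ≤ C * x / W := by
    refine card_large_p H hx0.le hW s3 ?_
    intro n hn
    obtain ⟨h2, h3⟩ := Finset.mem_filter.1 hn
    exact ⟨(hs n h2).1, (hs n h2).2.1, h3⟩
  have b4 : (s4.card : ℝ) ≤ x * (2 + Real.log x) / W + x * (1 + Real.log W) * R := by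
    refine card_mid H Q hW hxW hR0 hR s4 ?_
    intro n hn
    obtain ⟨h2, h3, h4⟩ := Finset.mem_filter.1 hn
    obtain ⟨k1, k2, k3⟩ := hs n h2
    have hn0 : n ≠ 0 := by
      have := k2.1
      omega
    have hy : 1 ≤ x / W ^ 5 := by
      rw [le_div_iff₀ (by positivity)]
      linarith
    have hyn : x / W ^ 5 < n := by
      refine lt_of_le_of_lt ?_ h3
      refine div_le_div_of_nonneg_left hx0.le hW0 ?_
      calc W = W ^ 1 := (pow_one W).symm
        _ ≤ W ^ 5 := pow_le_pow_right₀ hW (by norm_num)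
    obtain ⟨m, hm1, hm2, hm3⟩ := exists_mid_divisor hn0 hy h4 hyn
    refine ⟨k1, k2, m, hm1, hm2, ?_, hQ m n hm1 hn0 k3, ?_⟩
    · have h5 : x / W ^ 5 * W ^ 4 = x / W := by
        field_simp
      rw [← h5]
      exact hm3
    · intro p hp hpm
      exact h4 p hp (hpm.trans hm1)
  have hL : 0 ≤ Real.log x := Real.log_nonneg hx1
  have hL2 : Real.log x ≤ Real.log (C * x) := by
    apply Real.log_le_log hx0
    nlinarith
  have hsum : x / W + (x * (2 * (1 + Real.log (C * x))) / W + (C * x / W +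
      x * (2 + Real.log x) / W)) ≤ x * (6 * C * (1 + Real.log (C * x))) / W := by
    have h1 : x / W + (x * (2 * (1 + Real.log (C * x))) / W + (C * x / W +
      x * (2 + Real.log x) / W)) =
        x * (1 + 2 * (1 + Real.log (C * x)) + C + (2 + Real.log x)) / W := by ring
    rw [h1]
    refine div_le_div_of_nonneg_right ?_ hW0.le
    refine mul_le_mul_of_nonneg_left ?_ hx0.le
    nlinarith [mul_nonneg (by linarith : (0:ℝ) ≤ C - 1)
      (by linarith : (0:ℝ) ≤ Real.log (C * x))]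
  linarith

end Pool.Agent.Lib.MP_757a88_nt.PS
end
end

section

/-!
# Pseudoprimes, E1: the weighted Rankin-Euler bound
-/

set_option autoImplicit false

noncomputable section

namespace Pool.Agent.Lib.MP_757a88_nt.PS

private def E1f (c : ℝ) (g : ℕ → ℝ) (m : ℕ) : ℝ := (m : ℝ) ^ (-c) * ∏ p ∈ m.primeFactors, g p

private theorem E1f_nonneg {c : ℝ} {g : ℕ → ℝ} (hg0 : ∀ p, 0 ≤ g p) (m : ℕ) : 0 ≤ E1f c g m :=
  mul_nonneg (Real.rpow_nonneg (Nat.cast_nonneg m) _) (Finset.prod_nonneg fun p _ => hg0 p)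

private theorem E1f_mul {c : ℝ} {g : ℕ → ℝ} {q j m : ℕ} (hq : q.Prime) (hm : m ≠ 0)
    (hqm : ¬ q ∣ m) : E1f c g (q ^ j * m) =
      (if j = 0 then 1 else g q * ((q : ℝ) ^ (-c)) ^ j) * E1f c g m := by
  unfold E1f
  have hq0 : (0 : ℝ) ≤ q := Nat.cast_nonneg q
  by_cases hj : j = 0
  · rw [if_pos hj, hj, pow_zero, one_mul, one_mul]
  · rw [if_neg hj, Nat.primeFactors_mul (pow_ne_zero _ hq.ne_zero) hm,
      Nat.primeFactors_prime_pow hj hq, Finset.prod_union]
    · rw [Finset.prod_singleton, Nat.cast_mul, Nat.cast_pow,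
        Real.mul_rpow (pow_nonneg hq0 j) (Nat.cast_nonneg m)]
      have h1 : ((q : ℝ) ^ j) ^ (-c) = ((q : ℝ) ^ (-c)) ^ j := by
        rw [← Real.rpow_natCast, ← Real.rpow_natCast, ← Real.rpow_mul hq0, ← Real.rpow_mul hq0,
          mul_comm]
      rw [h1]
      ring
    · rw [Finset.disjoint_singleton_left]
      intro h
      exact hqm (Nat.dvd_of_mem_primeFactors h)

private theorem E1_geom {c : ℝ} (hc : 1 / 2 ≤ c) {q : ℕ} (hq : q.Prime) {γ : ℝ} (hγ : 0 ≤ γ)
    (J : ℕ) : ∑ j ∈ Finset.range (J + 1), (if j = 0 then 1 else γ * ((q : ℝ) ^ (-c)) ^ j) ≤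
      1 + 4 * (γ * (q : ℝ) ^ (-c)) := by
  obtain ⟨x, hx⟩ : ∃ x : ℝ, x = (q : ℝ) ^ (-c) := ⟨_, rfl⟩
  rw [← hx]
  have hq2 : (2 : ℝ) ≤ q := by exact_mod_cast hq.two_le
  have hx0 : 0 ≤ x := by
    rw [hx]
    positivity
  have hx1 : x ≤ 3 / 4 := by
    rw [hx]
    calc (q : ℝ) ^ (-c) ≤ (2 : ℝ) ^ (-c) :=
          Real.rpow_le_rpow_of_nonpos (by norm_num) hq2 (by linarith)
      _ ≤ (2 : ℝ) ^ (-(1 / 2) : ℝ) :=
          Real.rpow_le_rpow_of_exponent_le (by norm_num) (by linarith)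
      _ ≤ 3 / 4 := by
          rw [Real.rpow_neg (by norm_num), ← Real.sqrt_eq_rpow]
          rw [inv_le_comm₀ (by positivity) (by norm_num)]
          rw [Real.le_sqrt (by norm_num) (by norm_num)]
          norm_num
  rw [Finset.sum_range_succ', if_pos rfl, add_comm]
  refine add_le_add le_rfl ?_
  have h1 : ∑ k ∈ Finset.range J, (if k + 1 = 0 then 1 else γ * x ^ (k + 1)) =
      γ * x * ∑ k ∈ Finset.range J, x ^ k := by
    rw [Finset.mul_sum]
    refine Finset.sum_congr rfl fun k _ => ?_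
    rw [if_neg (Nat.succ_ne_zero k), pow_succ]
    ring
  rw [h1]
  have h2 : ∑ k ∈ Finset.range J, x ^ k ≤ 4 := by
    have h3 := geom_sum_mul_neg x J
    have h4 : 0 ≤ x ^ J := pow_nonneg hx0 J
    have h5 : 0 ≤ ∑ k ∈ Finset.range J, x ^ k := Finset.sum_nonneg fun k _ => pow_nonneg hx0 k
    nlinarith
  calc γ * x * ∑ k ∈ Finset.range J, x ^ k ≤ γ * x * 4 :=
        mul_le_mul_of_nonneg_left h2 (mul_nonneg hγ hx0)
    _ = 4 * (γ * x) := by ring

private theorem E1_prod {c : ℝ} (hc : 1 / 2 ≤ c) {g : ℕ → ℝ} (hg0 : ∀ p, 0 ≤ g p)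
    (S : Finset ℕ) : (∀ p ∈ S, p.Prime) → ∀ M : Finset ℕ,
      (∀ m ∈ M, m ≠ 0 ∧ ∀ p, p.Prime → p ∣ m → p ∈ S) →
      ∑ m ∈ M, E1f c g m ≤ ∏ p ∈ S, (1 + 4 * (g p * (p : ℝ) ^ (-c))) := by
  induction S using Finset.induction_on with
  | empty =>
    intro _ M hM
    rw [Finset.prod_empty]
    have h1 : M ⊆ {1} := by
      intro m hm
      rw [Finset.mem_singleton]
      by_contra hne
      obtain ⟨p, hp, hpm⟩ := Nat.exists_prime_and_dvd hne
      exact absurd ((hM m hm).2 p hp hpm) (Finset.notMem_empty p)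
    refine (Finset.sum_le_sum_of_subset_of_nonneg h1 fun m _ _ => E1f_nonneg hg0 m).trans ?_
    rw [Finset.sum_singleton]
    unfold E1f
    simp
  | insert q S hqS ih =>
    intro hS M hM
    have hq : q.Prime := hS q (Finset.mem_insert_self q S)
    obtain ⟨J, hJ⟩ : ∃ J, J = M.sup fun m => m.factorization q := ⟨_, rfl⟩
    obtain ⟨M', hM'⟩ : ∃ M', M' = M.image fun m => ordCompl[q] m := ⟨_, rfl⟩
    have hM'p : ∀ m ∈ M', m ≠ 0 ∧ ∀ p, p.Prime → p ∣ m → p ∈ S := by
      intro m hm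
      rw [hM', Finset.mem_image] at hm
      obtain ⟨m₀, hm₀, rfl⟩ := hm
      have h0 := (hM m₀ hm₀).1
      refine ⟨(Nat.ordCompl_pos q h0).ne', fun p hp hpm => ?_⟩
      have h1 : p ∣ m₀ := hpm.trans (Nat.ordCompl_dvd m₀ q)
      rcases Finset.mem_insert.1 ((hM m₀ hm₀).2 p hp h1) with h2 | h2
      · rw [h2] at hpm
        exact absurd hpm (Nat.not_dvd_ordCompl hq h0)
      · exact h2
    have h1 := ih (fun p hp => hS p (Finset.mem_insert_of_mem hp)) M' hM'p
    have h2 : ∑ m ∈ M, E1f c g m ≤ ∑ z ∈ Finset.range (J + 1) ×ˢ M',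
        (if z.1 = 0 then 1 else g q * ((q : ℝ) ^ (-c)) ^ z.1) * E1f c g z.2 := by
      have h3 : ∑ m ∈ M, E1f c g m = ∑ z ∈ M.image fun m => (m.factorization q, ordCompl[q] m),
          (if z.1 = 0 then 1 else g q * ((q : ℝ) ^ (-c)) ^ z.1) * E1f c g z.2 := by
        rw [Finset.sum_image]
        · refine Finset.sum_congr rfl fun m hm => ?_
          have h0 := (hM m hm).1
          show E1f c g m = (if m.factorization q = 0 then 1 else
            g q * ((q : ℝ) ^ (-c)) ^ m.factorization q) * E1f c g (ordCompl[q] m)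
          rw [← E1f_mul hq (Nat.ordCompl_pos q h0).ne' (Nat.not_dvd_ordCompl hq h0),
            Nat.ordProj_mul_ordCompl_eq_self]
        · intro m _ m' _ h
          have h4 : m.factorization q = m'.factorization q := congrArg Prod.fst h
          have h5 : ordCompl[q] m = ordCompl[q] m' := congrArg Prod.snd h
          rw [← Nat.ordProj_mul_ordCompl_eq_self m q, ← Nat.ordProj_mul_ordCompl_eq_self m' q,
            h4]
          rw [h4] at h5
          rw [h5]
      rw [h3]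
      refine Finset.sum_le_sum_of_subset_of_nonneg ?_ ?_
      · intro z hz
        obtain ⟨m, hm, rfl⟩ := Finset.mem_image.1 hz
        rw [Finset.mem_product, Finset.mem_range, hM', hJ]
        exact ⟨Nat.lt_succ_of_le (Finset.le_sup (f := fun m => m.factorization q) hm),
          Finset.mem_image_of_mem _ hm⟩
      · intro z _ _
        refine mul_nonneg ?_ (E1f_nonneg hg0 _)
        split_ifs
        · exact zero_le_one
        · exact mul_nonneg (hg0 q) (pow_nonneg (Real.rpow_nonneg (Nat.cast_nonneg q) _) _)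
    rw [Finset.sum_product] at h2
    simp only at h2
    refine h2.trans ?_
    rw [Finset.prod_insert hqS]
    have h3 : ∑ j ∈ Finset.range (J + 1), ∑ m ∈ M',
        (if j = 0 then 1 else g q * ((q : ℝ) ^ (-c)) ^ j) * E1f c g m =
        (∑ j ∈ Finset.range (J + 1), (if j = 0 then 1 else g q * ((q : ℝ) ^ (-c)) ^ j)) *
          ∑ m ∈ M', E1f c g m := by
      rw [Finset.sum_mul_sum]
    rw [h3]
    refine mul_le_mul (E1_geom hc hq (hg0 q) J) h1
      (Finset.sum_nonneg fun m _ => E1f_nonneg hg0 m) ?_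
    have h4 : 0 ≤ g q * (q : ℝ) ^ (-c) :=
      mul_nonneg (hg0 q) (Real.rpow_nonneg (Nat.cast_nonneg q) _)
    linarith

/-- PROOF. Let `f m = m ^ (-c) * ∏ p ∈ m.primeFactors, g p` for `m ≠ 0`, `f 0 = 0`; it is multiplicative on coprime numbers
(`Nat.Coprime.primeFactors_mul`). The left side is at most `∑' m : Nat.factoredNumbers S, f m = ∏ p ∈ S, ∑' k, f (p ^ k)`
(`EulerProduct.summable_and_hasSum_factoredNumbers_prod_filter_prime_tsum`), and
`∑' k, f (p ^ k) = 1 + g p * p ^ (-c) / (1 - p ^ (-c)) ≤ 1 + 4 * g p * p ^ (-c) ≤ exp (4 * g p * p ^ (-c))`,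
since `p ^ (-c) ≤ 2 ^ (-1 / 2) ≤ 3 / 4`. (Or by induction on `S` without infinite sums: the numbers `m ∈ M` with exact power `p ^ j`.) -/
theorem euler_le {S : Finset ℕ} (hS : ∀ p ∈ S, p.Prime) {c : ℝ} (hc : 1 / 2 ≤ c) {g : ℕ → ℝ}
    (hg0 : ∀ p, 0 ≤ g p) (hg1 : ∀ p, g p ≤ 1) (M : Finset ℕ)
    (hM : ∀ m ∈ M, m ≠ 0 ∧ ∀ p, p.Prime → p ∣ m → p ∈ S) :
    ∑ m ∈ M, (m : ℝ) ^ (-c) * ∏ p ∈ m.primeFactors, g p
      ≤ Real.exp (4 * ∑ p ∈ S, g p * (p : ℝ) ^ (-c)) := by
  refine (E1_prod hc hg0 S hS M hM).trans ?_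
  rw [Finset.mul_sum, Real.exp_sum]
  refine Finset.prod_le_prod (fun p _ => ?_) fun p _ => ?_
  · have h4 : 0 ≤ g p * (p : ℝ) ^ (-c) :=
      mul_nonneg (hg0 p) (Real.rpow_nonneg (Nat.cast_nonneg p) _)
    linarith
  · have h5 := Real.add_one_le_exp (4 * (g p * (p : ℝ) ^ (-c)))
    linarith

end Pool.Agent.Lib.MP_757a88_nt.PS
end
end

section

/-!
# Pseudoprimes: Mertens type upper bounds (elementary)
-/

set_option autoImplicit false

open Finset Nat

namespace Pool.Agent.Lib.MP_757a88_nt.PS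

/-- primes up to `N`. -/
def prms (N : ℕ) : Finset ℕ := {p ∈ Finset.Icc 1 N | p.Prime}

lemma mem_prms {N p : ℕ} : p ∈ prms N ↔ p ≤ N ∧ p.Prime := by
  unfold prms
  simp only [Finset.mem_filter, Finset.mem_Icc]
  exact ⟨fun h => ⟨h.1.2, h.2⟩, fun h => ⟨⟨h.2.one_lt.le, h.1⟩, h.2⟩⟩

lemma log_four_le : Real.log 4 ≤ 1.39 := by
  have h2 := Real.log_two_lt_d9
  have : Real.log 4 = 2 * Real.log 2 := by
    rw [show (4 : ℝ) = 2 ^ 2 by norm_num, Real.log_pow]; norm_num
  rw [this]; linarith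

lemma sum_log_primeFactors_le (n : ℕ) (hn : n ≠ 0) :
    ∑ p ∈ n.primeFactors, Real.log p ≤ Real.log n := by
  rw [← Real.log_prod (by
    intro p hp
    exact_mod_cast (Nat.prime_of_mem_primeFactors hp).ne_zero)]
  apply Real.log_le_log
  · apply Finset.prod_pos
    intro p hp
    exact_mod_cast (Nat.prime_of_mem_primeFactors hp).pos
  · have h1 := Nat.le_of_dvd (Nat.pos_of_ne_zero hn) (Nat.prod_primeFactors_dvd n)
    have h2 : ((∏ p ∈ n.primeFactors, p : ℕ) : ℝ) ≤ n := by exact_mod_cast h1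
    rw [Nat.cast_prod] at h2
    exact h2

lemma sum_theta_le (N : ℕ) : ∑ p ∈ prms N, Real.log p ≤ Real.log 4 * N := by
  have h := Chebyshev.theta_le_log4_mul_x (x := (N : ℝ)) (Nat.cast_nonneg N)
  have h2 : Chebyshev.theta N = ∑ p ∈ prms N, Real.log p := by
    rw [Chebyshev.theta_eq_sum_Icc, Nat.floor_natCast]
    apply Finset.sum_congr
    · ext p
      simp only [Finset.mem_filter, Finset.mem_Icc, mem_prms]
      exact ⟨fun h => ⟨h.1.2, h.2⟩, fun h => ⟨⟨Nat.zero_le _, h.1⟩, h.2⟩⟩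
    · intro p _; rfl
  rw [← h2]
  exact h

/-- Mertens' first theorem, upper bound. -/
lemma sum_log_div_le (N : ℕ) (hN : 1 ≤ N) :
    ∑ p ∈ prms N, Real.log p / p ≤ Real.log N + Real.log 4 := by
  have hN' : (0 : ℝ) < N := by exact_mod_cast hN
  have h1 : ∑ p ∈ prms N, Real.log p * ((N / p : ℕ) : ℝ) ≤ N * Real.log N := by
    calc ∑ p ∈ prms N, Real.log p * ((N / p : ℕ) : ℝ)
        = ∑ p ∈ prms N, ∑ n ∈ Finset.Ioc 0 N, if p ∣ n then Real.log p else 0 := by
          apply Finset.sum_congr rfl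
          intro p _
          rw [← Finset.sum_filter, Finset.sum_const, nsmul_eq_mul,
            Nat.Ioc_filter_dvd_card_eq_div, mul_comm]
      _ = ∑ n ∈ Finset.Ioc 0 N, ∑ p ∈ prms N, if p ∣ n then Real.log p else 0 :=
          Finset.sum_comm
      _ ≤ ∑ n ∈ Finset.Ioc 0 N, Real.log N := by
          apply Finset.sum_le_sum
          intro n hn
          rw [Finset.mem_Ioc] at hn
          rw [← Finset.sum_filter]
          have h2 : ({p ∈ prms N | p ∣ n} : Finset ℕ) = n.primeFactors := by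
            ext p
            simp only [Finset.mem_filter, mem_prms, Nat.mem_primeFactors]
            constructor
            · rintro ⟨⟨_, h4⟩, h5⟩; exact ⟨h4, h5, by omega⟩
            · rintro ⟨h4, h5, _⟩
              exact ⟨⟨(Nat.le_of_dvd hn.1 h5).trans hn.2, h4⟩, h5⟩
          rw [h2]
          refine (sum_log_primeFactors_le n (by omega)).trans ?_
          apply Real.log_le_log
          · exact_mod_cast hn.1
          · exact_mod_cast hn.2
      _ = N * Real.log N := by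
          rw [Finset.sum_const, nsmul_eq_mul, Nat.card_Ioc, Nat.sub_zero]
  have h3 : N * ∑ p ∈ prms N, Real.log p / p ≤
      ∑ p ∈ prms N, (Real.log p * ((N / p : ℕ) : ℝ) + Real.log p) := by
    rw [Finset.mul_sum]
    apply Finset.sum_le_sum
    intro p hp
    have hp' := (mem_prms.mp hp).2
    have hp0 : (0 : ℝ) < p := by exact_mod_cast hp'.pos
    have hlog : 0 ≤ Real.log p := Real.log_nonneg (by exact_mod_cast hp'.one_lt.le)
    have h4 : (N : ℝ) / p ≤ ((N / p : ℕ) : ℝ) + 1 := by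
      have h5 : N < p * (N / p + 1) := Nat.lt_mul_div_succ N hp'.pos
      rw [div_le_iff₀ hp0]
      have h6 : (N : ℝ) ≤ ((p * (N / p + 1) : ℕ) : ℝ) := by exact_mod_cast h5.le
      push_cast at h6
      linarith
    calc N * (Real.log p / p) = Real.log p * (N / p) := by ring
      _ ≤ Real.log p * (((N / p : ℕ) : ℝ) + 1) := mul_le_mul_of_nonneg_left h4 hlog
      _ = _ := by ring
  rw [Finset.sum_add_distrib] at h3
  have h4 := sum_theta_le N
  have h5 : N * ∑ p ∈ prms N, Real.log p / p ≤ N * (Real.log N + Real.log 4) := by linarith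
  exact le_of_mul_le_mul_left h5 hN'

/-- Upper bound for the sum of reciprocals of primes. -/
lemma sum_inv_prms_le (N : ℕ) (hN : 2 ≤ N) :
    ∑ p ∈ prms N, 1 / (p : ℝ) ≤ 6 * Real.log (Real.log N) + 4 := by
  induction N using Nat.strong_induction_on with
  | _ N ih =>
    by_cases h4 : N < 4
    · have h5 : ∑ p ∈ prms N, 1 / (p : ℝ) ≤ 5 / 6 := by
        have hsub : prms N ⊆ {2, 3} := by
          intro p hp
          have := mem_prms.mp hp
          have h2 := this.2.two_le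
          simp only [Finset.mem_insert, Finset.mem_singleton]
          omega
        calc ∑ p ∈ prms N, 1 / (p : ℝ) ≤ ∑ p ∈ ({2, 3} : Finset ℕ), 1 / (p : ℝ) := by
              apply Finset.sum_le_sum_of_subset_of_nonneg hsub
              intro i _ _
              positivity
          _ = 5 / 6 := by
              rw [Finset.sum_pair (by norm_num)]
              norm_num
      have h6 : Real.log 2 ≤ Real.log N := Real.log_le_log (by norm_num) (by exact_mod_cast hN)
      have h7 := Real.log_two_gt_d9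
      have h8 : Real.log (Real.log 2) ≤ Real.log (Real.log N) :=
        Real.log_le_log (by linarith) h6
      have h9 := Real.one_sub_inv_le_log_of_pos (x := Real.log 2) (by linarith)
      have h10 : (Real.log 2)⁻¹ ≤ 1.5 := by
        rw [inv_le_comm₀ (by linarith) (by norm_num)]
        norm_num
        linarith
      linarith
    · push Not at h4
      set M := Nat.sqrt N with hM
      have hM2 : 2 ≤ M := by
        rw [hM, Nat.le_sqrt]
        omega
      have hMN : M < N := Nat.sqrt_lt_self (by omega)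
      have ih' := ih M hMN hM2
      have hNr : (4 : ℝ) ≤ N := by exact_mod_cast h4
      have hlogN : Real.log 4 ≤ Real.log N := Real.log_le_log (by norm_num) hNr
      have hlog4 : (1.38 : ℝ) ≤ Real.log 4 := by
        have h2 := Real.log_two_gt_d9
        have : Real.log 4 = 2 * Real.log 2 := by
          rw [show (4 : ℝ) = 2 ^ 2 by norm_num, Real.log_pow]; norm_num
        rw [this]; linarith
      have hlogN0 : 0 < Real.log N := by linarith
      -- split
      have hsplit : ∑ p ∈ prms N, 1 / (p : ℝ)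
          ≤ ∑ p ∈ prms M, 1 / (p : ℝ) + ∑ p ∈ prms N, Real.log p / p * (2 / Real.log N) := by
        have h5 : prms N = prms M ∪ ({p ∈ prms N | M < p} : Finset ℕ) := by
          ext p
          simp only [Finset.mem_union, Finset.mem_filter, mem_prms]
          constructor
          · rintro ⟨h6, h7⟩
            by_cases h8 : p ≤ M
            · left; exact ⟨h8, h7⟩
            · right; exact ⟨⟨h6, h7⟩, by omega⟩
          · rintro (⟨h6, h7⟩ | ⟨h6, _⟩)
            · exact ⟨by omega, h7⟩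
            · exact h6
        have h6 : ∑ p ∈ prms N, 1 / (p : ℝ) ≤ ∑ p ∈ prms M, 1 / (p : ℝ)
            + ∑ p ∈ prms N with M < p, 1 / (p : ℝ) := by
          conv_lhs => rw [h5]
          rw [← Finset.sum_union_inter]
          have : 0 ≤ ∑ p ∈ prms M ∩ ({p ∈ prms N | M < p} : Finset ℕ), 1 / (p : ℝ) :=
            Finset.sum_nonneg (fun p _ => by positivity)
          linarith
        refine h6.trans ?_
        gcongr
        calc ∑ p ∈ prms N with M < p, 1 / (p : ℝ)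
            ≤ ∑ p ∈ prms N with M < p, Real.log p / p * (2 / Real.log N) := by
              apply Finset.sum_le_sum
              intro p hp
              simp only [Finset.mem_filter, mem_prms] at hp
              have hp0 : (0 : ℝ) < p := by exact_mod_cast hp.1.2.pos
              have h7 : N < p * p := by
                have := Nat.sqrt_lt'.mp hp.2
                rw [sq] at this
                exact this
              have h8 : Real.log N ≤ 2 * Real.log p := by
                have h9 : (N : ℝ) ≤ (p : ℝ) ^ 2 := by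
                  have : (N : ℝ) ≤ ((p * p : ℕ) : ℝ) := by exact_mod_cast h7.le
                  push_cast at this
                  rw [sq]; exact this
                calc Real.log N ≤ Real.log ((p : ℝ) ^ 2) :=
                      Real.log_le_log (by linarith) h9
                  _ = 2 * Real.log p := by rw [Real.log_pow]; norm_num
              have h10 : Real.log p / p * (2 / Real.log N)
                  = (1 / p) * (2 * Real.log p / Real.log N) := by ring
              rw [h10]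
              have h11 : 1 ≤ 2 * Real.log p / Real.log N := by
                rw [le_div_iff₀ hlogN0]; linarith
              have h12 : 0 ≤ 1 / (p : ℝ) := by positivity
              nlinarith
          _ ≤ ∑ p ∈ prms N, Real.log p / p * (2 / Real.log N) := by
              apply Finset.sum_le_sum_of_subset_of_nonneg (Finset.filter_subset _ _)
              intro p hp _
              have hp' := (mem_prms.mp hp).2
              have hlog : 0 ≤ Real.log p := Real.log_nonneg (by exact_mod_cast hp'.one_lt.le)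
              positivity
      have h5 : ∑ p ∈ prms N, Real.log p / p * (2 / Real.log N) ≤ 4.03 := by
        rw [← Finset.sum_mul]
        have h6 := sum_log_div_le N (by omega)
        calc (∑ p ∈ prms N, Real.log p / p) * (2 / Real.log N)
            ≤ (Real.log N + Real.log 4) * (2 / Real.log N) := by gcongr
          _ = 2 + 2 * (Real.log 4 / Real.log N) := by field_simp
          _ ≤ 2 + 2 * 1 := by
              gcongr
              rw [div_le_one hlogN0]
              exact hlogN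
          _ ≤ 4.03 := by norm_num
      have h6 : Real.log (Real.log M) ≤ Real.log (Real.log N) - Real.log 2 := by
        have hMr : (2 : ℝ) ≤ M := by exact_mod_cast hM2
        have h7 : Real.log M ≤ Real.log N / 2 := by
          have h8 : (M : ℝ) ^ 2 ≤ N := by
            have := Nat.sqrt_le' N
            exact_mod_cast this
          have h9 : Real.log ((M : ℝ) ^ 2) ≤ Real.log N :=
            Real.log_le_log (by positivity) h8
          rw [Real.log_pow] at h9
          push_cast at h9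
          linarith
        have h10 : 0 < Real.log M := Real.log_pos (by linarith)
        calc Real.log (Real.log M) ≤ Real.log (Real.log N / 2) := Real.log_le_log h10 h7
          _ = Real.log (Real.log N) - Real.log 2 := by
              rw [Real.log_div hlogN0.ne' (by norm_num)]
      have h7 := Real.log_two_gt_d9
      linarith

/-- convexity bound for `p ^ η`. -/
lemma rpow_le_interp {η a N : ℝ} (ha : 1 ≤ a) (haN : a ≤ N) (hN : 1 < N) :
    a ^ η ≤ 1 + Real.log a / Real.log N * (N ^ η) := by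
  have hlN : 0 < Real.log N := Real.log_pos hN
  have hla : 0 ≤ Real.log a := Real.log_nonneg ha
  set t : ℝ := Real.log a / Real.log N with ht
  have ht0 : 0 ≤ t := by positivity
  have ht1 : t ≤ 1 := by
    rw [ht, div_le_one hlN]
    exact Real.log_le_log (by linarith) haN
  have h1 := convexOn_exp.2 (Set.mem_univ (0 : ℝ)) (Set.mem_univ (η * Real.log N))
    (by linarith : 0 ≤ 1 - t) ht0 (by ring)
  simp only [smul_eq_mul, mul_zero, zero_add, Real.exp_zero, mul_one] at h1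
  have h2 : t * (η * Real.log N) = Real.log a * η := by
    rw [ht]; field_simp
  rw [h2, ← Real.rpow_def_of_pos (by linarith)] at h1
  have h3 : Real.exp (η * Real.log N) = N ^ η := by
    rw [Real.rpow_def_of_pos (by linarith), mul_comm]
  rw [h3] at h1
  linarith

lemma sum_rpow_le (N : ℕ) (hN : 2 ≤ N) (η : ℝ) :
    ∑ p ∈ prms N, (p : ℝ) ^ (η - 1)
      ≤ 6 * Real.log (Real.log N) + 4 + 4 * (N : ℝ) ^ η := by
  have hNr : (2 : ℝ) ≤ N := by exact_mod_cast hN
  have hlN : 0 < Real.log N := Real.log_pos (by linarith)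
  have h1 : ∀ p ∈ prms N, (p : ℝ) ^ (η - 1) ≤ 1 / p + Real.log p / p *
      ((N : ℝ) ^ η / Real.log N) := by
    intro p hp
    have hp' := mem_prms.mp hp
    have hp1 : (1 : ℝ) ≤ p := by exact_mod_cast hp'.2.one_lt.le
    have hpN : (p : ℝ) ≤ N := by exact_mod_cast hp'.1
    have h2 := rpow_le_interp (η := η) hp1 hpN (by linarith)
    rw [Real.rpow_sub (by linarith), Real.rpow_one]
    calc (p : ℝ) ^ η / p ≤ (1 + Real.log p / Real.log N * (N : ℝ) ^ η) / p := by gcongr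
      _ = _ := by ring
  refine (Finset.sum_le_sum h1).trans ?_
  rw [Finset.sum_add_distrib, ← Finset.sum_mul]
  have h2 := sum_inv_prms_le N hN
  have h3 := sum_log_div_le N (by omega)
  have h4 : (∑ p ∈ prms N, Real.log p / p) * ((N : ℝ) ^ η / Real.log N) ≤ 4 * (N : ℝ) ^ η := by
    have hpow : 0 < (N : ℝ) ^ η := by positivity
    have hl2 : (0.69 : ℝ) ≤ Real.log N := by
      have h7 := Real.log_two_gt_d9
      have : Real.log 2 ≤ Real.log N := Real.log_le_log (by norm_num) hNr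
      linarith
    have hl4 := log_four_le
    calc (∑ p ∈ prms N, Real.log p / p) * ((N : ℝ) ^ η / Real.log N)
        ≤ (Real.log N + Real.log 4) * ((N : ℝ) ^ η / Real.log N) := by gcongr
      _ = (1 + Real.log 4 / Real.log N) * (N : ℝ) ^ η := by field_simp
      _ ≤ 4 * (N : ℝ) ^ η := by
          apply mul_le_mul_of_nonneg_right _ hpow.le
          have : Real.log 4 / Real.log N ≤ 3 := by
            rw [div_le_iff₀ hlN]; linarith
          linarith
  linarith

end Pool.Agent.Lib.MP_757a88_nt.PS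
end

section

/-!
# Pseudoprimes, E2: the sum of `e ^ (-1 + w)` over the divisors `e` of `k`
-/

set_option autoImplicit false

noncomputable section

namespace Pool.Agent.Lib.MP_757a88_nt.PS

/-- PROOF. `∑_{p | k} p ^ (-1 + w)`: the primes `p ≤ N = ⌊X⌋` give at most `∑ p ∈ prms N, p ^ (w - 1) ≤ 6 log log N + 4 + 4 N ^ w`
(`sum_rpow_le`, `N ≥ 3`, monotonicity), the number of primes `p | k` with `p > X` is at most `log k / log X ≤ X / log X` (their product
divides `k`, and `log k ≤ X`), each gives at most `X ^ (-1 + w)`: together at most `X ^ w / log X ≤ X ^ w` (`log X ≥ 1`). -/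
theorem sum_primeFactors_le {k : ℕ} (hk : k ≠ 0) {X w : ℝ} (hX : 3 ≤ X) (hw0 : 0 ≤ w)
    (hw : w ≤ 1 / 2) (hkX : Real.log k ≤ X) :
    ∑ p ∈ k.primeFactors, (p : ℝ) ^ (-1 + w) ≤ 6 * Real.log (Real.log X) + 4 + 5 * X ^ w := by
  have hX0 : (0 : ℝ) < X := by linarith
  have hlogX : 1 ≤ Real.log X := by
    rw [Real.le_log_iff_exp_le hX0]
    have := Real.exp_one_lt_d9
    linarith
  set N : ℕ := ⌊X⌋₊ with hN
  have hN3 : 3 ≤ N := by
    rw [hN]
    apply Nat.le_floor
    exact_mod_cast hX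
  have hN3r : (3 : ℝ) ≤ N := by exact_mod_cast hN3
  have hNX : (N : ℝ) ≤ X := Nat.floor_le hX0.le
  have hlogN : 0 < Real.log N := Real.log_pos (by linarith)
  have hll : Real.log (Real.log N) ≤ Real.log (Real.log X) :=
    Real.log_le_log hlogN (Real.log_le_log (by linarith) hNX)
  have hpw : (N : ℝ) ^ w ≤ X ^ w := Real.rpow_le_rpow (by linarith) hNX hw0
  rw [← Finset.sum_filter_add_sum_filter_not k.primeFactors (fun p => p ≤ N)]
  have h1 : ∑ p ∈ k.primeFactors with p ≤ N, (p : ℝ) ^ (-1 + w)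
      ≤ 6 * Real.log (Real.log X) + 4 + 4 * X ^ w := by
    have h2 : ∑ p ∈ k.primeFactors with p ≤ N, (p : ℝ) ^ (-1 + w)
        ≤ ∑ p ∈ prms N, (p : ℝ) ^ (w - 1) := by
      calc ∑ p ∈ k.primeFactors with p ≤ N, (p : ℝ) ^ (-1 + w)
          = ∑ p ∈ k.primeFactors with p ≤ N, (p : ℝ) ^ (w - 1) := by
            apply Finset.sum_congr rfl
            intro p _
            rw [neg_add_eq_sub]
        _ ≤ ∑ p ∈ prms N, (p : ℝ) ^ (w - 1) := by
            apply Finset.sum_le_sum_of_subset_of_nonneg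
            · intro p hp
              rw [Finset.mem_filter] at hp
              exact mem_prms.mpr ⟨hp.2, Nat.prime_of_mem_primeFactors hp.1⟩
            · intro p _ _
              positivity
    have h3 := sum_rpow_le N (by omega) w
    linarith
  have h4 : ∑ p ∈ k.primeFactors with ¬ p ≤ N, (p : ℝ) ^ (-1 + w) ≤ X ^ w := by
    set F : Finset ℕ := {p ∈ k.primeFactors | ¬ p ≤ N} with hF
    have hbig : ∀ p ∈ F, X < (p : ℝ) := by
      intro p hp
      rw [hF, Finset.mem_filter] at hp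
      have h5 : N < p := by omega
      exact (Nat.floor_lt hX0.le).mp h5
    have h5 : ∑ p ∈ F, (p : ℝ) ^ (-1 + w) ≤ ∑ _p ∈ F, X ^ (-1 + w) := by
      apply Finset.sum_le_sum
      intro p hp
      exact Real.rpow_le_rpow_of_nonpos hX0 (hbig p hp).le (by linarith)
    have h6 : (F.card : ℝ) ≤ X := by
      have h7 : (F.card : ℝ) * Real.log X ≤ ∑ p ∈ F, Real.log p := by
        rw [← nsmul_eq_mul]
        apply Finset.card_nsmul_le_sum
        intro p hp
        exact Real.log_le_log hX0 (hbig p hp).le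
      have h8 : ∑ p ∈ F, Real.log (p : ℝ) ≤ ∑ p ∈ k.primeFactors, Real.log (p : ℝ) := by
        apply Finset.sum_le_sum_of_subset_of_nonneg (Finset.filter_subset _ _)
        intro p hp _
        exact Real.log_nonneg (by exact_mod_cast (Nat.prime_of_mem_primeFactors hp).one_lt.le)
      have h9 := sum_log_primeFactors_le k hk
      have h10 : (0 : ℝ) ≤ F.card := Nat.cast_nonneg _
      nlinarith
    calc ∑ p ∈ F, (p : ℝ) ^ (-1 + w) ≤ ∑ _p ∈ F, X ^ (-1 + w) := h5
      _ = F.card * X ^ (-1 + w) := by rw [Finset.sum_const, nsmul_eq_mul]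
      _ ≤ X * X ^ (-1 + w) := by
          apply mul_le_mul_of_nonneg_right h6
          positivity
      _ = X ^ w := by
          conv_lhs => rw [← Real.rpow_one X, ← Real.rpow_mul hX0.le, one_mul]
          rw [← Real.rpow_add hX0]
          congr 1
          ring
  linarith

/-- PROOF. `euler_le` with `S = k.primeFactors`, `M = k.divisors`, `g = 1`, `c = 1 - w`, `sum_primeFactors_le`, `1 ≤ X ^ w`. -/
theorem divisors_le {k : ℕ} (hk : k ≠ 0) {X w : ℝ} (hX : 3 ≤ X) (hw0 : 0 ≤ w)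
    (hw : w ≤ 1 / 2) (hkX : Real.log k ≤ X) :
    ∑ e ∈ k.divisors, (e : ℝ) ^ (-1 + w)
      ≤ Real.exp (24 * Real.log (Real.log X) + 36 * X ^ w) := by
  have hX0 : (0 : ℝ) < X := by linarith
  have h1 := euler_le (S := k.primeFactors) (fun p hp => Nat.prime_of_mem_primeFactors hp)
    (c := 1 - w) (by linarith) (g := fun _ => 1) (fun _ => zero_le_one) (fun _ => le_refl _)
    k.divisors (by
      intro m hm
      rw [Nat.mem_divisors] at hm
      refine ⟨fun h => ?_, fun p hp hpm => ?_⟩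
      · rw [h, zero_dvd_iff] at hm
        exact hk hm.1
      · exact Nat.mem_primeFactors.mpr ⟨hp, hpm.trans hm.1, hk⟩)
  simp only [Finset.prod_const_one, mul_one, one_mul] at h1
  have h2 : -(1 - w) = -1 + w := by ring
  rw [h2] at h1
  refine h1.trans (Real.exp_le_exp.mpr ?_)
  have h3 := sum_primeFactors_le hk hX hw0 hw hkX
  have h4 : 1 ≤ X ^ w := Real.one_le_rpow (by linarith) hw0
  linarith

end Pool.Agent.Lib.MP_757a88_nt.PS
end
end

section

/-!
# Pseudoprimes, G1: sums over primes with `d p` dividing `k`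
-/

set_option autoImplicit false

noncomputable section

namespace Pool.Agent.Lib.MP_757a88_nt.PS

variable {P : ℕ → Prop} {d : ℕ → ℕ} {C : ℝ}

/-- The good primes `p ^ th < d p`. PROOF. Group by `e = d p ∣ k` (`e ≥ 1`, `p ≡ 1` modulo `e`): the number of such primes is at most the number of `j ≥ 1` with
`e j ≤ p - 1 < p < e ^ (1 / th)`, so at most `N = e ^ (1 / th - 1)`, `N ≥ 1`; `sum_rpow_AP_le`: at most
`e ^ (-1 + v) * e ^ ((1 / th - 1) v) / v = e ^ (-1 + v / th) / v`. -/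
theorem sum_good_le (H : Sys P d C) {k : ℕ} (hk : 1 ≤ k) {th v : ℝ} (hth0 : 0 < th)
    (hth1 : th ≤ 1) (hv : 0 < v) (hv1 : v ≤ 1) (F : Finset ℕ)
    (hF : ∀ p ∈ F, p.Prime ∧ P p ∧ d p ∣ k ∧ (p : ℝ) ^ th < d p) :
    ∑ p ∈ F, (p : ℝ) ^ (-1 + v) ≤ 1 / v * ∑ e ∈ k.divisors, (e : ℝ) ^ (-1 + v / th) := by
  classical
  have hmaps : ∀ p ∈ F, d p ∈ k.divisors := fun p hp => by
    rw [Nat.mem_divisors]
    exact ⟨(hF p hp).2.2.1, by omega⟩
  rw [← Finset.sum_fiberwise_of_maps_to hmaps, Finset.mul_sum]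
  refine Finset.sum_le_sum fun e he => ?_
  have he1 : 1 ≤ e := Nat.pos_of_mem_divisors he
  have heR : (1 : ℝ) ≤ e := by exact_mod_cast he1
  have he0 : (0 : ℝ) < e := by linarith
  have hth' : 0 ≤ 1 / th - 1 := by
    have : 1 ≤ 1 / th := by
      rw [le_div_iff₀ hth0]; linarith
    linarith
  set N : ℝ := (e : ℝ) ^ (1 / th - 1) with hN
  have hN1 : 1 ≤ N := Real.one_le_rpow heR hth'
  set G := F.filter (fun p => d p = e) with hG
  have hGm : ∀ p ∈ G, p.Prime ∧ P p ∧ d p = e ∧ (p : ℝ) ^ th < e := by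
    intro p hp
    rw [hG, Finset.mem_filter] at hp
    obtain ⟨h1, h2⟩ := hp
    have h3 := hF p h1
    refine ⟨h3.1, h3.2.1, h2, ?_⟩
    rw [h2] at h3
    exact h3.2.2.2
  have hGdvd : ∀ p ∈ G, 1 < p ∧ e ∣ p - 1 := by
    intro p hp
    obtain ⟨h1, h2, h3, h4⟩ := hGm p hp
    refine ⟨h1.one_lt, ?_⟩
    have := H.dvd p h1 h2
    rwa [h3] at this
  have hcard : (G.card : ℝ) ≤ N := by
    have hinj : Set.InjOn (fun p => (p - 1) / e) (G : Set ℕ) := by
      intro p hp q hq hpq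
      have h1 := hGdvd p hp
      have h2 := hGdvd q hq
      obtain ⟨a, ha⟩ := h1.2
      obtain ⟨b, hb⟩ := h2.2
      simp only at hpq
      rw [ha, hb, Nat.mul_div_cancel_left _ he1, Nat.mul_div_cancel_left _ he1] at hpq
      have h3 := h1.1
      have h4 := h2.1
      rw [hpq] at ha
      omega
    have hm : ∀ p ∈ G, (fun p => (p - 1) / e) p ∈ Finset.Icc 1 ⌊N⌋₊ := by
      intro p hp
      obtain ⟨h1, a, ha⟩ := hGdvd p hp
      obtain ⟨h2, h3, h4, h5⟩ := hGm p hp
      simp only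
      rw [ha, Nat.mul_div_cancel_left _ he1, Finset.mem_Icc]
      constructor
      · rcases Nat.eq_zero_or_pos a with h | h
        · subst h; omega
        · exact h
      · apply Nat.le_floor
        have hp0 : (0 : ℝ) ≤ p := Nat.cast_nonneg p
        have h6 : (p : ℝ) < (e : ℝ) ^ (1 / th) := by
          have h7 : ((p : ℝ) ^ th) ^ (1 / th) < (e : ℝ) ^ (1 / th) :=
            Real.rpow_lt_rpow (Real.rpow_nonneg hp0 _) h5 (by positivity)
          rwa [← Real.rpow_mul hp0, mul_one_div_cancel hth0.ne', Real.rpow_one] at h7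
        have h8 : (e : ℝ) * a ≤ p := by
          have : e * a ≤ p := by omega
          exact_mod_cast this
        have h9 : (e : ℝ) * N = (e : ℝ) ^ (1 / th) := by
          rw [hN, Real.rpow_sub he0, Real.rpow_one]
          field_simp
        have h10 : (e : ℝ) * a ≤ e * N := by rw [h9]; linarith
        exact le_of_mul_le_mul_left h10 he0
    have h := Finset.card_le_card_of_injOn _ hm hinj
    rw [Nat.card_Icc] at h
    have h' : (G.card : ℝ) ≤ (⌊N⌋₊ : ℝ) := by
      have : G.card ≤ ⌊N⌋₊ := by omega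
      exact_mod_cast this
    exact h'.trans (Nat.floor_le (by linarith))
  refine (sum_rpow_AP_le he1 hGdvd hN1 hcard hv hv1).trans (le_of_eq ?_)
  rw [hN, ← Real.rpow_mul he0.le]
  have h11 : (e : ℝ) ^ (-1 + v / th) = (e : ℝ) ^ (-1 + v) * (e : ℝ) ^ ((1 / th - 1) * v) := by
    rw [← Real.rpow_add he0]
    congr 1
    field_simp
    ring
  rw [h11]
  ring

/-- The large primes. PROOF. Group by `e = d p ∣ k`, at most `C e` primes each. If `e ≤ sqrt Y`: at most `C e Y ^ (-1 + v)` and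
`e = e ^ (2 - s) e ^ (-1 + s) ≤ Y ^ (1 - s / 2) e ^ (-1 + s)`. If `e > sqrt Y`: `sum_rpow_AP_le` with `N = C e`: at most
`e ^ (-1 + v) (C e) ^ v / v ≤ (C / v) e ^ (-1 + s) e ^ (2 v - s) ≤ (C / v) e ^ (-1 + s) Y ^ (v - s / 2)` (`C ^ v ≤ C`). -/
theorem sum_large_le (H : Sys P d C) {k : ℕ} (hk : 1 ≤ k) {Y v s : ℝ} (hY : 1 ≤ Y) (hv : 0 < v)
    (hv1 : v ≤ 1) (hs : 2 * v ≤ s) (hs2 : s ≤ 2) (F : Finset ℕ)
    (hF : ∀ p ∈ F, p.Prime ∧ P p ∧ d p ∣ k ∧ Y < p) :
    ∑ p ∈ F, (p : ℝ) ^ (-1 + v)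
      ≤ C / v * Y ^ (v - s / 2) * ∑ e ∈ k.divisors, (e : ℝ) ^ (-1 + s) := by
  classical
  have hC := H.one_le
  have hmaps : ∀ p ∈ F, d p ∈ k.divisors := fun p hp => by
    rw [Nat.mem_divisors]
    exact ⟨(hF p hp).2.2.1, by omega⟩
  rw [← Finset.sum_fiberwise_of_maps_to hmaps, Finset.mul_sum]
  refine Finset.sum_le_sum fun e he => ?_
  have he1 : 1 ≤ e := Nat.pos_of_mem_divisors he
  have heR : (1 : ℝ) ≤ e := by exact_mod_cast he1
  have he0 : (0 : ℝ) < e := by linarith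
  have hY0 : (0 : ℝ) < Y := by linarith
  set G := F.filter (fun p => d p = e) with hG
  have hGm : ∀ p ∈ G, p.Prime ∧ P p ∧ d p = e ∧ Y < p := by
    intro p hp
    rw [hG, Finset.mem_filter] at hp
    obtain ⟨h1, h2⟩ := hp
    have h3 := hF p h1
    exact ⟨h3.1, h3.2.1, h2, h3.2.2.2⟩
  have hGdvd : ∀ p ∈ G, 1 < p ∧ e ∣ p - 1 := by
    intro p hp
    obtain ⟨h1, h2, h3, h4⟩ := hGm p hp
    refine ⟨h1.one_lt, ?_⟩
    have := H.dvd p h1 h2
    rwa [h3] at this
  have hcard : (G.card : ℝ) ≤ C * e :=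
    H.card e he1 G fun p hp => ⟨(hGm p hp).1, (hGm p hp).2.1, (hGm p hp).2.2.1⟩
  have hCv : (1 : ℝ) ≤ 1 / v := by rw [le_div_iff₀ hv]; linarith
  have hYp : (0 : ℝ) < Y ^ (v - s / 2) := Real.rpow_pos_of_pos hY0 _
  have hep : (0 : ℝ) < (e : ℝ) ^ (-1 + s) := Real.rpow_pos_of_pos he0 _
  rcases le_or_gt (e : ℝ) (Real.sqrt Y) with hle | hgt
  · -- small e
    have h1 : ∑ p ∈ G, (p : ℝ) ^ (-1 + v) ≤ ∑ _p ∈ G, Y ^ (-1 + v) := by
      refine Finset.sum_le_sum fun p hp => ?_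
      exact Real.rpow_le_rpow_of_nonpos hY0 (hGm p hp).2.2.2.le (by linarith)
    rw [Finset.sum_const, nsmul_eq_mul] at h1
    have hYv : (0 : ℝ) < Y ^ (-1 + v) := Real.rpow_pos_of_pos hY0 _
    have h2 : (e : ℝ) ^ (2 - s) ≤ Y ^ (1 - s / 2) := by
      have h3 : (e : ℝ) ^ (2 - s) ≤ (Real.sqrt Y) ^ (2 - s) :=
        Real.rpow_le_rpow he0.le hle (by linarith)
      have h4 : (Real.sqrt Y) ^ (2 - s) = Y ^ (1 - s / 2) := by
        rw [Real.sqrt_eq_rpow, ← Real.rpow_mul hY0.le]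
        congr 1
        ring
      rwa [h4] at h3
    have h5 : (e : ℝ) = (e : ℝ) ^ (2 - s) * (e : ℝ) ^ (-1 + s) := by
      rw [← Real.rpow_add he0]
      have : (2 - s + (-1 + s)) = 1 := by ring
      rw [this, Real.rpow_one]
    have h6 : Y ^ (1 - s / 2) * Y ^ (-1 + v) = Y ^ (v - s / 2) := by
      rw [← Real.rpow_add hY0]
      congr 1
      ring
    calc ∑ p ∈ G, (p : ℝ) ^ (-1 + v) ≤ G.card * Y ^ (-1 + v) := h1
      _ ≤ (C * e) * Y ^ (-1 + v) := mul_le_mul_of_nonneg_right hcard hYv.le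
      _ = C * ((e : ℝ) ^ (2 - s) * (e : ℝ) ^ (-1 + s)) * Y ^ (-1 + v) := by rw [← h5]
      _ ≤ C * (Y ^ (1 - s / 2) * (e : ℝ) ^ (-1 + s)) * Y ^ (-1 + v) := by
          gcongr
      _ = C * Y ^ (v - s / 2) * (e : ℝ) ^ (-1 + s) := by rw [← h6]; ring
      _ = 1 * (C * Y ^ (v - s / 2) * (e : ℝ) ^ (-1 + s)) := by ring
      _ ≤ (1 / v) * (C * Y ^ (v - s / 2) * (e : ℝ) ^ (-1 + s)) := by
          gcongr
      _ = C / v * Y ^ (v - s / 2) * (e : ℝ) ^ (-1 + s) := by ring
  · -- large e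
    have hN : (1 : ℝ) ≤ C * e := by nlinarith
    refine (sum_rpow_AP_le he1 hGdvd hN hcard hv hv1).trans ?_
    have h1 : (C * (e : ℝ)) ^ v ≤ C * (e : ℝ) ^ v := by
      rw [Real.mul_rpow (by linarith) he0.le]
      have : C ^ v ≤ C ^ (1 : ℝ) := Real.rpow_le_rpow_of_exponent_le hC hv1
      rw [Real.rpow_one] at this
      gcongr
    have h2 : (e : ℝ) ^ (2 * v - s) ≤ Y ^ (v - s / 2) := by
      have h3 : (e : ℝ) ^ (2 * v - s) ≤ (Real.sqrt Y) ^ (2 * v - s) :=
        Real.rpow_le_rpow_of_nonpos (Real.sqrt_pos.2 hY0) hgt.le (by linarith)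
      have h4 : (Real.sqrt Y) ^ (2 * v - s) = Y ^ (v - s / 2) := by
        rw [Real.sqrt_eq_rpow, ← Real.rpow_mul hY0.le]
        congr 1
        ring
      rwa [h4] at h3
    have h5 : (e : ℝ) ^ (-1 + v) * (e : ℝ) ^ v = (e : ℝ) ^ (2 * v - s) * (e : ℝ) ^ (-1 + s) := by
      rw [← Real.rpow_add he0, ← Real.rpow_add he0]
      congr 1
      ring
    calc (e : ℝ) ^ (-1 + v) * ((C * (e : ℝ)) ^ v / v)
        ≤ (e : ℝ) ^ (-1 + v) * ((C * (e : ℝ) ^ v) / v) := by gcongr
      _ = C / v * ((e : ℝ) ^ (-1 + v) * (e : ℝ) ^ v) := by ring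
      _ = C / v * ((e : ℝ) ^ (2 * v - s) * (e : ℝ) ^ (-1 + s)) := by rw [h5]
      _ ≤ C / v * (Y ^ (v - s / 2) * (e : ℝ) ^ (-1 + s)) := by gcongr
      _ = C / v * Y ^ (v - s / 2) * (e : ℝ) ^ (-1 + s) := by ring

end Pool.Agent.Lib.MP_757a88_nt.PS
end
end

section

/-!
# Pseudoprimes, S1: the systems of one base and of several bases
-/

set_option autoImplicit false

noncomputable section

namespace Pool.Agent.Lib.MP_757a88_nt.PS

/-- PROOF. A product of distinct primes dividing `N` divides `N`, and each is `≥ 2`: `2 ^ F.card ≤ N`; `log 2 ≥ 1 / 2`. -/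
theorem card_primes_dvd_le {N : ℕ} (hN : N ≠ 0) (F : Finset ℕ) (hF : ∀ p ∈ F, p.Prime ∧ p ∣ N) :
    (F.card : ℝ) ≤ 2 * Real.log N := by
  have h1 : ∏ p ∈ F, p ∣ N :=
    Finset.prod_primes_dvd N (fun p hp => (hF p hp).1.prime) fun p hp => (hF p hp).2
  have h2 : 2 ^ F.card ≤ N := by
    refine le_trans ?_ (Nat.le_of_dvd (Nat.pos_of_ne_zero hN) h1)
    rw [← Finset.prod_const]
    exact Finset.prod_le_prod' fun p hp => (hF p hp).1.two_le
  have h3 : Real.log ((2 : ℝ) ^ F.card) ≤ Real.log N := by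
    refine Real.log_le_log (by positivity) ?_
    exact_mod_cast h2
  rw [Real.log_pow] at h3
  have h4 := Real.log_two_gt_d9
  have h5 : (0 : ℝ) ≤ F.card := Nat.cast_nonneg _
  nlinarith

private theorem S1_one_le {a : ℕ} (ha : 2 ≤ a) : (1 : ℝ) ≤ 2 * Real.log a := by
  have h4 := Real.log_two_gt_d9
  have h1 : Real.log 2 ≤ Real.log a := Real.log_le_log (by norm_num) (by exact_mod_cast ha)
  linarith

private theorem S1_order_dvd {a p : ℕ} (hp : p.Prime) (h : ¬ p ∣ a) :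
    orderOf (a : ZMod p) ∣ p - 1 := by
  have : Fact p.Prime := ⟨hp⟩
  refine ZMod.orderOf_dvd_card_sub_one fun h1 => h ?_
  exact (ZMod.natCast_eq_zero_iff a p).1 h1

private theorem S1_card {a : ℕ} (ha : 2 ≤ a) {k : ℕ} (hk : 1 ≤ k) (F : Finset ℕ)
    (hF : ∀ p ∈ F, p.Prime ∧ (a : ZMod p) ^ k = 1) : (F.card : ℝ) ≤ 2 * Real.log a * k := by
  have h1 : 1 < a ^ k := Nat.one_lt_pow (by omega) (by omega)
  have h2 := card_primes_dvd_le (N := a ^ k - 1) (by omega) F fun p hp => ⟨(hF p hp).1, by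
    rw [← ZMod.natCast_eq_zero_iff, Nat.cast_sub h1.le, Nat.cast_pow, (hF p hp).2, Nat.cast_one,
      sub_self]⟩
  have h3 : Real.log ((a ^ k - 1 : ℕ) : ℝ) ≤ k * Real.log a := by
    rw [← Real.log_pow]
    refine Real.log_le_log ?_ ?_
    · have h4 : 0 < a ^ k - 1 := by omega
      exact_mod_cast h4
    · have h4 : a ^ k - 1 ≤ a ^ k := Nat.sub_le _ _
      exact_mod_cast h4
  nlinarith

private theorem S1_pow_eq {a n p : ℕ} (hp : p.Prime) (hpn : p ∣ n) (ha : 1 ≤ a)
    (h : n ∣ a ^ (n - 1) - 1) : (a : ZMod p) ^ (n - 1) = 1 := by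
  have h1 : p ∣ a ^ (n - 1) - 1 := hpn.trans h
  rw [← ZMod.natCast_eq_zero_iff, Nat.cast_sub (Nat.one_le_pow _ _ ha), Nat.cast_pow, Nat.cast_one,
    sub_eq_zero] at h1
  exact h1

private theorem S1_not_dvd {a n p : ℕ} (hp : p.Prime) (hn : 1 < n)
    (h : (a : ZMod p) ^ (n - 1) = 1) : ¬ p ∣ a := by
  have : Fact p.Prime := ⟨hp⟩
  intro h1
  rw [(ZMod.natCast_eq_zero_iff a p).2 h1, zero_pow (by omega)] at h
  exact zero_ne_one h

/-- The system of several bases. PROOF. `one_le`: `2 log 2 ≥ 1`. `dvd`: for `p` not dividing `a i` the order of `a i` modulo `p` divides `p - 1`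
(`ZMod.orderOf_dvd_card_sub_one`), `Finset.lcm_dvd`. `card`: if the lcm is `k` then `p ∣ a i₀ ^ k - 1 ≠ 0`; `card_primes_dvd_le`, `log (a ^ k - 1) ≤ k log a`. -/
theorem sys_bases {r : ℕ} (a : Fin r → ℕ) (ha : ∀ i, 2 ≤ a i) (i₀ : Fin r) :
    Sys (fun p => ∀ i, ¬ p ∣ a i) (fun p => Finset.univ.lcm fun i => orderOf (a i : ZMod p))
      (2 * Real.log (a i₀)) where
  one_le := S1_one_le (ha i₀)
  dvd p hp h := Finset.lcm_dvd fun i _ => S1_order_dvd hp (h i)
  card k hk F hF := by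
    refine S1_card (ha i₀) hk F fun p hp => ⟨(hF p hp).1, ?_⟩
    obtain ⟨_, _, h3⟩ := hF p hp
    refine orderOf_dvd_iff_pow_eq_one.1 ?_
    rw [← h3]
    exact Finset.dvd_lcm (f := fun i => orderOf (a i : ZMod p)) (Finset.mem_univ i₀)

/-- The system of one base. PROOF. As above. -/
theorem sys_base {a : ℕ} (ha : 2 ≤ a) :
    Sys (fun p => ¬ p ∣ a) (fun p => orderOf (a : ZMod p)) (2 * Real.log a) where
  one_le := S1_one_le ha
  dvd p hp h := S1_order_dvd hp h
  card k hk F hF := by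
    refine S1_card ha hk F fun p hp => ⟨(hF p hp).1, ?_⟩
    obtain ⟨_, _, h3⟩ := hF p hp
    exact orderOf_dvd_iff_pow_eq_one.1 (dvd_of_eq h3)

/-- PROOF. `Nat.FermatPsp n b` is `n ∣ b ^ (n - 1) - 1 ∧ ¬ n.Prime ∧ 1 < n`; modulo a prime `p ∣ n` one has `b ^ (n - 1) = 1`, so `p` does not divide `b` and
`orderOf_dvd_of_pow_eq_one`. -/
theorem NN_of_psp {a n : ℕ} (ha : 2 ≤ a) (h : Nat.FermatPsp n a) :
    NN (fun p => ¬ p ∣ a) (fun p => orderOf (a : ZMod p)) n := by
  obtain ⟨h1, h2, h3⟩ := h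
  refine ⟨h3, h2, fun p hp hpn => ?_⟩
  have h4 := S1_pow_eq hp hpn (by omega) h1
  exact ⟨S1_not_dvd hp h3 h4, orderOf_dvd_of_pow_eq_one h4⟩

theorem NN_of_psps {r : ℕ} (a : Fin r → ℕ) (ha : ∀ i, 2 ≤ a i) (hr : 1 ≤ r) {n : ℕ}
    (h : ∀ i, Nat.FermatPsp n (a i)) :
    NN (fun p => ∀ i, ¬ p ∣ a i) (fun p => Finset.univ.lcm fun i => orderOf (a i : ZMod p)) n := by
  obtain ⟨_, h2, h3⟩ := h ⟨0, hr⟩
  refine ⟨h3, h2, fun p hp hpn => ⟨fun i => ?_, Finset.lcm_dvd fun i _ => ?_⟩⟩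
  · have hi := ha i
    exact S1_not_dvd hp h3 (S1_pow_eq hp hpn (by omega) (h i).1)
  · have hi := ha i
    exact orderOf_dvd_of_pow_eq_one (S1_pow_eq hp hpn (by omega) (h i).1)

end Pool.Agent.Lib.MP_757a88_nt.PS
end
end
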