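import Pool.Agent.Lib.MP_757a88_nt.Mg.G001

section

/-!
# Pseudoprimes, A1: the main bound
-/

set_option autoImplicit false

noncomputable section

namespace Pool.Agent.Lib.MP_757a88_nt.PS

open Filter

private theorem A1_tendsto_log : Tendsto Real.log atTop atTop := Real.tendsto_log_atTop

private theorem A1_tendsto_LL : Tendsto LL atTop atTop := by
  have h1 : Tendsto (fun x : ℝ => Real.sqrt (Real.log x)) atTop atTop :=
    Real.tendsto_sqrt_atTop.comp Real.tendsto_log_atTop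
  refine tendsto_atTop_mono' _ ?_ h1
  filter_upwards [eventually_sqrt_le_LL 1] with x hx
  simpa using hx

private theorem A1_exp_sqrt (c : ℝ) : ∀ᶠ y : ℝ in atTop, c * y ^ 2 ≤ Real.exp (Real.sqrt y) := by
  have h1 : Tendsto (fun y : ℝ => Real.exp (Real.sqrt y) / (Real.sqrt y) ^ 4) atTop atTop :=
    (Real.tendsto_exp_div_pow_atTop 4).comp Real.tendsto_sqrt_atTop
  filter_upwards [h1.eventually_ge_atTop c, eventually_gt_atTop (0 : ℝ)] with y hy hy0
  have h2 : (Real.sqrt y) ^ 4 = y ^ 2 := by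
    have : (Real.sqrt y) ^ 4 = ((Real.sqrt y) ^ 2) ^ 2 := by ring
    rw [this, Real.sq_sqrt hy0.le]
  rw [h2] at hy
  have h3 : 0 < y ^ 2 := by positivity
  rwa [le_div_iff₀ h3] at hy

private theorem A1_exp_lin {a T : ℝ} (ha : 0 < a) (hT : 0 < T) :
    ∀ᶠ s : ℝ in atTop, 2 * (1 + T * s) ≤ Real.exp (a * s) := by
  have h1 : Tendsto (fun s : ℝ => Real.exp (a * s) / (a * s) ^ 1) atTop atTop :=
    (Real.tendsto_exp_div_pow_atTop 1).comp (tendsto_id.const_mul_atTop ha)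
  filter_upwards [h1.eventually_ge_atTop ((2 + 2 * T) / a), eventually_ge_atTop (1 : ℝ)] with s hs hs1
  have h3 : 0 < (a * s) ^ 1 := by positivity
  rw [le_div_iff₀ h3] at hs
  have h4 : (2 + 2 * T) / a * (a * s) ^ 1 = (2 + 2 * T) * s := by
    field_simp
  rw [h4] at hs
  nlinarith

/-- PROOF. Take `η = (θ₁ - θ) / 4`, `W = exp (T * LL x)`, `v = θ₁ * l3 x / l2 x`, `R = (x / W ^ 5) ^ (-v) * exp (η * LL x)
= exp (- θ₁ * LL x + 5 v T * LL x + η * LL x)`. For `m > x / W ^ 5`: `1 / m = m ^ (-1 + v) * m ^ (-v) ≤ (x / W ^ 5) ^ (-v) * m ^ (-1 + v)`, so `card_NN_le`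
applies (`W ^ 5 ≤ x` by `eventually_LL_le`). The first term is `≤ x * 12 log x (1 + log (2 x log x)) * exp (- T * LL x) ≤ (x / 2) exp (- θ * LL x)`, the second one
`x (1 + T * LL x) exp (-(θ₁ - η - 5 v T) * LL x) ≤ (x / 2) exp (- θ * LL x)` for large `x` (`LL x ≥ sqrt (log x)`, `v → 0`; `T > θ > 0`). -/
theorem main_bound {θ θ₁ T : ℝ} (h0 : 0 < θ) (h1 : θ < θ₁) (hT : θ < T) :
    ∃ η : ℝ, 0 < η ∧ ∀ᶠ x : ℝ in atTop, ∀ (P : ℕ → Prop) (d : ℕ → ℕ) (C : ℝ) (Q : ℕ → Prop),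
      Sys P d C → C ≤ 2 * Real.log x → (∀ m n : ℕ, m ∣ n → n ≠ 0 → Q n → Q m) →
      (∀ k : ℕ, 1 ≤ k → (k : ℝ) ≤ Real.exp (T * LL x) → ∀ M : Finset ℕ, (∀ m ∈ M, m ≠ 0 ∧ Q m ∧
        ∀ p, p.Prime → p ∣ m → P p ∧ d p ∣ k) →
        ∑ m ∈ M, (m : ℝ) ^ (-1 + θ₁ * l3 x / l2 x) ≤ Real.exp (η * LL x)) →
      ∀ s : Finset ℕ, (∀ n ∈ s, (n : ℝ) ≤ x ∧ NN P d n ∧ Q n) →
        (s.card : ℝ) ≤ x / Real.exp (θ * LL x) := by
  have hη : 0 < (θ₁ - θ) / 4 := by linarith
  have hT0 : 0 < T := h0.trans hT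
  have hθ₁ : 0 < θ₁ := h0.trans h1
  refine ⟨(θ₁ - θ) / 4, hη, ?_⟩
  set η : ℝ := (θ₁ - θ) / 4 with hηdef
  have e1 := eventually_LL_le (η := 1 / (5 * T)) (by positivity)
  have e2 : ∀ᶠ x : ℝ in atTop, l3 x / l2 x < η / (5 * T * θ₁) :=
    tendsto_l3_div_l2.eventually_lt_const (by positivity)
  have e3 : ∀ᶠ x : ℝ in atTop, 0 < l2 x := tendsto_l2.eventually_gt_atTop 0
  have e4 : ∀ᶠ x : ℝ in atTop, 0 < l3 x := tendsto_l3.eventually_gt_atTop 0
  have e5 : ∀ᶠ x : ℝ in atTop, 3 ≤ Real.log x := A1_tendsto_log.eventually_ge_atTop 3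
  have e6 : ∀ᶠ x : ℝ in atTop, 72 * Real.log x ^ 2 ≤ Real.exp (Real.sqrt (Real.log x)) :=
    A1_tendsto_log.eventually (A1_exp_sqrt 72)
  have e7 := eventually_sqrt_le_LL (1 / (T - θ))
  have e8 : ∀ᶠ x : ℝ in atTop, 2 * (1 + T * LL x) ≤ Real.exp (2 * η * LL x) :=
    A1_tendsto_LL.eventually (A1_exp_lin (by positivity) hT0)
  have e9 : ∀ᶠ x : ℝ in atTop, 0 < LL x := A1_tendsto_LL.eventually_gt_atTop 0
  filter_upwards [e1, e2, e3, e4, e5, e6, e7, e8, e9, eventually_gt_atTop (1 : ℝ)] with x e1 e2 e3 e4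
    e5 e6 e7 e8 e9 e10
  intro P d C Q H hC hQ hM s hs
  have hx0 : 0 < x := by linarith
  set v : ℝ := θ₁ * l3 x / l2 x with hv
  have hv0 : 0 < v := by positivity
  have hvlog : v * Real.log x = θ₁ * LL x := by
    rw [hv, LL]; field_simp
  have hv1 : 5 * v * T ≤ η := by
    have h5 : θ₁ * (l3 x / l2 x) ≤ θ₁ * (η / (5 * T * θ₁)) := mul_le_mul_of_nonneg_left e2.le hθ₁.le
    have h6 : θ₁ * (η / (5 * T * θ₁)) = η / (5 * T) := by field_simp
    have h7 : v = θ₁ * (l3 x / l2 x) := by rw [hv]; ring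
    rw [← h7, h6] at h5
    have h8 : 5 * v * T = 5 * T * v := by ring
    rw [h8]
    rw [le_div_iff₀ (by positivity)] at h5
    linarith
  have hCpos : 1 ≤ C := H.one_le
  -- the parameters
  have hW1 : 1 ≤ Real.exp (T * LL x) := Real.one_le_exp (by positivity)
  have hW5 : Real.exp (T * LL x) ^ 5 = Real.exp (5 * T * LL x) := by
    rw [← Real.exp_nat_mul]; congr 1; push_cast; ring
  have hWx : Real.exp (T * LL x) ^ 5 ≤ x := by
    rw [hW5]
    have h5 : 5 * T * LL x ≤ Real.log x := by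
      have h6 := mul_le_mul_of_nonneg_left e1 (by positivity : (0 : ℝ) ≤ 5 * T)
      have h7 : 5 * T * (1 / (5 * T) * Real.log x) = Real.log x := by field_simp
      rw [h7] at h6; exact h6
    calc Real.exp (5 * T * LL x) ≤ Real.exp (Real.log x) := Real.exp_le_exp.2 h5
      _ = x := Real.exp_log hx0
  set W : ℝ := Real.exp (T * LL x) with hW
  have hW0 : 0 < W := Real.exp_pos _
  have hy0 : 0 < x / W ^ 5 := by positivity
  have hlogy : Real.log (x / W ^ 5) = Real.log x - 5 * T * LL x := by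
    rw [Real.log_div hx0.ne' (by positivity), hW5, Real.log_exp]
  set R : ℝ := (x / W ^ 5) ^ (-v) * Real.exp (η * LL x) with hR
  have hR' : R = Real.exp (-(θ₁ - η - 5 * v * T) * LL x) := by
    rw [hR, Real.rpow_def_of_pos hy0, hlogy, ← Real.exp_add]
    congr 1
    have : (Real.log x - 5 * T * LL x) * -v = -(v * Real.log x) + 5 * v * T * LL x := by ring
    rw [this, hvlog]; ring
  have hR0 : 0 ≤ R := by rw [hR']; positivity
  have key := card_NN_le H Q hQ hW1 hWx hR0 (by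
    intro k hk1 hkW M hMm
    have h5 := hM k hk1 hkW M (fun m hm => by
      obtain ⟨a1, a2, a3⟩ := hMm m hm
      refine ⟨?_, a2, fun p hp hpm => ⟨(a3 p hp hpm).1, (a3 p hp hpm).2.2⟩⟩
      rintro rfl
      have : x / W ^ 5 < 0 := by simpa using a1
      linarith)
    calc ∑ m ∈ M, 1 / (m : ℝ) ≤ ∑ m ∈ M, (x / W ^ 5) ^ (-v) * (m : ℝ) ^ (-1 + v) := by
          apply Finset.sum_le_sum
          intro m hm
          obtain ⟨a1, -, -⟩ := hMm m hm
          have hm0 : (0 : ℝ) < m := hy0.trans a1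
          have h6 : (1 : ℝ) / m = (m : ℝ) ^ (-v) * (m : ℝ) ^ (-1 + v) := by
            rw [← Real.rpow_add hm0]
            have : -v + (-1 + v) = -1 := by ring
            rw [this, Real.rpow_neg_one, one_div]
          rw [h6]
          apply mul_le_mul_of_nonneg_right _ (by positivity)
          exact Real.rpow_le_rpow_of_nonpos hy0 a1.le (by linarith)
      _ = (x / W ^ 5) ^ (-v) * ∑ m ∈ M, (m : ℝ) ^ (-1 + v) := by rw [Finset.mul_sum]
      _ ≤ R := by
          rw [hR]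
          exact mul_le_mul_of_nonneg_left h5 (by positivity)) s hs
  -- first term
  have hlogW : Real.log W = T * LL x := by rw [hW, Real.log_exp]
  have hlogC : Real.log (C * x) ≤ 2 * Real.log x + 1 := by
    have h5 : C * x ≤ 2 * Real.log x * x := mul_le_mul_of_nonneg_right hC hx0.le
    have h6 : Real.log x ≤ x := (Real.log_le_sub_one_of_pos hx0).trans (by linarith)
    have h7 : C * x ≤ Real.exp 1 * (x * x) := by
      have h8 : (2 : ℝ) ≤ Real.exp 1 := by
        have := Real.add_one_le_exp (1 : ℝ); linarith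
      calc C * x ≤ 2 * Real.log x * x := h5
        _ ≤ 2 * x * x := by
            apply mul_le_mul_of_nonneg_right _ hx0.le
            linarith
        _ ≤ Real.exp 1 * (x * x) := by nlinarith [mul_pos hx0 hx0]
    calc Real.log (C * x) ≤ Real.log (Real.exp 1 * (x * x)) := by
          apply Real.log_le_log (by positivity) h7
      _ = 2 * Real.log x + 1 := by
          rw [Real.log_mul (Real.exp_pos 1).ne' (by positivity), Real.log_exp,
            Real.log_mul hx0.ne' hx0.ne']; ring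
  have hlogC0 : 0 ≤ Real.log (C * x) := Real.log_nonneg (by nlinarith)
  have t1 : 6 * C * (1 + Real.log (C * x)) ≤ 36 * Real.log x ^ 2 := by
    have h5 : 1 + Real.log (C * x) ≤ 3 * Real.log x := by linarith
    calc 6 * C * (1 + Real.log (C * x)) ≤ 6 * (2 * Real.log x) * (3 * Real.log x) := by
          apply mul_le_mul _ h5 (by linarith) (by linarith)
          linarith
      _ = 36 * Real.log x ^ 2 := by ring
  have t2 : Real.exp (Real.sqrt (Real.log x)) ≤ Real.exp ((T - θ) * LL x) := by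
    apply Real.exp_le_exp.2
    have hTθ : 0 < T - θ := by linarith
    have h5 := mul_le_mul_of_nonneg_left e7 hTθ.le
    have h6 : (T - θ) * (1 / (T - θ) * Real.sqrt (Real.log x)) = Real.sqrt (Real.log x) := by
      field_simp
    rw [h6] at h5; exact h5
  have t3 : 2 * (6 * C * (1 + Real.log (C * x))) ≤ Real.exp ((T - θ) * LL x) := by
    calc 2 * (6 * C * (1 + Real.log (C * x))) ≤ 72 * Real.log x ^ 2 := by linarith
      _ ≤ _ := e6.trans t2
  have hE : 0 < Real.exp (θ * LL x) := Real.exp_pos _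
  have hWE : W = Real.exp ((T - θ) * LL x) * Real.exp (θ * LL x) := by
    rw [hW, ← Real.exp_add]; congr 1; ring
  have t4 : x * (6 * C * (1 + Real.log (C * x))) / W ≤ x / Real.exp (θ * LL x) / 2 := by
    rw [div_div, div_le_div_iff₀ hW0 (by positivity), hWE]
    have h5 : x * Real.exp (θ * LL x) * (2 * (6 * C * (1 + Real.log (C * x)))) ≤
        x * Real.exp (θ * LL x) * Real.exp ((T - θ) * LL x) :=
      mul_le_mul_of_nonneg_left t3 (by positivity)
    calc x * (6 * C * (1 + Real.log (C * x))) * (Real.exp (θ * LL x) * 2)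
        = x * Real.exp (θ * LL x) * (2 * (6 * C * (1 + Real.log (C * x)))) := by ring
      _ ≤ x * Real.exp (θ * LL x) * Real.exp ((T - θ) * LL x) := h5
      _ = x * (Real.exp ((T - θ) * LL x) * Real.exp (θ * LL x)) := by ring
  -- second term
  have hRb : R ≤ Real.exp (-(2 * η * LL x)) * Real.exp (-(θ * LL x)) := by
    rw [hR', ← Real.exp_add]
    apply Real.exp_le_exp.2
    have h5 : θ₁ = θ + 4 * η := by rw [hηdef]; ring
    have h6 : (2 * η + θ) * LL x ≤ (θ₁ - η - 5 * v * T) * LL x := by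
      apply mul_le_mul_of_nonneg_right _ e9.le
      linarith
    linarith
  have t5 : x * (1 + Real.log W) * R ≤ x / Real.exp (θ * LL x) / 2 := by
    rw [hlogW]
    have hL1 : 0 ≤ 1 + T * LL x := by positivity
    calc x * (1 + T * LL x) * R
        ≤ x * (1 + T * LL x) * (Real.exp (-(2 * η * LL x)) * Real.exp (-(θ * LL x))) :=
          mul_le_mul_of_nonneg_left hRb (by positivity)
      _ ≤ x * (Real.exp (2 * η * LL x) / 2) *
          (Real.exp (-(2 * η * LL x)) * Real.exp (-(θ * LL x))) := by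
          apply mul_le_mul_of_nonneg_right _ (by positivity)
          apply mul_le_mul_of_nonneg_left _ hx0.le
          linarith
      _ = x / Real.exp (θ * LL x) / 2 := by
          rw [Real.exp_neg, Real.exp_neg]
          field_simp
  calc (s.card : ℝ) ≤ _ := key
    _ ≤ x / Real.exp (θ * LL x) / 2 + x / Real.exp (θ * LL x) / 2 := add_le_add t4 t5
    _ = x / Real.exp (θ * LL x) := by ring

end Pool.Agent.Lib.MP_757a88_nt.PS
end
end

section

/-!
# Pseudoprimes, G2: asymptotic form of the sums over the good and over the large primes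
-/

set_option autoImplicit false

noncomputable section

namespace Pool.Agent.Lib.MP_757a88_nt.PS

open Filter

private theorem g2_rpow_small {ρ : ℝ} (hρ : ρ < 1) {ε : ℝ} (hε : 0 < ε) :
    ∀ᶠ t : ℝ in atTop, t ^ ρ ≤ ε * t := by
  have h := tendsto_rpow_neg_atTop (y := 1 - ρ) (by linarith)
  filter_upwards [h.eventually (gt_mem_nhds hε), eventually_gt_atTop (0 : ℝ)] with t h1 h2
  have h3 : t ^ ρ = t ^ (-(1 - ρ)) * t := by
    conv_rhs => rw [← Real.rpow_one t, ← Real.rpow_mul h2.le, ← Real.rpow_add h2]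
    congr 1
    ring
  rw [h3]
  exact mul_le_mul_of_nonneg_right (le_of_lt h1) h2.le

private theorem g2_log_small {ε : ℝ} (hε : 0 < ε) :
    ∀ᶠ t : ℝ in atTop, Real.log t ≤ ε * t := by
  have h := Real.isLittleO_log_id_atTop.bound hε
  filter_upwards [h, eventually_gt_atTop (1 : ℝ)] with t h1 h2
  have h3 : 0 ≤ Real.log t := Real.log_nonneg h2.le
  simp only [id, Real.norm_eq_abs] at h1
  rw [abs_of_nonneg h3, abs_of_pos (by linarith)] at h1
  exact h1

private theorem g2_LL {T : ℝ} : ∀ᶠ x : ℝ in atTop, T * LL x ≤ Real.log x := by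
  have h := eventually_LL_le (η := 1 / (|T| + 1)) (by positivity)
  filter_upwards [h, eventually_sqrt_le_LL 0, eventually_gt_atTop (1 : ℝ)] with x h1 h2 h3
  have h4 : 0 ≤ LL x := by simpa using h2
  have h5 : 0 ≤ Real.log x := Real.log_nonneg h3.le
  have h6 : 0 ≤ |T| := abs_nonneg T
  calc T * LL x ≤ |T| * LL x := mul_le_mul_of_nonneg_right (le_abs_self T) h4
    _ ≤ |T| * (1 / (|T| + 1) * Real.log x) := mul_le_mul_of_nonneg_left h1 h6
    _ = (|T| / (|T| + 1)) * Real.log x := by ring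
    _ ≤ 1 * Real.log x := by
        apply mul_le_mul_of_nonneg_right _ h5
        rw [div_le_one (by positivity)]
        linarith
    _ = Real.log x := one_mul _

/-- PROOF. `X = log x`, `v = θ₁ l3 / l2`. `log k ≤ T * LL x ≤ X` (`eventually_LL_le`). `sum_good_le`, `divisors_le` with `w = v / th`: `X ^ w = l2 ^ (θ₁ / th)`,
so the sum is at most `(l2 / (θ₁ l3)) exp (24 l3 + 36 l2 ^ (θ₁ / th)) ≤ exp (l2 / 2) = sqrt X` for large `x`, as `θ₁ / th < 1`. -/
theorem good_small {θ₁ th T : ℝ} (h0 : 0 < θ₁) (h1 : θ₁ < th) (hth : th ≤ 1) :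
    ∀ᶠ x : ℝ in atTop, ∀ (P : ℕ → Prop) (d : ℕ → ℕ) (C : ℝ), Sys P d C →
      ∀ k : ℕ, 1 ≤ k → (k : ℝ) ≤ Real.exp (T * LL x) → ∀ F : Finset ℕ,
      (∀ p ∈ F, p.Prime ∧ P p ∧ d p ∣ k ∧ (p : ℝ) ^ th < d p) →
      ∑ p ∈ F, (p : ℝ) ^ (-1 + θ₁ * l3 x / l2 x) ≤ Real.sqrt (Real.log x) := by
  have hth0 : 0 < th := by linarith
  have hρ : θ₁ / th < 1 := by rw [div_lt_one hth0]; exact h1
  have hρ0 : 0 < θ₁ / th := div_pos h0 hth0
  have e1 : ∀ᶠ x : ℝ in atTop, (l2 x) ^ (θ₁ / th) ≤ (1 / 360) * l2 x :=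
    tendsto_l2.eventually (g2_rpow_small hρ (by norm_num))
  have e2 : ∀ᶠ x : ℝ in atTop, Real.log (l2 x) ≤ (1 / 100) * l2 x :=
    tendsto_l2.eventually (g2_log_small (by norm_num))
  have e3 : ∀ᶠ x : ℝ in atTop, 10 * |Real.log θ₁| ≤ l2 x :=
    tendsto_l2.eventually (eventually_ge_atTop _)
  have e4 : ∀ᶠ x : ℝ in atTop, (2 : ℝ) ≤ l2 x := tendsto_l2.eventually (eventually_ge_atTop _)
  have e5 : ∀ᶠ x : ℝ in atTop, (1 : ℝ) ≤ l3 x := tendsto_l3.eventually (eventually_ge_atTop _)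
  have e6 : ∀ᶠ x : ℝ in atTop, l3 x / l2 x < 1 / (2 * (θ₁ / th)) :=
    tendsto_l3_div_l2.eventually (gt_mem_nhds (by positivity))
  filter_upwards [e1, e2, e3, e4, e5, e6, g2_LL (T := T), eventually_gt_atTop (1 : ℝ)] with
    x a1 a2 a3 a4 a5 a6 a7 a8
  intro P d C H k hk hkT F hF
  have hl2 : 0 < l2 x := by linarith
  have hl3 : 0 < l3 x := by linarith
  have hlog : 0 < Real.log x := Real.log_pos a8
  have hexp : Real.exp (l2 x) = Real.log x := Real.exp_log hlog
  have hX3 : 3 ≤ Real.log x := by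
    rw [← hexp]
    have := Real.add_one_le_exp (l2 x)
    linarith
  set v : ℝ := θ₁ * l3 x / l2 x with hv
  have hv0 : 0 < v := by positivity
  have hw : v / th = (θ₁ / th) * (l3 x / l2 x) := by rw [hv]; ring
  have hw2 : v / th ≤ 1 / 2 := by
    rw [hw]
    have := mul_lt_mul_of_pos_left a6 hρ0
    have h9 : θ₁ / th * (1 / (2 * (θ₁ / th))) = 1 / 2 := by
      field_simp
    linarith
  have hw0 : 0 ≤ v / th := by positivity
  have hv1 : v ≤ 1 := by
    have : v = (v / th) * th := by field_simp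
    rw [this]
    nlinarith
  have hkX : Real.log k ≤ Real.log x := by
    have h2 : Real.log k ≤ T * LL x := by
      have h3 : (0 : ℝ) < k := by exact_mod_cast hk
      rw [Real.log_le_iff_le_exp h3]
      exact hkT
    linarith
  have hXw : (Real.log x) ^ (v / th) = (l2 x) ^ (θ₁ / th) := by
    rw [Real.rpow_def_of_pos hlog, Real.rpow_def_of_pos hl2]
    congr 1
    have : Real.log (Real.log x) = l2 x := rfl
    rw [this, hw]
    have : Real.log (l2 x) = l3 x := rfl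
    rw [this]
    field_simp
  have hA := sum_good_le H hk hth0 hth hv0 hv1 F hF
  have hB := divisors_le (k := k) (by omega) hX3 hw0 hw2 hkX
  have hll : Real.log (Real.log (Real.log x)) = l3 x := rfl
  rw [hXw, hll] at hB
  have hv' : 1 / v ≤ Real.exp (l3 x - Real.log θ₁) := by
    rw [Real.exp_sub, Real.exp_log h0]
    have : Real.exp (l3 x) = l2 x := Real.exp_log hl2
    rw [this, hv]
    rw [one_div_div, div_le_div_iff₀ (by positivity) h0]
    nlinarith [mul_pos hl2 h0]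
  have hs : Real.sqrt (Real.log x) = Real.exp (l2 x / 2) := by
    rw [← hexp, Real.sqrt_eq_rpow, ← Real.exp_mul]
    congr 1
    ring
  rw [hs]
  have hfin : l3 x - Real.log θ₁ + (24 * l3 x + 36 * (l2 x) ^ (θ₁ / th)) ≤ l2 x / 2 := by
    have b1 : l3 x ≤ (1 / 100) * l2 x := a2
    have b2 : -Real.log θ₁ ≤ |Real.log θ₁| := neg_le_abs _
    linarith
  calc ∑ p ∈ F, (p : ℝ) ^ (-1 + v)
      ≤ 1 / v * ∑ e ∈ k.divisors, (e : ℝ) ^ (-1 + v / th) := hA
    _ ≤ Real.exp (l3 x - Real.log θ₁) *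
          Real.exp (24 * l3 x + 36 * (l2 x) ^ (θ₁ / th)) := by
        apply mul_le_mul hv' hB _ (Real.exp_pos _).le
        exact Finset.sum_nonneg fun e _ => Real.rpow_nonneg (Nat.cast_nonneg e) _
    _ = Real.exp (l3 x - Real.log θ₁ + (24 * l3 x + 36 * (l2 x) ^ (θ₁ / th))) := by
        rw [← Real.exp_add]
    _ ≤ Real.exp (l2 x / 2) := Real.exp_le_exp.2 hfin

/-- PROOF. `X = log x`, `v = θ₁ l3 / l2`, `s = (B - 1) l3 / l2 > 2 v`, `Y = exp (l2 ^ B)`: `sum_large_le`, `divisors_le` with `w = s`: `X ^ s = l2 ^ (B - 1)`. The logarithm of the bound is at most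
`log (2 X / v) - (s / 2 - v) l2 ^ B + 24 l3 + 36 l2 ^ (B - 1)`, where `(s / 2 - v) l2 ^ B = ((B - 1) / 2 - θ₁) l3 l2 ^ (B - 1)` dominates: `log (2 X / v) ≤ 2 l2 ≤ 2 l2 ^ (B - 1)` as `B ≥ 2`. -/
theorem large_small {θ₁ B T : ℝ} (h0 : 0 < θ₁) (hB : 2 * θ₁ < B - 1) (hB2 : 2 ≤ B) :
    ∀ᶠ x : ℝ in atTop, ∀ (P : ℕ → Prop) (d : ℕ → ℕ) (C : ℝ), Sys P d C → C ≤ 2 * Real.log x →
      ∀ k : ℕ, 1 ≤ k → (k : ℝ) ≤ Real.exp (T * LL x) → ∀ F : Finset ℕ,
      (∀ p ∈ F, p.Prime ∧ P p ∧ d p ∣ k ∧ Real.exp (l2 x ^ B) < p) →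
      ∑ p ∈ F, (p : ℝ) ^ (-1 + θ₁ * l3 x / l2 x) ≤ 1 := by
  have hκ : 0 < (B - 1) / 2 - θ₁ := by linarith
  have hB1 : 0 < B - 1 := by linarith
  set κ : ℝ := (B - 1) / 2 - θ₁ with hκd
  have e1 : ∀ᶠ x : ℝ in atTop, |Real.log (2 / θ₁)| ≤ l2 x :=
    tendsto_l2.eventually (eventually_ge_atTop _)
  have e2 : ∀ᶠ x : ℝ in atTop, Real.log (l2 x) ≤ 1 * l2 x :=
    tendsto_l2.eventually (g2_log_small (by norm_num))
  have e3 : ∀ᶠ x : ℝ in atTop, 63 / κ ≤ l3 x := tendsto_l3.eventually (eventually_ge_atTop _)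
  have e4 : ∀ᶠ x : ℝ in atTop, (2 : ℝ) ≤ l2 x := tendsto_l2.eventually (eventually_ge_atTop _)
  have e5 : ∀ᶠ x : ℝ in atTop, (1 : ℝ) ≤ l3 x := tendsto_l3.eventually (eventually_ge_atTop _)
  have e6 : ∀ᶠ x : ℝ in atTop, l3 x / l2 x < 1 / (2 * (B - 1)) :=
    tendsto_l3_div_l2.eventually (gt_mem_nhds (by positivity))
  filter_upwards [e1, e2, e3, e4, e5, e6, g2_LL (T := T), eventually_gt_atTop (1 : ℝ)] with
    x a1 a2 a3 a4 a5 a6 a7 a8
  intro P d C H hC2 k hk hkT F hF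
  have hl2 : 0 < l2 x := by linarith
  have hl3 : 0 < l3 x := by linarith
  have hlog : 0 < Real.log x := Real.log_pos a8
  have hexp : Real.exp (l2 x) = Real.log x := Real.exp_log hlog
  have hX3 : 3 ≤ Real.log x := by
    rw [← hexp]
    have := Real.add_one_le_exp (l2 x)
    linarith
  set v : ℝ := θ₁ * l3 x / l2 x with hv
  have hv0 : 0 < v := by positivity
  set s : ℝ := (B - 1) * (l3 x / l2 x) with hs
  have hq : 0 < l3 x / l2 x := by positivity
  have hs2 : s ≤ 1 / 2 := by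
    have := mul_lt_mul_of_pos_left a6 hB1
    have h9 : (B - 1) * (1 / (2 * (B - 1))) = 1 / 2 := by
      field_simp
    rw [hs]
    linarith
  have hs0 : 0 ≤ s := by positivity
  have hvs : 2 * v ≤ s := by
    have : v = θ₁ * (l3 x / l2 x) := by rw [hv]; ring
    rw [this, hs]
    nlinarith
  have hv1 : v ≤ 1 := by linarith
  have hkX : Real.log k ≤ Real.log x := by
    have h2 : Real.log k ≤ T * LL x := by
      have h3 : (0 : ℝ) < k := by exact_mod_cast hk
      rw [Real.log_le_iff_le_exp h3]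
      exact hkT
    linarith
  have hXw : (Real.log x) ^ s = (l2 x) ^ (B - 1) := by
    rw [Real.rpow_def_of_pos hlog, Real.rpow_def_of_pos hl2]
    congr 1
    have : Real.log (Real.log x) = l2 x := rfl
    rw [this, hs]
    have : Real.log (l2 x) = l3 x := rfl
    rw [this]
    field_simp
  have hY : (1 : ℝ) ≤ Real.exp (l2 x ^ B) := Real.one_le_exp (Real.rpow_nonneg hl2.le _)
  have hA := sum_large_le H hk hY hv0 hv1 hvs (by linarith) F hF
  have hB := divisors_le (k := k) (by omega) hX3 hs0 hs2 hkX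
  have hll : Real.log (Real.log (Real.log x)) = l3 x := rfl
  rw [hXw, hll] at hB
  have hC0 : 0 < C := by linarith [H.one_le]
  have hv' : C / v ≤ Real.exp (l2 x + l3 x + Real.log (2 / θ₁)) := by
    rw [Real.exp_add, Real.exp_add, Real.exp_log (by positivity), hexp]
    have : Real.exp (l3 x) = l2 x := Real.exp_log hl2
    rw [this, hv, div_div_eq_mul_div]
    rw [div_le_iff₀ (by positivity)]
    have h7 : Real.log x * l2 x * (2 / θ₁) * (θ₁ * l3 x) = (2 * Real.log x) * l2 x * l3 x := by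
      field_simp
    rw [h7]
    have h8 : C * l2 x ≤ (2 * Real.log x) * l2 x := mul_le_mul_of_nonneg_right hC2 hl2.le
    have h9 : 0 ≤ (2 * Real.log x) * l2 x := by positivity
    nlinarith
  have hYv : (Real.exp (l2 x ^ B)) ^ (v - s / 2) = Real.exp (-(κ * (l3 x * l2 x ^ (B - 1)))) := by
    rw [← Real.exp_mul]
    congr 1
    have h10 : l2 x ^ B = l2 x * l2 x ^ (B - 1) := by
      rw [Real.rpow_sub hl2, Real.rpow_one]
      field_simp
    rw [h10, hv, hs, hκd]
    field_simp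
    ring
  have hD : l2 x ≤ l2 x ^ (B - 1) := by
    have : l2 x ^ (1 : ℝ) ≤ l2 x ^ (B - 1) :=
      Real.rpow_le_rpow_of_exponent_le (by linarith) (by linarith)
    rwa [Real.rpow_one] at this
  set D : ℝ := l2 x ^ (B - 1) with hDd
  have hfin : (l2 x + l3 x + Real.log (2 / θ₁)) + (-(κ * (l3 x * D)) + (24 * l3 x + 36 * D)) ≤ 0 := by
    have b1 : l3 x ≤ 1 * l2 x := a2
    have b2 : Real.log (2 / θ₁) ≤ |Real.log (2 / θ₁)| := le_abs_self _
    have b3 : 63 ≤ κ * l3 x := by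
      rw [div_le_iff₀ hκ] at a3
      linarith
    have b4 : 63 * D ≤ κ * l3 x * D := mul_le_mul_of_nonneg_right b3 (by linarith)
    have b5 : κ * (l3 x * D) = κ * l3 x * D := by ring
    rw [b5]
    linarith
  calc ∑ p ∈ F, (p : ℝ) ^ (-1 + v)
      ≤ C / v * (Real.exp (l2 x ^ B)) ^ (v - s / 2) * ∑ e ∈ k.divisors, (e : ℝ) ^ (-1 + s) := hA
    _ = C / v * ((Real.exp (l2 x ^ B)) ^ (v - s / 2) * ∑ e ∈ k.divisors, (e : ℝ) ^ (-1 + s)) := by
        ring
    _ ≤ Real.exp (l2 x + l3 x + Real.log (2 / θ₁)) *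
          (Real.exp (-(κ * (l3 x * D))) * Real.exp (24 * l3 x + 36 * D)) := by
        rw [hYv]
        apply mul_le_mul hv' _ _ (Real.exp_pos _).le
        · exact mul_le_mul_of_nonneg_left hB (Real.exp_pos _).le
        · exact mul_nonneg (Real.exp_pos _).le
            (Finset.sum_nonneg fun e _ => Real.rpow_nonneg (Nat.cast_nonneg e) _)
    _ = Real.exp ((l2 x + l3 x + Real.log (2 / θ₁)) + (-(κ * (l3 x * D)) + (24 * l3 x + 36 * D))) := by
        rw [← Real.exp_add, ← Real.exp_add]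
    _ ≤ Real.exp 0 := Real.exp_le_exp.2 hfin
    _ = 1 := Real.exp_zero

end Pool.Agent.Lib.MP_757a88_nt.PS
end
end
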