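import Mathlib
import Pool.Agent.Lib.MP_757a88_nt.Mg.G001

section

/-!
# Pseudoprimes, B3a: numbers with many prime factors
-/

set_option autoImplicit false

noncomputable section

namespace Pool.Agent.Lib.MP_757a88_nt.PS

open ArithmeticFunction

/-- the completely multiplicative function `(3 / 2) ^ Ω m / m`. -/
private def B3aF : ℕ →* ℝ where
  toFun m := (3 / 2 : ℝ) ^ cardFactors m / m
  map_one' := by simp
  map_mul' m n := by
    rcases Nat.eq_zero_or_pos m with rfl | hm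
    · simp
    rcases Nat.eq_zero_or_pos n with rfl | hn
    · simp
    rw [cardFactors_mul hm.ne' hn.ne', pow_add]
    push_cast
    rw [mul_div_mul_comm]

private lemma B3aF_apply (m : ℕ) : B3aF m = (3 / 2 : ℝ) ^ cardFactors m / m := rfl

private lemma B3aF_nonneg (m : ℕ) : 0 ≤ B3aF m := by
  rw [B3aF_apply]
  positivity

private lemma B3aF_prime {p : ℕ} (hp : p.Prime) : B3aF p = 3 / 2 / p := by
  rw [B3aF_apply, cardFactors_apply_prime hp, pow_one]

private lemma B3aF_prime_le {p : ℕ} (hp : p.Prime) : B3aF p ≤ 3 / 4 := by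
  rw [B3aF_prime hp]
  have h2 : (2 : ℝ) ≤ p := by exact_mod_cast hp.two_le
  rw [div_le_iff₀ (by linarith)]
  linarith

/-- PROOF. Completely multiplicative function `f m = (3 / 2) ^ Ω m / m`: the sum over the `m ≤ A` is at most `∏_{p ≤ A} (1 - 3 / (2 p))⁻¹` (Euler product over `Nat.factoredNumbers`/`smoothNumbers`,
`EulerProduct`), each factor is `≤ exp (6 / p)` (`- log (1 - t) ≤ t / (1 - t) ≤ 4 t` for `t = 3 / (2 p) ≤ 3 / 4`), `sum_inv_prms_le`. -/
theorem sum_Omega_le {A : ℕ} (hA : 2 ≤ A) :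
    ∑ m ∈ Finset.Icc 1 A, (3 / 2 : ℝ) ^ cardFactors m / m
      ≤ Real.exp 24 * Real.log A ^ (36 : ℕ) := by
  obtain ⟨-, hsum⟩ :=
    EulerProduct.summable_and_hasSum_factoredNumbers_prod_filter_prime_geometric (f := B3aF)
      (fun {p} hp => by
        rw [Real.norm_of_nonneg (B3aF_nonneg p)]
        exact lt_of_le_of_lt (B3aF_prime_le hp) (by norm_num)) (prms A)
  have hmem : ∀ m ∈ Finset.Icc 1 A, m ∈ Nat.factoredNumbers (prms A) := by
    intro m hm
    rw [Finset.mem_Icc] at hm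
    rw [Nat.mem_factoredNumbers]
    refine ⟨by omega, fun p hp => ?_⟩
    have hpp := Nat.prime_of_mem_primeFactorsList hp
    have hpd := Nat.dvd_of_mem_primeFactorsList hp
    exact mem_prms.mpr ⟨(Nat.le_of_dvd (by omega) hpd).trans hm.2, hpp⟩
  have h1 : ∑ m ∈ Finset.Icc 1 A, B3aF m ≤ ∏ p ∈ prms A with p.Prime, (1 - B3aF p)⁻¹ := by
    rw [← Finset.sum_subtype_of_mem (fun m => B3aF m) hmem]
    exact sum_le_hasSum _ (fun m _ => B3aF_nonneg m) hsum
  have h2 : ∏ p ∈ prms A with p.Prime, (1 - B3aF p)⁻¹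
      ≤ ∏ p ∈ prms A, Real.exp (6 * (1 / (p : ℝ))) := by
    rw [Finset.filter_true_of_mem (fun p hp => (mem_prms.mp hp).2)]
    apply Finset.prod_le_prod
    · intro p hp
      have := B3aF_prime_le (mem_prms.mp hp).2
      exact inv_nonneg.mpr (by linarith)
    · intro p hp
      have hp' := (mem_prms.mp hp).2
      have h3 := B3aF_prime_le hp'
      have h4 := B3aF_nonneg p
      have h5 : (1 - B3aF p)⁻¹ = B3aF p / (1 - B3aF p) + 1 := by
        have : (1 - B3aF p) ≠ 0 := by linarith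
        field_simp
        ring
      rw [h5]
      refine (Real.add_one_le_exp _).trans (Real.exp_le_exp.mpr ?_)
      have h6 : B3aF p / (1 - B3aF p) ≤ 4 * B3aF p := by
        rw [div_le_iff₀ (by linarith)]
        nlinarith
      refine h6.trans (le_of_eq ?_)
      rw [B3aF_prime hp']
      ring
  have h3 := sum_inv_prms_le A hA
  have hlog : 0 < Real.log A := Real.log_pos (by exact_mod_cast (by omega : 1 < A))
  calc ∑ m ∈ Finset.Icc 1 A, (3 / 2 : ℝ) ^ cardFactors m / m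
      = ∑ m ∈ Finset.Icc 1 A, B3aF m := rfl
    _ ≤ ∏ p ∈ prms A, Real.exp (6 * (1 / (p : ℝ))) := h1.trans h2
    _ = Real.exp (6 * ∑ p ∈ prms A, 1 / (p : ℝ)) := by
        rw [← Real.exp_sum, Finset.mul_sum]
    _ ≤ Real.exp (24 + (36 : ℕ) * Real.log (Real.log A)) := by
        apply Real.exp_le_exp.mpr
        push_cast
        linarith
    _ = Real.exp 24 * Real.log A ^ (36 : ℕ) := by
        rw [Real.exp_add, Real.exp_nat_mul, Real.exp_log hlog]

/-- PROOF. `1 ≤ (3 / 2) ^ Ω a * (2 / 3) ^ K * (A / a)` for `Ω a > K`, `a ≤ A`; `sum_Omega_le`. -/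
theorem card_Omega_le {A K : ℕ} (hA : 2 ≤ A) :
    (((Finset.Icc 1 A).filter fun a => K < cardFactors a).card : ℝ)
      ≤ A * (2 / 3 : ℝ) ^ K * (Real.exp 24 * Real.log A ^ (36 : ℕ)) := by
  have h1 : (((Finset.Icc 1 A).filter fun a => K < cardFactors a).card : ℝ)
      ≤ ∑ a ∈ (Finset.Icc 1 A).filter (fun a => K < cardFactors a),
        A * (2 / 3 : ℝ) ^ K * ((3 / 2 : ℝ) ^ cardFactors a / a) := by
    rw [← nsmul_one, ← Finset.sum_const]
    apply Finset.sum_le_sum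
    intro a ha
    rw [Finset.mem_filter, Finset.mem_Icc] at ha
    obtain ⟨⟨h1, h2⟩, h3⟩ := ha
    have ha0 : (0 : ℝ) < a := by exact_mod_cast h1
    have haA : (a : ℝ) ≤ A := by exact_mod_cast h2
    have h4 : (1 : ℝ) ≤ A / a := (one_le_div ha0).mpr haA
    have h5 : (1 : ℝ) ≤ (2 / 3 : ℝ) ^ K * (3 / 2 : ℝ) ^ cardFactors a := by
      have h6 : (3 / 2 : ℝ) ^ K ≤ (3 / 2 : ℝ) ^ cardFactors a :=
        pow_le_pow_right₀ (by norm_num) h3.le
      calc (1 : ℝ) = (2 / 3 : ℝ) ^ K * (3 / 2 : ℝ) ^ K := by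
            rw [← mul_pow]; norm_num
        _ ≤ _ := mul_le_mul_of_nonneg_left h6 (by positivity)
    calc (1 : ℝ) ≤ (A / a) * ((2 / 3 : ℝ) ^ K * (3 / 2 : ℝ) ^ cardFactors a) :=
          one_le_mul_of_one_le_of_one_le h4 h5
      _ = _ := by ring
  refine h1.trans ?_
  rw [← Finset.mul_sum]
  apply mul_le_mul_of_nonneg_left _ (by positivity)
  refine (Finset.sum_le_sum_of_subset_of_nonneg (Finset.filter_subset _ _) ?_).trans
    (sum_Omega_le hA)
  intro a _ _
  positivity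

end Pool.Agent.Lib.MP_757a88_nt.PS
end
end

section

/-!
# Pseudoprimes, B7: from a single scale to all scales
-/

set_option autoImplicit false

noncomputable section

namespace Pool.Agent.Lib.MP_757a88_nt.PS

open Filter

/-- PROOF. With `t = log x ≥ e`: `t / log t` (`Real.log_div_self_antitoneOn`) and `log (log t) ≥ 0` are monotone. -/
theorem LL_mono {x y : ℝ} (hx : Real.exp (Real.exp 1) ≤ x) (hxy : x ≤ y) : LL x ≤ LL y := by
  have hx0 : 0 < x := lt_of_lt_of_le (Real.exp_pos _) hx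
  have hs : Real.exp 1 ≤ Real.log x := by
    rw [Real.le_log_iff_exp_le hx0]; exact hx
  have ht : Real.log x ≤ Real.log y := Real.log_le_log hx0 hxy
  have hs0 : 0 < Real.log x := lt_of_lt_of_le (Real.exp_pos _) hs
  have ht0 : 0 < Real.log y := lt_of_lt_of_le hs0 ht
  have hls : 1 ≤ Real.log (Real.log x) := by
    rw [Real.le_log_iff_exp_le hs0]; exact hs
  have hlst : Real.log (Real.log x) ≤ Real.log (Real.log y) := Real.log_le_log hs0 ht
  have h1 : Real.log (Real.log y) / Real.log y ≤ Real.log (Real.log x) / Real.log x :=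
    Real.log_div_self_antitoneOn (Set.mem_setOf_eq ▸ hs) (Set.mem_setOf_eq ▸ (hs.trans ht)) ht
  have hls0 : 0 < Real.log (Real.log x) := by linarith
  have hlt0 : 0 < Real.log (Real.log y) := by linarith
  have h2 : Real.log x / Real.log (Real.log x) ≤ Real.log y / Real.log (Real.log y) := by
    rw [div_le_div_iff₀ hls0 hlt0]
    rw [div_le_div_iff₀ ht0 hs0] at h1
    linarith
  have h3 : Real.log (Real.log (Real.log x)) ≤ Real.log (Real.log (Real.log y)) :=
    Real.log_le_log hls0 hlst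
  have h4 : 0 ≤ Real.log (Real.log (Real.log x)) := Real.log_nonneg hls
  unfold LL l2 l3
  calc Real.log x * Real.log (Real.log (Real.log x)) / Real.log (Real.log x)
      = (Real.log x / Real.log (Real.log x)) * Real.log (Real.log (Real.log x)) := by ring
    _ ≤ (Real.log y / Real.log (Real.log y)) * Real.log (Real.log (Real.log y)) :=
        mul_le_mul h2 h3 h4 (div_nonneg ht0.le hlt0.le)
    _ = Real.log y * Real.log (Real.log (Real.log y)) / Real.log (Real.log y) := by ring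

private theorem B7_pow {κ' κ : ℝ} (hκ' : 1 < κ') (hκ : κ' < κ) :
    ∀ᶠ u : ℝ in atTop, (u + 1) ^ κ' ≤ u ^ κ := by
  have h := (tendsto_rpow_atTop (sub_pos.2 hκ)).eventually_ge_atTop ((2:ℝ) ^ κ')
  filter_upwards [h, eventually_ge_atTop (1:ℝ)] with u hu hu1
  have h0 : 0 < u := by linarith
  calc (u + 1) ^ κ' ≤ (2 * u) ^ κ' :=
        Real.rpow_le_rpow (by linarith) (by linarith) (by linarith)
    _ = 2 ^ κ' * u ^ κ' := Real.mul_rpow (by norm_num) h0.le
    _ ≤ u ^ (κ - κ') * u ^ κ' := mul_le_mul_of_nonneg_right hu (by positivity)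
    _ = u ^ κ := by rw [← Real.rpow_add h0]; congr 1; ring

private theorem B7_fin (y : ℝ) (a : ℕ) : {n : ℕ | (n : ℝ) ≤ y ∧ Nat.FermatPsp n a}.Finite := by
  apply (Set.finite_Iic ⌊y⌋₊).subset
  rintro n ⟨hn, -⟩
  exact Nat.le_floor hn

/-- Reduction to powers of two. PROOF. Let `j` be the least number with `x ≤ 2 ^ j` and `i` the least number with `a ≤ 2 ^ i`; so `2 ^ j < 2 x`, `2 ^ i < 2 a`, `i ≤ j` (as `a ≤ x ≤ 2 ^ j`). The pseudoprimes up to `x`
are also `≤ 2 ^ j`, and `2 ^ j / exp ((κ / 2 - ε / 2) LL (2 ^ j)) ≤ 2 x / exp ((κ / 2 - ε / 2) LL x) ≤ x / exp ((κ / 2 - ε) LL x)` for large `x ≥ a` (`LL_mono`, `(ε / 2) LL x ≥ log 2`; for this we need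
`κ / 2 - ε / 2 ≥ 0`, which is `hεκ`; `κ' / 2 - ε / 4 ≥ κ / 2 - ε / 2`). `l2 (2 ^ j) ≤ l2 x + 1`, `(l2 x + 1) ^ κ' ≤ l2 x ^ κ ≤ log a ≤ log (2 ^ i)` for large `x`. -/
theorem exists_dyadic {κ κ' ε : ℝ} (hκ' : 1 < κ') (hκ : κ' < κ) (hε : 0 < ε)
    (hεκ : ε ≤ κ) (h1 : κ - ε / 2 ≤ κ') :
    ∀ᶠ a : ℕ in atTop, ∀ x : ℝ, (a : ℝ) ≤ x → x ≤ Real.exp (Real.exp (Real.log a ^ (1 / κ))) →
      x / Real.exp ((κ / 2 - ε) * LL x)
        < (({n : ℕ | (n : ℝ) ≤ x ∧ Nat.FermatPsp n a}.ncard : ℕ) : ℝ) →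
      ∃ i j : ℕ, i ≤ j ∧ 2 ^ i < 2 * a ∧ a ≤ 2 ^ i ∧
        Real.exp (l2 ((2 : ℝ) ^ j) ^ κ') ≤ (2 : ℝ) ^ i ∧
        (2 : ℝ) ^ j / Real.exp ((κ' / 2 - ε / 4) * LL ((2 : ℝ) ^ j))
          < (({n : ℕ | (n : ℝ) ≤ (2 : ℝ) ^ j ∧ Nat.FermatPsp n a}.ncard : ℕ) : ℝ) := by
  have hk0 : 0 < κ := by linarith
  -- all the conditions on large `x`
  have e1 := eventually_sqrt_le_LL 1
  have e2 : ∀ᶠ x : ℝ in atTop, 2 * Real.log 2 / ε ≤ Real.sqrt (Real.log x) :=
    (Real.tendsto_sqrt_atTop.comp Real.tendsto_log_atTop).eventually_ge_atTop _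
  have e3 : ∀ᶠ x : ℝ in atTop, (l2 x + 1) ^ κ' ≤ l2 x ^ κ :=
    tendsto_l2.eventually (B7_pow hκ' hκ)
  have e4 : ∀ᶠ x : ℝ in atTop, Real.exp (Real.exp 1) ≤ x := eventually_ge_atTop _
  obtain ⟨X₀, hX₀⟩ := Filter.eventually_atTop.1 (e1.and (e2.and (e3.and e4)))
  have e5 : ∀ᶠ a : ℕ in atTop, X₀ ≤ (a : ℝ) := tendsto_natCast_atTop_atTop.eventually_ge_atTop _
  filter_upwards [e5, eventually_ge_atTop 2] with a ha ha2 x hax hx hlt
  obtain ⟨g1, g2, g3, g4⟩ := hX₀ x (ha.trans hax)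
  have ha0 : (0 : ℝ) < a := by
    have : (2 : ℝ) ≤ a := by exact_mod_cast ha2
    linarith
  have hx0 : 0 < x := lt_of_lt_of_le ha0 hax
  have hxe : Real.exp 1 ≤ Real.log x := by
    rw [Real.le_log_iff_exp_le hx0]; exact g4
  have he1 : 1 < Real.exp 1 := by
    have := Real.add_one_lt_exp (show (1 : ℝ) ≠ 0 by norm_num)
    linarith
  have hlx0 : 0 < Real.log x := by linarith
  have hlx1 : 1 ≤ Real.log (Real.log x) := by
    rw [Real.le_log_iff_exp_le hlx0]; exact hxe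
  have hxgt : 1 < x := by
    by_contra hcon
    have := Real.log_nonpos hx0.le (not_lt.1 hcon)
    linarith
  have hceil : 1 < ⌈x⌉₊ := by
    rw [Nat.lt_ceil]; simpa using hxgt
  refine ⟨Nat.clog 2 a, Nat.clog 2 ⌈x⌉₊, ?_, ?_, ?_, ?_, ?_⟩
  · apply Nat.clog_mono_right
    have : (a : ℝ) ≤ (⌈x⌉₊ : ℝ) := hax.trans (Nat.le_ceil x)
    exact_mod_cast this
  · have h2 := Nat.pow_pred_clog_lt_self (b := 2) (by norm_num) (x := a) (by omega)
    have h3 : 0 < Nat.clog 2 a := Nat.clog_pos (by norm_num) ha2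
    have h4 : 2 ^ Nat.clog 2 a = 2 * 2 ^ (Nat.clog 2 a).pred := by
      rw [← pow_succ']
      congr 1
      exact (Nat.succ_pred_eq_of_pos h3).symm
    rw [h4]
    omega
  · exact Nat.le_pow_clog (by norm_num) a
  all_goals
    have q1 : x ≤ (2 : ℝ) ^ (Nat.clog 2 ⌈x⌉₊) := by
      have h2 : ⌈x⌉₊ ≤ 2 ^ Nat.clog 2 ⌈x⌉₊ := Nat.le_pow_clog (by norm_num) _
      have h3 : ((⌈x⌉₊ : ℕ) : ℝ) ≤ (2 : ℝ) ^ (Nat.clog 2 ⌈x⌉₊) := by exact_mod_cast h2
      exact (Nat.le_ceil x).trans h3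
    have q2 : (2 : ℝ) ^ (Nat.clog 2 ⌈x⌉₊) < 2 * x := by
      have h2 := Nat.pow_pred_clog_lt_self (b := 2) (by norm_num) (x := ⌈x⌉₊) hceil
      have h3 : 0 < Nat.clog 2 ⌈x⌉₊ := Nat.clog_pos (by norm_num) hceil
      have h4 : (2 : ℝ) ^ Nat.clog 2 ⌈x⌉₊ = 2 * 2 ^ (Nat.clog 2 ⌈x⌉₊).pred := by
        rw [← pow_succ']
        congr 1
        exact (Nat.succ_pred_eq_of_pos h3).symm
      rw [Nat.lt_ceil] at h2
      push_cast at h2
      rw [h4]
      linarith
    set Y : ℝ := (2 : ℝ) ^ (Nat.clog 2 ⌈x⌉₊) with hY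
    have hY0 : 0 < Y := lt_of_lt_of_le hx0 q1
  · have hlY : Real.log Y ≤ 2 * Real.log x := by
      have h2 : Real.log Y ≤ Real.log (2 * x) := Real.log_le_log hY0 q2.le
      rw [Real.log_mul (by norm_num) hx0.ne'] at h2
      have h3 := Real.log_two_lt_d9
      linarith
    have hlY0 : 0 < Real.log Y := lt_of_lt_of_le hlx0 (Real.log_le_log hx0 q1)
    have hl2Y : l2 Y ≤ l2 x + 1 := by
      unfold l2
      have h2 : Real.log (Real.log Y) ≤ Real.log (2 * Real.log x) := Real.log_le_log hlY0 hlY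
      rw [Real.log_mul (by norm_num) hlx0.ne'] at h2
      have h3 := Real.log_two_lt_d9
      linarith
    have hl2Y0 : 0 ≤ l2 Y := by
      unfold l2
      have h2 : Real.log (Real.log x) ≤ Real.log (Real.log Y) :=
        Real.log_le_log hlx0 (Real.log_le_log hx0 q1)
      linarith
    have hl2x : l2 x ^ κ ≤ Real.log a := by
      have hla : 0 ≤ Real.log a := Real.log_nonneg (by
        have : (2 : ℝ) ≤ a := by exact_mod_cast ha2
        linarith)
      have h2 : Real.log x ≤ Real.exp (Real.log a ^ (1 / κ)) := by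
        rw [Real.log_le_iff_le_exp hx0]; exact hx
      have h3 : l2 x ≤ Real.log a ^ (1 / κ) := by
        unfold l2
        rw [Real.log_le_iff_le_exp hlx0]; exact h2
      calc l2 x ^ κ ≤ (Real.log a ^ (1 / κ)) ^ κ :=
            Real.rpow_le_rpow (by unfold l2; linarith) h3 hk0.le
        _ = Real.log a := by
            rw [← Real.rpow_mul hla, one_div, inv_mul_cancel₀ hk0.ne', Real.rpow_one]
    have h5 : l2 Y ^ κ' ≤ Real.log a :=
      (Real.rpow_le_rpow hl2Y0 hl2Y (by linarith)).trans (g3.trans hl2x)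
    calc Real.exp (l2 Y ^ κ') ≤ Real.exp (Real.log a) := Real.exp_le_exp.2 h5
      _ = a := Real.exp_log ha0
      _ ≤ (2 : ℝ) ^ Nat.clog 2 a := by
          have := Nat.le_pow_clog (b := 2) (by norm_num) a
          exact_mod_cast this
  · have hmono : LL x ≤ LL Y := LL_mono g4 q1
    have hLx : 2 * Real.log 2 / ε ≤ LL x := by
      have : 1 * Real.sqrt (Real.log x) ≤ LL x := g1
      linarith
    have hL2 : Real.log 2 ≤ ε / 2 * LL x := by
      rw [div_le_iff₀ hε] at hLx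
      linarith
    have hl2pos : 0 < Real.log 2 := Real.log_pos (by norm_num)
    have hLx0 : 0 ≤ LL x := by
      have : 0 ≤ 2 * Real.log 2 / ε := by positivity
      linarith
    have hexp : (κ / 2 - ε / 2) * LL x ≤ (κ' / 2 - ε / 4) * LL Y := by
      apply mul_le_mul (by linarith) hmono hLx0 (by linarith)
    have hcount : ({n : ℕ | (n : ℝ) ≤ x ∧ Nat.FermatPsp n a}.ncard : ℝ)
        ≤ ({n : ℕ | (n : ℝ) ≤ Y ∧ Nat.FermatPsp n a}.ncard : ℝ) := by
      have : {n : ℕ | (n : ℝ) ≤ x ∧ Nat.FermatPsp n a}.ncard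
          ≤ {n : ℕ | (n : ℝ) ≤ Y ∧ Nat.FermatPsp n a}.ncard := by
        apply Set.ncard_le_ncard _ (B7_fin Y a)
        rintro n ⟨hn, hn'⟩
        exact ⟨hn.trans q1, hn'⟩
      exact_mod_cast this
    refine lt_of_le_of_lt ?_ (lt_of_lt_of_le hlt hcount)
    rw [div_le_div_iff₀ (Real.exp_pos _) (Real.exp_pos _)]
    have h6 : Real.exp (Real.log 2 + (κ / 2 - ε) * LL x) ≤ Real.exp ((κ' / 2 - ε / 4) * LL Y) := by
      apply Real.exp_le_exp.2
      nlinarith
    rw [Real.exp_add, Real.exp_log (by norm_num)] at h6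
    have h7 : 0 < Real.exp ((κ / 2 - ε) * LL x) := Real.exp_pos _
    calc Y * Real.exp ((κ / 2 - ε) * LL x) ≤ (2 * x) * Real.exp ((κ / 2 - ε) * LL x) :=
          mul_le_mul_of_nonneg_right q2.le h7.le
      _ = x * (2 * Real.exp ((κ / 2 - ε) * LL x)) := by ring
      _ ≤ x * Real.exp ((κ' / 2 - ε / 4) * LL Y) := mul_le_mul_of_nonneg_left h6 hx0.le

end Pool.Agent.Lib.MP_757a88_nt.PS
end
end

section

/-!
# Pseudoprimes, B7c: counting over the dyadic scales
-/

set_option autoImplicit false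

noncomputable section

namespace Pool.Agent.Lib.MP_757a88_nt.PS

open Filter

private theorem B7c_sum_pow (A : ℕ) (hA : 1 ≤ A) (S : Finset ℕ) (hS : ∀ i ∈ S, 2 ^ i < 2 * A) :
    ∑ i ∈ S, (2 : ℝ) ^ i ≤ 4 * A := by
  have h1 : S ⊆ Finset.range (Nat.clog 2 (2 * A)) := by
    intro i hi
    rw [Finset.mem_range]
    have h2 : 2 * A ≤ 2 ^ Nat.clog 2 (2 * A) := Nat.le_pow_clog (by norm_num) _
    exact (Nat.pow_lt_pow_iff_right (by norm_num)).1 (lt_of_lt_of_le (hS i hi) h2)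
  have h2 : ∑ i ∈ S, (2 : ℝ) ^ i ≤ ∑ i ∈ Finset.range (Nat.clog 2 (2 * A)), (2 : ℝ) ^ i :=
    Finset.sum_le_sum_of_subset_of_nonneg h1 (fun i _ _ => by positivity)
  have h3 : ∑ i ∈ Finset.range (Nat.clog 2 (2 * A)), (2 : ℝ) ^ i
      = (2 : ℝ) ^ (Nat.clog 2 (2 * A)) - 1 := by
    rw [geom_sum_eq (by norm_num)]; norm_num
  have h4 : 2 ^ (Nat.clog 2 (2 * A)) < 4 * A := by
    have h5 := Nat.pow_pred_clog_lt_self (b := 2) (by norm_num) (x := 2 * A) (by omega)
    have h6 : 0 < Nat.clog 2 (2 * A) := Nat.clog_pos (by norm_num) (by omega)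
    have h7 : 2 ^ Nat.clog 2 (2 * A) = 2 * 2 ^ (Nat.clog 2 (2 * A)).pred := by
      rw [← pow_succ']
      congr 1
      exact (Nat.succ_pred_eq_of_pos h6).symm
    omega
  have h5 : (2 : ℝ) ^ (Nat.clog 2 (2 * A)) < 4 * A := by exact_mod_cast h4
  linarith

private theorem B7c_small (N : ℕ) : ∀ᶠ A : ℕ in atTop,
    Real.sqrt A ≤ A / (2 * Real.log A ^ N) := by
  have h1 : (fun x : ℝ => Real.log x ^ N) =o[atTop] fun x => x ^ ((1 : ℝ) / 2) := by
    have h := isLittleO_log_rpow_rpow_atTop (N : ℝ) (show (0 : ℝ) < 1 / 2 by norm_num)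
    refine h.congr' ?_ (EventuallyEq.refl _ _)
    exact Eventually.of_forall fun x => by simp
  have h2 := h1.bound (show (0 : ℝ) < 1 / 2 by norm_num)
  have h3 := tendsto_natCast_atTop_atTop (R := ℝ) |>.eventually h2
  filter_upwards [h3, eventually_ge_atTop 3] with A hA hA3
  have hA0 : (3 : ℝ) ≤ A := by exact_mod_cast hA3
  have hA1 : (0 : ℝ) < A := by linarith
  have hlog : 0 < Real.log A := Real.log_pos (by linarith)
  rw [Real.norm_of_nonneg (by positivity), Real.norm_of_nonneg (by positivity),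
    ← Real.sqrt_eq_rpow] at hA
  rw [le_div_iff₀ (by positivity)]
  have hs : Real.sqrt A * Real.sqrt A = A := Real.mul_self_sqrt hA1.le
  have hs0 : 0 ≤ Real.sqrt A := Real.sqrt_nonneg _
  nlinarith

/-- Counting. PROOF. The `a ∈ G` with `a ≤ sqrt A` are at most `sqrt A`. The others have `i` with `sqrt A < 2 ^ i < 2 A`, `j ≥ i`: for large `A` all these `i ≥ a₀`, so they are at most
`∑_i 2 ^ i ∑_{j ≥ i} (j log 2) ^ (-(N + 2)) ≤ ∑_i 2 ^ i c i ^ (-(N + 1))` with a constant `c`, where `∑_i 2 ^ i ≤ 4 A` and `i ≥ log A / 2`: at most `c' A (log A) ^ (-(N + 1)) ≤ A / (2 (log A) ^ N)`. -/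
theorem count_dyadic (N a₀ : ℕ) (E : ℕ → ℕ → ℕ → Prop)
    (hE : ∀ i j : ℕ, a₀ ≤ i → i ≤ j → ∀ G : Finset ℕ, (∀ a ∈ G, 2 ≤ a ∧ a ≤ 2 ^ i ∧ E i j a) →
      (G.card : ℝ) ≤ (2 : ℝ) ^ i / Real.log ((2 : ℝ) ^ j) ^ (N + 2)) :
    ∀ᶠ A : ℕ in atTop, ∀ G : Finset ℕ,
      (∀ a ∈ G, 2 ≤ a ∧ a ≤ A ∧ (Real.sqrt A < a → ∃ i j : ℕ, i ≤ j ∧ 2 ^ i < 2 * a ∧ a ≤ 2 ^ i ∧
        E i j a)) → (G.card : ℝ) ≤ A / Real.log A ^ N := by
  classical
  have hl2 : 0 < Real.log 2 := Real.log_pos (by norm_num)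
  have c1 : ∀ᶠ A : ℕ in atTop, (2 : ℝ) ^ a₀ ≤ Real.sqrt A :=
    (Real.tendsto_sqrt_atTop.comp tendsto_natCast_atTop_atTop).eventually_ge_atTop _
  have c2 : ∀ᶠ A : ℕ in atTop, 16 * 2 ^ (N + 1) / Real.log 2 ≤ Real.log A :=
    (Real.tendsto_log_atTop.comp tendsto_natCast_atTop_atTop).eventually_ge_atTop _
  filter_upwards [c1, c2, B7c_small N, eventually_ge_atTop 3] with A hA1 hA2 hA3 hA4 G hG
  have hA0 : (3 : ℝ) ≤ A := by exact_mod_cast hA4
  have hA00 : (0 : ℝ) < A := by linarith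
  have hlog : 0 < Real.log A := Real.log_pos (by linarith)
  set G1 := G.filter (fun a : ℕ => (a : ℝ) ≤ Real.sqrt A) with hG1
  set G2 := G.filter (fun a : ℕ => ¬ (a : ℝ) ≤ Real.sqrt A) with hG2
  have hsplit : G.card = G1.card + G2.card :=
    (Finset.card_filter_add_card_filter_not (s := G) (fun a : ℕ => (a : ℝ) ≤ Real.sqrt A)).symm
  have hG1c : (G1.card : ℝ) ≤ Real.sqrt A := by
    have h1 : G1 ⊆ Finset.Icc 1 ⌊Real.sqrt A⌋₊ := by
      intro a ha
      rw [hG1, Finset.mem_filter] at ha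
      have := (hG a ha.1).1
      rw [Finset.mem_Icc]
      exact ⟨by omega, Nat.le_floor ha.2⟩
    have h2 := Finset.card_le_card h1
    rw [Nat.card_Icc] at h2
    have h3 : (G1.card : ℝ) ≤ (⌊Real.sqrt A⌋₊ : ℝ) := by
      have : G1.card ≤ ⌊Real.sqrt A⌋₊ := by omega
      exact_mod_cast this
    exact h3.trans (Nat.floor_le (Real.sqrt_nonneg _))
  -- choose the pairs
  have hch : ∀ a : ℕ, ∃ p : ℕ × ℕ, a ∈ G2 → (p.1 ≤ p.2 ∧ 2 ^ p.1 < 2 * a ∧ a ≤ 2 ^ p.1 ∧
      E p.1 p.2 a) := by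
    intro a
    by_cases ha : a ∈ G2
    · have ha' := ha
      rw [hG2, Finset.mem_filter] at ha'
      obtain ⟨i, j, h⟩ := (hG a ha'.1).2.2 (not_le.1 ha'.2)
      exact ⟨(i, j), fun _ => h⟩
    · exact ⟨(0, 0), fun h => absurd h ha⟩
  choose f hf using hch
  set J := G2.sup (fun a => (f a).2) with hJ
  set S := G2.image (fun a => (f a).1) with hS
  have hSi : ∀ i ∈ S, 2 ^ i < 2 * A ∧ Real.sqrt A < (2 : ℝ) ^ i := by
    intro i hi
    rw [hS, Finset.mem_image] at hi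
    obtain ⟨a, ha, rfl⟩ := hi
    obtain ⟨-, h2, h3, -⟩ := hf a ha
    rw [hG2, Finset.mem_filter] at ha
    have h4 := (hG a ha.1).2.1
    refine ⟨by omega, lt_of_lt_of_le (not_le.1 ha.2) ?_⟩
    exact_mod_cast h3
  have hcard : G2.card = ∑ i ∈ S, ∑ j ∈ Finset.range (J + 1),
      (G2.filter (fun a => f a = (i, j))).card := by
    rw [← Finset.sum_product' S (Finset.range (J + 1))
      (fun i j => (G2.filter (fun a => f a = (i, j))).card)]
    rw [Finset.card_eq_sum_card_fiberwise (f := f) (t := S ×ˢ Finset.range (J + 1))]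
    intro a ha
    rw [Finset.mem_coe] at ha
    rw [Finset.mem_coe, Finset.mem_product, Finset.mem_range]
    refine ⟨Finset.mem_image_of_mem (fun a => (f a).1) ha, ?_⟩
    have : (f a).2 ≤ J := Finset.le_sup (f := fun a => (f a).2) ha
    omega
  -- one scale
  have hone : ∀ i ∈ S, ((∑ j ∈ Finset.range (J + 1),
      (G2.filter (fun a => f a = (i, j))).card : ℕ) : ℝ)
      ≤ (2 : ℝ) ^ i * (2 ^ (N + 2) / (Real.log 2 * Real.log A ^ (N + 1))) := by
    intro i hi
    obtain ⟨hi1, hi2⟩ := hSi i hi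
    have hia : a₀ ≤ i := by
      have : (2 : ℝ) ^ a₀ < 2 ^ i := lt_of_le_of_lt hA1 hi2
      exact ((pow_lt_pow_iff_right₀ (by norm_num)).1 this).le
    have hilog : Real.log A / 2 ≤ i * Real.log 2 := by
      have h1 : Real.log (Real.sqrt A) ≤ Real.log ((2 : ℝ) ^ i) :=
        Real.log_le_log (Real.sqrt_pos.2 hA00) hi2.le
      rw [Real.log_sqrt hA00.le, Real.log_pow] at h1
      exact h1
    have hi0 : 0 < i := by
      rcases Nat.eq_zero_or_pos i with h | h
      · subst h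
        simp at hilog
        linarith
      · exact h
    have hi0' : (0 : ℝ) < i := by exact_mod_cast hi0
    have hterm : ∀ j ∈ Finset.range (J + 1),
        ((G2.filter (fun a => f a = (i, j))).card : ℝ)
          ≤ if i ≤ j then (2 : ℝ) ^ i / Real.log 2 ^ (N + 2) / (i : ℝ) ^ N * ((j : ℝ) ^ 2)⁻¹ else 0 := by
      intro j _
      split_ifs with hij
      · have h1 := hE i j hia hij (G2.filter (fun a => f a = (i, j))) (by
          intro a ha
          rw [Finset.mem_filter] at ha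
          obtain ⟨-, -, h3, h4⟩ := hf a ha.1
          rw [ha.2] at h3 h4
          have h5 := ha.1
          rw [hG2, Finset.mem_filter] at h5
          exact ⟨(hG a h5.1).1, h3, h4⟩)
        refine h1.trans ?_
        rw [Real.log_pow, mul_pow]
        have hij' : (i : ℝ) ≤ j := by exact_mod_cast hij
        have hj0 : (0 : ℝ) < j := lt_of_lt_of_le hi0' hij'
        have h2 : (i : ℝ) ^ N * (j : ℝ) ^ 2 ≤ (j : ℝ) ^ (N + 2) := by
          rw [pow_add]
          exact mul_le_mul_of_nonneg_right (pow_le_pow_left₀ hi0'.le hij' N) (by positivity)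
        calc (2 : ℝ) ^ i / ((j : ℝ) ^ (N + 2) * Real.log 2 ^ (N + 2))
            ≤ (2 : ℝ) ^ i / (((i : ℝ) ^ N * (j : ℝ) ^ 2) * Real.log 2 ^ (N + 2)) := by
              apply div_le_div_of_nonneg_left (by positivity) (by positivity)
              exact mul_le_mul_of_nonneg_right h2 (by positivity)
          _ = _ := by
              field_simp
      · have : G2.filter (fun a => f a = (i, j)) = ∅ := by
          rw [Finset.filter_eq_empty_iff]
          intro a ha hfa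
          have := (hf a ha).1
          rw [hfa] at this
          exact hij this
        rw [this]
        simp
    have hsum : ∑ j ∈ Finset.range (J + 1),
        (if i ≤ j then (2 : ℝ) ^ i / Real.log 2 ^ (N + 2) / (i : ℝ) ^ N * ((j : ℝ) ^ 2)⁻¹ else 0)
          ≤ (2 : ℝ) ^ i / Real.log 2 ^ (N + 2) / (i : ℝ) ^ N * (2 / i) := by
      rw [← Finset.sum_filter, ← Finset.mul_sum]
      apply mul_le_mul_of_nonneg_left _ (by positivity)
      have h1 : (Finset.range (J + 1)).filter (fun j => i ≤ j) ⊆ Finset.Ioo (i - 1) (J + 1) := by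
        intro j hj
        rw [Finset.mem_filter, Finset.mem_range] at hj
        rw [Finset.mem_Ioo]
        omega
      have h2 : ∑ j ∈ (Finset.range (J + 1)).filter (fun j => i ≤ j), ((j : ℝ) ^ 2)⁻¹
          ≤ ∑ j ∈ Finset.Ioo (i - 1) (J + 1), ((j : ℝ) ^ 2)⁻¹ :=
        Finset.sum_le_sum_of_subset_of_nonneg h1 (fun j _ _ => by positivity)
      have h3 := sum_Ioo_inv_sq_le (α := ℝ) (i - 1) (J + 1)
      have h4 : (((i - 1 : ℕ) : ℝ) + 1) = i := by
        have : i - 1 + 1 = i := by omega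
        exact_mod_cast this
      rw [h4] at h3
      exact h2.trans h3
    push_cast
    refine (Finset.sum_le_sum hterm).trans (hsum.trans ?_)
    have h5 : (Real.log A / 2) ^ (N + 1) ≤ (i * Real.log 2) ^ (N + 1) :=
      pow_le_pow_left₀ (by positivity) hilog _
    have h6 : (2 : ℝ) ^ i / Real.log 2 ^ (N + 2) / (i : ℝ) ^ N * (2 / i)
        = (2 : ℝ) ^ i * (2 / Real.log 2 / (i * Real.log 2) ^ (N + 1)) := by
      rw [mul_pow]
      field_simp
      ring
    rw [h6]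
    apply mul_le_mul_of_nonneg_left _ (by positivity)
    calc 2 / Real.log 2 / (i * Real.log 2) ^ (N + 1)
        ≤ 2 / Real.log 2 / (Real.log A / 2) ^ (N + 1) :=
          div_le_div_of_nonneg_left (by positivity) (by positivity) h5
      _ = 2 ^ (N + 2) / (Real.log 2 * Real.log A ^ (N + 1)) := by
          rw [div_pow]
          field_simp
          ring
  have hG2c : (G2.card : ℝ) ≤ A / (2 * Real.log A ^ N) := by
    rw [hcard]
    rw [Nat.cast_sum]
    refine (Finset.sum_le_sum hone).trans ?_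
    rw [← Finset.sum_mul]
    have h1 := B7c_sum_pow A (by omega) S (fun i hi => (hSi i hi).1)
    refine (mul_le_mul_of_nonneg_right h1 (by positivity)).trans ?_
    have h2 : 4 * (A : ℝ) * (2 ^ (N + 2) / (Real.log 2 * Real.log A ^ (N + 1)))
        = (16 * 2 ^ (N + 1) / Real.log 2) / Real.log A * (A / (2 * Real.log A ^ N)) := by
      field_simp
      ring
    rw [h2]
    have h3 : (16 * 2 ^ (N + 1) / Real.log 2) / Real.log A ≤ 1 := by
      rw [div_le_one hlog]; exact hA2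
    calc (16 * 2 ^ (N + 1) / Real.log 2) / Real.log A * (A / (2 * Real.log A ^ N))
        ≤ 1 * (A / (2 * Real.log A ^ N)) := mul_le_mul_of_nonneg_right h3 (by positivity)
      _ = _ := one_mul _
  rw [hsplit]
  push_cast
  have h7 : (A : ℝ) / Real.log A ^ N = A / (2 * Real.log A ^ N) + A / (2 * Real.log A ^ N) := by
    field_simp
    ring
  rw [h7]
  linarith

end Pool.Agent.Lib.MP_757a88_nt.PS
end
end
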