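import Mathlib

section

/-!
# Pseudoprimes, B1: counting factorizations
-/

set_option autoImplicit false

noncomputable section

namespace Pool.Agent.Lib.MP_757a88_nt.PS

open ArithmeticFunction

/-- The number of ordered factorizations of `n` in `r` factors is at most `r ^ Ω n`. PROOF. Induction on `n` (`Nat.recOnMul` / strong induction): for `n = 1` only `f = 1`.
For `n = q n'` with a prime `q`: for `f` with product `n` some `f i` is divisible by `q`; choose `i = i f` and divide: `f ↦ (i f, f with f i replaced by f i / q)` is injective and the second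
component has product `n'`; `Ω n = Ω n' + 1`. -/
theorem card_fact_le {r n : ℕ} (hn : n ≠ 0) (T : Finset (Fin r → ℕ)) (hT : ∀ f ∈ T, ∏ i, f i = n) :
    T.card ≤ r ^ cardFactors n := by
  classical
  induction n using Nat.strong_induction_on generalizing T with
  | _ n ih =>
    rcases T.eq_empty_or_nonempty with rfl | hne
    · simp
    by_cases h1 : n = 1
    · subst h1
      have hsub : T ⊆ {fun _ => 1} := by
        intro f hf
        rw [Finset.mem_singleton]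
        funext i
        have h2 : f i ∣ ∏ i, f i := Finset.dvd_prod_of_mem f (Finset.mem_univ i)
        rw [hT f hf] at h2
        exact Nat.dvd_one.mp h2
      calc T.card ≤ ({fun _ => 1} : Finset (Fin r → ℕ)).card := Finset.card_le_card hsub
        _ = 1 := Finset.card_singleton _
        _ ≤ r ^ cardFactors 1 := by simp
    · have hq : n.minFac.Prime := Nat.minFac_prime h1
      set q := n.minFac with hqdef
      obtain ⟨m, hm⟩ : q ∣ n := Nat.minFac_dvd n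
      have hm0 : m ≠ 0 := by
        rintro rfl
        exact hn (by rw [hm, mul_zero])
      have hmn : m < n := by
        rw [hm]
        have := hq.two_le
        have := Nat.pos_of_ne_zero hm0
        nlinarith
      have hex : ∀ f ∈ T, ∃ i, q ∣ f i := by
        intro f hf
        have h2 : q ∣ ∏ i, f i := by rw [hT f hf, hm]; exact Dvd.intro m rfl
        obtain ⟨i, _, hi⟩ := (Prime.dvd_finsetProd_iff hq.prime f).mp h2
        exact ⟨i, hi⟩
      have : Nonempty (Fin r) := by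
        obtain ⟨f, hf⟩ := hne
        obtain ⟨i, _⟩ := hex f hf
        exact ⟨i⟩
      choose! ι hι using hex
      have hupd : ∀ f ∈ T, (∏ i, Function.update f (ι f) (f (ι f) / q) i) = m := by
        intro f hf
        have h2 := hT f hf
        rw [← Finset.mul_prod_erase Finset.univ f (Finset.mem_univ (ι f))] at h2
        rw [← Finset.mul_prod_erase Finset.univ _ (Finset.mem_univ (ι f)), Function.update_self]
        have h3 : ∏ x ∈ Finset.univ.erase (ι f), Function.update f (ι f) (f (ι f) / q) x =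
            ∏ x ∈ Finset.univ.erase (ι f), f x := by
          refine Finset.prod_congr rfl fun x hx => ?_
          rw [Function.update_of_ne (Finset.ne_of_mem_erase hx)]
        rw [h3]
        obtain ⟨c, hc⟩ := hι f hf
        rw [hc, hm] at h2
        rw [hc, Nat.mul_div_cancel_left _ hq.pos]
        have h4 : q * (c * ∏ x ∈ Finset.univ.erase (ι f), f x) = q * m := by
          rw [← h2]; ring
        exact Nat.eq_of_mul_eq_mul_left hq.pos h4
      set T' := T.image fun f => Function.update f (ι f) (f (ι f) / q) with hT'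
      have hT'm : ∀ f ∈ T', ∏ i, f i = m := by
        intro f hf
        obtain ⟨g, hg, rfl⟩ := Finset.mem_image.mp hf
        exact hupd g hg
      have hinj : Set.InjOn (fun f => (ι f, Function.update f (ι f) (f (ι f) / q))) (T : Set (Fin r → ℕ)) := by
        intro f hf g hg hfg
        simp only [Prod.mk.injEq] at hfg
        obtain ⟨h2, h3⟩ := hfg
        funext j
        by_cases hj : j = ι f
        · subst hj
          have h4 := congrFun h3 (ι f)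
          rw [Function.update_self] at h4
          nth_rewrite 2 [h2] at h4
          rw [h2, Function.update_self] at h4
          obtain ⟨c, hc⟩ := hι f hf
          obtain ⟨d, hd⟩ := hι g hg
          rw [← h2] at hd h4
          rw [hc, hd, Nat.mul_div_cancel_left _ hq.pos, Nat.mul_div_cancel_left _ hq.pos] at h4
          rw [hc, hd, h4]
        · have h4 := congrFun h3 j
          rw [Function.update_of_ne hj, Function.update_of_ne (by rwa [← h2])] at h4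
          exact h4
      have hcard : T.card ≤ ((Finset.univ : Finset (Fin r)) ×ˢ T').card := by
        refine Finset.card_le_card_of_injOn _ ?_ hinj
        intro f hf
        rw [Finset.mem_coe, Finset.mem_product]
        exact ⟨Finset.mem_univ _, Finset.mem_image_of_mem _ hf⟩
      rw [Finset.card_product, Finset.card_univ, Fintype.card_fin] at hcard
      have h5 := ih m hmn hm0 T' hT'm
      have h6 : cardFactors n = cardFactors m + 1 := by
        rw [hm, cardFactors_mul hq.ne_zero hm0, cardFactors_apply_prime hq, add_comm]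
      rw [h6, pow_succ, mul_comm]
      exact hcard.trans (Nat.mul_le_mul_left r h5)

/-- PROOF. A residue class modulo `p` has at most `Z / p + 1` elements in `Icc 1 Z`, and `u ^ e = 1` has at most `e` solutions in the field `ZMod p` (`p` prime, `e ≥ 1`).
So at most `e (Z / p + 1) ≤ 2 e Z / p` as `p ≤ Z`. -/
theorem card_root_le {p e Z : ℕ} (hp : p.Prime) (he : 1 ≤ e) (hpZ : p ≤ Z) (s : Finset ℕ)
    (hs : ∀ n ∈ s, 1 ≤ n ∧ n ≤ Z ∧ (n : ZMod p) ^ e = 1) : (s.card : ℝ) ≤ 2 * e * Z / p := by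
  classical
  have : Fact p.Prime := ⟨hp⟩
  set R : Finset (ZMod p) := (Polynomial.nthRoots e (1 : ZMod p)).toFinset with hR
  have hRc : R.card ≤ e := (Multiset.toFinset_card_le _).trans (Polynomial.card_nthRoots e 1)
  have hinj : Set.InjOn (fun n : ℕ => ((n : ZMod p), n / p)) (s : Set ℕ) := by
    intro a _ b _ hab
    simp only [Prod.mk.injEq] at hab
    have h1 : a % p = b % p := (ZMod.natCast_eq_natCast_iff' a b p).mp hab.1
    rw [← Nat.div_add_mod a p, ← Nat.div_add_mod b p, hab.2, h1]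
  have hcard : s.card ≤ (R ×ˢ Finset.range (Z / p + 1)).card := by
    refine Finset.card_le_card_of_injOn _ ?_ hinj
    intro n hn
    obtain ⟨_, h2, h3⟩ := hs n hn
    rw [Finset.mem_coe, Finset.mem_product]
    refine ⟨?_, ?_⟩
    · rw [hR, Multiset.mem_toFinset, Polynomial.mem_nthRoots (by omega)]
      exact h3
    · rw [Finset.mem_range]
      exact Nat.lt_succ_of_le (Nat.div_le_div_right h2)
  rw [Finset.card_product, Finset.card_range] at hcard
  have h1 : s.card ≤ e * (Z / p + 1) := hcard.trans (Nat.mul_le_mul_right _ hRc)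
  have hp0 : (0 : ℝ) < p := by exact_mod_cast hp.pos
  have h2 : ((Z / p : ℕ) : ℝ) ≤ (Z : ℝ) / p := Nat.cast_div_le
  have h3 : (1 : ℝ) ≤ (Z : ℝ) / p := by
    rw [le_div_iff₀ hp0, one_mul]
    exact_mod_cast hpZ
  have h4 : (s.card : ℝ) ≤ e * (((Z / p : ℕ) : ℝ) + 1) := by exact_mod_cast h1
  have he0 : (0 : ℝ) ≤ e := Nat.cast_nonneg e
  calc (s.card : ℝ) ≤ e * (((Z / p : ℕ) : ℝ) + 1) := h4
    _ ≤ e * ((Z : ℝ) / p + (Z : ℝ) / p) := mul_le_mul_of_nonneg_left (by linarith) he0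
    _ = 2 * e * Z / p := by ring

private theorem B1_cardFactors_prod {ι : Type*} (s : Finset ι) (f : ι → ℕ) (hf : ∀ i ∈ s, f i ≠ 0) :
    cardFactors (∏ i ∈ s, f i) = ∑ i ∈ s, cardFactors (f i) := by
  classical
  induction s using Finset.induction_on with
  | empty => simp
  | insert a s ha ih =>
    rw [Finset.prod_insert ha, Finset.sum_insert ha, cardFactors_mul (hf a (Finset.mem_insert_self a s))
      (Finset.prod_ne_zero_iff.mpr fun i hi => hf i (Finset.mem_insert_of_mem hi)),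
      ih fun i hi => hf i (Finset.mem_insert_of_mem hi)]

/-- PROOF. The `r`-tuples of elements of `G` (`Fintype.piFinset`, `G.card ^ r` of them) are mapped by the product into the set of the `n ∈ Icc 1 (A ^ r)` with `n ^ e = 1` in `ZMod p`
(`card_root_le` with `Z = A ^ r`), and the fibre over `n` has at most `r ^ Ω n ≤ r ^ (r K)` elements (`card_fact_le`; `Ω n = ∑ Ω (f i) ≤ r K` if the fibre is not empty, `r ≥ 1`). -/
theorem card_pow_le {p e r K A : ℕ} (hp : p.Prime) (he : 1 ≤ e) (hr : 1 ≤ r) (hpA : p ≤ A ^ r)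
    (G : Finset ℕ) (hG : ∀ a ∈ G, 1 ≤ a ∧ a ≤ A ∧ cardFactors a ≤ K ∧ (a : ZMod p) ^ e = 1) :
    (G.card : ℝ) ^ r ≤ 2 * e * (A : ℝ) ^ r / p * (r : ℝ) ^ (r * K) := by
  classical
  set P : Finset (Fin r → ℕ) := Fintype.piFinset fun _ : Fin r => G with hP
  have hPc : P.card = G.card ^ r := by
    rw [hP, Fintype.card_piFinset]
    simp
  have hmem : ∀ f ∈ P, ∀ i, f i ∈ G := fun f hf => Fintype.mem_piFinset.mp hf
  have hfib : ∀ n ∈ P.image (fun f => ∏ i, f i), (P.filter fun f => ∏ i, f i = n).card ≤ r ^ (r * K) := by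
    intro n hn
    obtain ⟨f, hf, rfl⟩ := Finset.mem_image.mp hn
    have h0 : ∀ i, f i ≠ 0 := fun i => by
      have := (hG _ (hmem f hf i)).1
      omega
    have h1 : ∏ i, f i ≠ 0 := Finset.prod_ne_zero_iff.mpr fun i _ => h0 i
    have h2 := card_fact_le h1 (P.filter fun g => ∏ i, g i = ∏ i, f i)
      fun g hg => (Finset.mem_filter.mp hg).2
    refine h2.trans (Nat.pow_le_pow_right hr ?_)
    rw [B1_cardFactors_prod _ _ fun i _ => h0 i]
    calc ∑ i, cardFactors (f i) ≤ ∑ _i : Fin r, K :=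
          Finset.sum_le_sum fun i _ => (hG _ (hmem f hf i)).2.2.1
      _ = r * K := by simp
  have h3 := Finset.card_le_mul_card_image P (r ^ (r * K)) hfib
  have h4 : ((P.image fun f => ∏ i, f i).card : ℝ) ≤ 2 * e * ((A ^ r : ℕ) : ℝ) / p := by
    refine card_root_le hp he hpA _ ?_
    intro n hn
    obtain ⟨f, hf, rfl⟩ := Finset.mem_image.mp hn
    refine ⟨?_, ?_, ?_⟩
    · exact Nat.succ_le_of_lt (Finset.prod_pos fun i _ => (hG _ (hmem f hf i)).1)
    · calc ∏ i, f i ≤ ∏ _i : Fin r, A := Finset.prod_le_prod' fun i _ => (hG _ (hmem f hf i)).2.1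
        _ = A ^ r := by simp
    · rw [Nat.cast_prod, ← Finset.prod_pow]
      exact Finset.prod_eq_one fun i _ => (hG _ (hmem f hf i)).2.2.2
  have h5 : (G.card : ℝ) ^ r ≤ (r : ℝ) ^ (r * K) * ((P.image fun f => ∏ i, f i).card : ℝ) := by
    rw [hPc] at h3
    exact_mod_cast h3
  calc (G.card : ℝ) ^ r ≤ (r : ℝ) ^ (r * K) * ((P.image fun f => ∏ i, f i).card : ℝ) := h5
    _ ≤ (r : ℝ) ^ (r * K) * (2 * e * ((A ^ r : ℕ) : ℝ) / p) :=
        mul_le_mul_of_nonneg_left h4 (by positivity)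
    _ = 2 * e * (A : ℝ) ^ r / p * (r : ℝ) ^ (r * K) := by push_cast; ring

end Pool.Agent.Lib.MP_757a88_nt.PS
end
end

section

/-!
# Pseudoprimes, B2: the number of bases of small order modulo `p`
-/

set_option autoImplicit false

noncomputable section

namespace Pool.Agent.Lib.MP_757a88_nt.PS

open ArithmeticFunction

/-- PROOF. `card_pow_le` with `r = 1`: `G.card ≤ 2 e A / p ≤ 2 A p ^ (th - 1)`. (`K` may be taken as a bound for all `Ω a`; or directly `card_root_le` with `Z = A`.) -/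
theorem card_base_small {p e A : ℕ} (hp : p.Prime) (he : 1 ≤ e) {th : ℝ} (heth : (e : ℝ) ≤ (p : ℝ) ^ th)
    (hpA : p ≤ A) (G : Finset ℕ) (hG : ∀ a ∈ G, 1 ≤ a ∧ a ≤ A ∧ (a : ZMod p) ^ e = 1) :
    (G.card : ℝ) ≤ 2 * A * (p : ℝ) ^ (th - 1) := by
  have hp0 : (0 : ℝ) < p := by exact_mod_cast hp.pos
  have h1 := card_root_le hp he hpA G hG
  have h2 : (e : ℝ) / p ≤ (p : ℝ) ^ (th - 1) := by
    rw [Real.rpow_sub_one hp0.ne']
    exact div_le_div_of_nonneg_right heth hp0.le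
  calc (G.card : ℝ) ≤ 2 * e * A / p := h1
    _ = 2 * A * ((e : ℝ) / p) := by ring
    _ ≤ 2 * A * (p : ℝ) ^ (th - 1) := mul_le_mul_of_nonneg_left h2 (by positivity)

/-- PROOF. Let `r` be the least number with `p ≤ A ^ r`; `r ≤ ρ`, `2 ≤ r` (as `A < p`), `A ^ (r - 1) < p`. `card_pow_le`:
`G.card ≤ (2 p ^ (th - 1)) ^ (1 / r) A r ^ K ≤ 2 A p ^ (-(1 - th) / r) ρ ^ K`, and `p ^ (-(1 - th) / r) ≤ A ^ (-(1 - th) (r - 1) / r) ≤ A ^ (-(1 - th) / 2)`. -/
theorem card_base_large {p e A K ρ : ℕ} (hp : p.Prime) (he : 1 ≤ e) (hA : 2 ≤ A) {th : ℝ}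
    (hth : th ≤ 1) (heth : (e : ℝ) ≤ (p : ℝ) ^ th) (hAp : A < p) (hρ : p ≤ A ^ ρ) (G : Finset ℕ)
    (hG : ∀ a ∈ G, 1 ≤ a ∧ a ≤ A ∧ cardFactors a ≤ K ∧ (a : ZMod p) ^ e = 1) :
    (G.card : ℝ) ≤ 2 * (A : ℝ) ^ (1 - (1 - th) / 2) * (ρ : ℝ) ^ K := by
  classical
  have hp0 : (0 : ℝ) < p := by exact_mod_cast hp.pos
  have hA0 : (0 : ℝ) < A := by exact_mod_cast (by omega : 0 < A)
  have hA1 : (1 : ℝ) ≤ A := by exact_mod_cast (by omega : 1 ≤ A)
  have hex : ∃ r, p ≤ A ^ r := ⟨ρ, hρ⟩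
  set r := Nat.find hex with hr
  have hr1 : p ≤ A ^ r := Nat.find_spec hex
  have hrρ : r ≤ ρ := Nat.find_min' hex hρ
  have hr2 : 2 ≤ r := by
    by_contra h
    have h3 : A ^ r ≤ A ^ 1 := Nat.pow_le_pow_right (by omega) (by omega)
    rw [pow_one] at h3
    omega
  have hr3 : A ^ (r - 1) < p := by
    have := Nat.find_min hex (m := r - 1) (by omega)
    exact not_le.mp this
  have h1 := card_pow_le hp he (by omega : 1 ≤ r) hr1 G hG
  have h2 : (e : ℝ) / p ≤ (p : ℝ) ^ (th - 1) := by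
    rw [Real.rpow_sub_one hp0.ne']
    exact div_le_div_of_nonneg_right heth hp0.le
  have h3 : (p : ℝ) ^ (th - 1) ≤ ((A : ℝ) ^ (r - 1)) ^ (th - 1) := by
    refine Real.rpow_le_rpow_of_nonpos (by positivity) ?_ (by linarith)
    exact_mod_cast hr3.le
  have h4 : ((A : ℝ) ^ (r - 1)) ^ (th - 1) ≤ (A : ℝ) ^ (-(r * (1 - th) / 2)) := by
    rw [← Real.rpow_natCast, ← Real.rpow_mul hA0.le]
    refine Real.rpow_le_rpow_of_exponent_le hA1 ?_
    rw [Nat.cast_sub (by omega), Nat.cast_one]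
    have h5 : (2 : ℝ) ≤ r := by exact_mod_cast hr2
    nlinarith
  have h5 : (A : ℝ) ^ r * (A : ℝ) ^ (-(r * (1 - th) / 2)) = ((A : ℝ) ^ (1 - (1 - th) / 2)) ^ r := by
    rw [← Real.rpow_natCast, ← Real.rpow_natCast, ← Real.rpow_add hA0, ← Real.rpow_mul hA0.le]
    congr 1
    ring
  have h6 : (G.card : ℝ) ^ r ≤ (2 * (A : ℝ) ^ (1 - (1 - th) / 2) * (ρ : ℝ) ^ K) ^ r := by
    have hrr : (r : ℝ) ^ (r * K) ≤ ((ρ : ℝ) ^ K) ^ r := by
      rw [← pow_mul, mul_comm K r]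
      exact pow_le_pow_left₀ (Nat.cast_nonneg r) (by exact_mod_cast hrρ) _
    have h2r : (2 : ℝ) ≤ 2 ^ r := by
      calc (2 : ℝ) = 2 ^ 1 := (pow_one 2).symm
        _ ≤ 2 ^ r := pow_le_pow_right₀ (by norm_num) (by omega)
    calc (G.card : ℝ) ^ r ≤ 2 * e * (A : ℝ) ^ r / p * (r : ℝ) ^ (r * K) := h1
      _ = 2 * ((A : ℝ) ^ r * ((e : ℝ) / p)) * (r : ℝ) ^ (r * K) := by ring
      _ ≤ 2 * ((A : ℝ) ^ r * (A : ℝ) ^ (-(r * (1 - th) / 2))) * ((ρ : ℝ) ^ K) ^ r := by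
          refine mul_le_mul ?_ hrr (by positivity) (by positivity)
          refine mul_le_mul_of_nonneg_left ?_ (by norm_num)
          exact mul_le_mul_of_nonneg_left (h2.trans (h3.trans h4)) (by positivity)
      _ = 2 * ((A : ℝ) ^ (1 - (1 - th) / 2)) ^ r * ((ρ : ℝ) ^ K) ^ r := by rw [h5]
      _ ≤ 2 ^ r * ((A : ℝ) ^ (1 - (1 - th) / 2)) ^ r * ((ρ : ℝ) ^ K) ^ r := by
          refine mul_le_mul_of_nonneg_right ?_ (by positivity)
          exact mul_le_mul_of_nonneg_right h2r (by positivity)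
      _ = (2 * (A : ℝ) ^ (1 - (1 - th) / 2) * (ρ : ℝ) ^ K) ^ r := by rw [mul_pow, mul_pow]
  exact (pow_le_pow_iff_left₀ (Nat.cast_nonneg _) (by positivity) (by omega)).mp h6

end Pool.Agent.Lib.MP_757a88_nt.PS
end
end

section

/-!
# Pseudoprimes, B3b: divisor sums
-/

set_option autoImplicit false

noncomputable section

namespace Pool.Agent.Lib.MP_757a88_nt.PS

private theorem b3b_square {s : ℝ} (N : ℕ) (M : Finset ℕ) (hM : ∀ m ∈ M, 1 ≤ m ∧ m ≤ N) :
    ∑ m ∈ M, (m.divisors.card : ℝ) * (m : ℝ) ^ s ≤ (∑ a ∈ Finset.Icc 1 N, (a : ℝ) ^ s) ^ 2 := by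
  have h1 : ∑ m ∈ M, (m.divisors.card : ℝ) * (m : ℝ) ^ s =
      ∑ m ∈ M, ∑ x ∈ m.divisorsAntidiagonal, ((x.1 : ℝ) ^ s * (x.2 : ℝ) ^ s) := by
    refine Finset.sum_congr rfl fun m hm => ?_
    have h2 : ∑ x ∈ m.divisorsAntidiagonal, ((x.1 : ℝ) ^ s * (x.2 : ℝ) ^ s) =
        ∑ x ∈ m.divisorsAntidiagonal, (m : ℝ) ^ s := by
      refine Finset.sum_congr rfl fun x hx => ?_
      have h3 := (Nat.mem_divisorsAntidiagonal.1 hx).1
      rw [← Real.mul_rpow (Nat.cast_nonneg _) (Nat.cast_nonneg _), ← Nat.cast_mul, h3]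
    rw [h2, Finset.sum_const, nsmul_eq_mul]
    congr 2
    rw [← Nat.map_div_right_divisors, Finset.card_map]
  rw [h1, ← Finset.sum_biUnion]
  · rw [pow_two, Finset.sum_mul_sum, ← Finset.sum_product']
    refine Finset.sum_le_sum_of_subset_of_nonneg ?_ ?_
    · intro x hx
      rw [Finset.mem_biUnion] at hx
      obtain ⟨m, hm, hx⟩ := hx
      obtain ⟨h4, h5⟩ := Nat.mem_divisorsAntidiagonal.1 hx
      obtain ⟨h6, h7⟩ := hM m hm
      have h8 : x.1 ≠ 0 := by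
        intro h; rw [h, zero_mul] at h4; omega
      have h9 : x.2 ≠ 0 := by
        intro h; rw [h, mul_zero] at h4; omega
      have h10 : x.1 ≤ m := Nat.le_of_dvd h6 ⟨x.2, h4.symm⟩
      have h11 : x.2 ≤ m := Nat.le_of_dvd h6 ⟨x.1, by rw [mul_comm]; exact h4.symm⟩
      rw [Finset.mem_product, Finset.mem_Icc, Finset.mem_Icc]
      omega
    · intro x _ _
      positivity
  · intro a _ b _ hab
    rw [Function.onFun, Finset.disjoint_left]
    intro x hx hx'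
    exact hab (((Nat.mem_divisorsAntidiagonal.1 hx).1).symm.trans
      (Nat.mem_divisorsAntidiagonal.1 hx').1)

/-- PROOF. `m.divisors.card = ∑_{a b = m} 1`; `m ^ v ≤ Z ^ v`; `∑_{m ≤ Z} τ(m) / m ≤ (∑_{a ≤ Z} 1 / a) ^ 2 ≤ (1 + log Z) ^ 2`. -/
theorem sum_tau_le {Z v : ℝ} (hZ : 1 ≤ Z) (hv : 0 ≤ v) (M : Finset ℕ)
    (hM : ∀ m ∈ M, 1 ≤ m ∧ (m : ℝ) ≤ Z) :
    ∑ m ∈ M, (m.divisors.card : ℝ) * (m : ℝ) ^ (-1 + v) ≤ Z ^ v * (1 + Real.log Z) ^ 2 := by
  have hZ0 : (0 : ℝ) ≤ Z := by linarith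
  have h1 : ∀ m ∈ M, (m.divisors.card : ℝ) * (m : ℝ) ^ (-1 + v) ≤
      Z ^ v * ((m.divisors.card : ℝ) * (m : ℝ) ^ (-1 : ℝ)) := by
    intro m hm
    obtain ⟨h2, h3⟩ := hM m hm
    have h4 : (0 : ℝ) < m := by exact_mod_cast h2
    have h5 : (m : ℝ) ^ (-1 + v) = (m : ℝ) ^ (-1 : ℝ) * (m : ℝ) ^ v := Real.rpow_add h4 _ _
    have h6 : (m : ℝ) ^ v ≤ Z ^ v := Real.rpow_le_rpow h4.le h3 hv
    have h7 : (0 : ℝ) ≤ (m.divisors.card : ℝ) * (m : ℝ) ^ (-1 : ℝ) := by positivity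
    calc (m.divisors.card : ℝ) * (m : ℝ) ^ (-1 + v)
        = ((m.divisors.card : ℝ) * (m : ℝ) ^ (-1 : ℝ)) * (m : ℝ) ^ v := by rw [h5]; ring
      _ ≤ ((m.divisors.card : ℝ) * (m : ℝ) ^ (-1 : ℝ)) * Z ^ v :=
          mul_le_mul_of_nonneg_left h6 h7
      _ = Z ^ v * ((m.divisors.card : ℝ) * (m : ℝ) ^ (-1 : ℝ)) := by ring
  have h2 : ∑ m ∈ M, (m.divisors.card : ℝ) * (m : ℝ) ^ (-1 : ℝ) ≤
      (∑ a ∈ Finset.Icc 1 ⌊Z⌋₊, (a : ℝ) ^ (-1 : ℝ)) ^ 2 :=
    b3b_square ⌊Z⌋₊ M fun m hm => ⟨(hM m hm).1, Nat.le_floor (hM m hm).2⟩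
  have h3 : ∑ a ∈ Finset.Icc 1 ⌊Z⌋₊, (a : ℝ) ^ (-1 : ℝ) ≤ 1 + Real.log Z := by
    have h4 := harmonic_floor_le_one_add_log Z hZ
    have h5 : ((harmonic ⌊Z⌋₊ : ℚ) : ℝ) = ∑ a ∈ Finset.Icc 1 ⌊Z⌋₊, (a : ℝ) ^ (-1 : ℝ) := by
      rw [harmonic_eq_sum_Icc]
      push_cast
      exact Finset.sum_congr rfl fun a _ => (Real.rpow_neg_one _).symm
    rw [← h5]
    exact h4
  have h4 : (0 : ℝ) ≤ ∑ a ∈ Finset.Icc 1 ⌊Z⌋₊, (a : ℝ) ^ (-1 : ℝ) :=
    Finset.sum_nonneg fun a _ => by positivity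
  calc ∑ m ∈ M, (m.divisors.card : ℝ) * (m : ℝ) ^ (-1 + v)
      ≤ ∑ m ∈ M, Z ^ v * ((m.divisors.card : ℝ) * (m : ℝ) ^ (-1 : ℝ)) := Finset.sum_le_sum h1
    _ = Z ^ v * ∑ m ∈ M, (m.divisors.card : ℝ) * (m : ℝ) ^ (-1 : ℝ) := by rw [Finset.mul_sum]
    _ ≤ Z ^ v * (1 + Real.log Z) ^ 2 := by
        refine mul_le_mul_of_nonneg_left (h2.trans ?_) (by positivity)
        exact pow_le_pow_left₀ h4 h3 2

/-- PROOF. `m ^ (-1 - δ) ≤ y ^ (- δ / 2) m ^ (-1 - δ / 2)`, and `∑_m τ(m) m ^ (-1 - δ / 2) ≤ (∑_a a ^ (-1 - δ / 2)) ^ 2 =: C₁` (convergent). -/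
theorem sum_tau_tail {δ : ℝ} (hδ : 0 < δ) :
    ∃ C₁ : ℝ, 0 ≤ C₁ ∧ ∀ y : ℝ, 1 ≤ y → ∀ M : Finset ℕ, (∀ m ∈ M, y ≤ m) →
      ∑ m ∈ M, (m.divisors.card : ℝ) * (m : ℝ) ^ (-1 - δ) ≤ C₁ * y ^ (-δ / 2) := by
  have hs : Summable fun n : ℕ => (n : ℝ) ^ (-1 - δ / 2) := Real.summable_nat_rpow.2 (by linarith)
  refine ⟨(∑' n : ℕ, (n : ℝ) ^ (-1 - δ / 2)) ^ 2, by positivity, ?_⟩
  intro y hy M hM
  have hy0 : (0 : ℝ) < y := by linarith
  have h1 : ∀ m ∈ M, (m.divisors.card : ℝ) * (m : ℝ) ^ (-1 - δ) ≤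
      y ^ (-δ / 2) * ((m.divisors.card : ℝ) * (m : ℝ) ^ (-1 - δ / 2)) := by
    intro m hm
    have h3 := hM m hm
    have h4 : (0 : ℝ) < m := by linarith
    have h5 : (m : ℝ) ^ (-1 - δ) = (m : ℝ) ^ (-1 - δ / 2) * (m : ℝ) ^ (-δ / 2) := by
      rw [← Real.rpow_add h4]
      congr 1
      ring
    have h6 : (m : ℝ) ^ (-δ / 2) ≤ y ^ (-δ / 2) :=
      Real.rpow_le_rpow_of_nonpos hy0 h3 (by linarith)
    have h7 : (0 : ℝ) ≤ (m.divisors.card : ℝ) * (m : ℝ) ^ (-1 - δ / 2) := by positivity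
    calc (m.divisors.card : ℝ) * (m : ℝ) ^ (-1 - δ)
        = ((m.divisors.card : ℝ) * (m : ℝ) ^ (-1 - δ / 2)) * (m : ℝ) ^ (-δ / 2) := by
          rw [h5]; ring
      _ ≤ ((m.divisors.card : ℝ) * (m : ℝ) ^ (-1 - δ / 2)) * y ^ (-δ / 2) :=
          mul_le_mul_of_nonneg_left h6 h7
      _ = y ^ (-δ / 2) * ((m.divisors.card : ℝ) * (m : ℝ) ^ (-1 - δ / 2)) := by ring
  have h2 : ∑ m ∈ M, (m.divisors.card : ℝ) * (m : ℝ) ^ (-1 - δ / 2) ≤
      (∑ a ∈ Finset.Icc 1 (M.sup id), (a : ℝ) ^ (-1 - δ / 2)) ^ 2 := by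
    refine b3b_square (M.sup id) M fun m hm => ⟨?_, Finset.le_sup (f := id) hm⟩
    have h3 : (1 : ℝ) ≤ m := hy.trans (hM m hm)
    exact_mod_cast h3
  have h3 : ∑ a ∈ Finset.Icc 1 (M.sup id), (a : ℝ) ^ (-1 - δ / 2) ≤
      ∑' n : ℕ, (n : ℝ) ^ (-1 - δ / 2) :=
    hs.sum_le_tsum _ fun a _ => by positivity
  have h4 : (0 : ℝ) ≤ ∑ a ∈ Finset.Icc 1 (M.sup id), (a : ℝ) ^ (-1 - δ / 2) :=
    Finset.sum_nonneg fun a _ => by positivity
  calc ∑ m ∈ M, (m.divisors.card : ℝ) * (m : ℝ) ^ (-1 - δ)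
      ≤ ∑ m ∈ M, y ^ (-δ / 2) * ((m.divisors.card : ℝ) * (m : ℝ) ^ (-1 - δ / 2)) :=
        Finset.sum_le_sum h1
    _ = (∑ m ∈ M, (m.divisors.card : ℝ) * (m : ℝ) ^ (-1 - δ / 2)) * y ^ (-δ / 2) := by
        rw [← Finset.mul_sum, mul_comm]
    _ ≤ (∑' n : ℕ, (n : ℝ) ^ (-1 - δ / 2)) ^ 2 * y ^ (-δ / 2) := by
        refine mul_le_mul_of_nonneg_right (h2.trans ?_) (by positivity)
        exact pow_le_pow_left₀ h4 h3 2

end Pool.Agent.Lib.MP_757a88_nt.PS
end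
end

section

/-!
# Pseudoprimes, B4: the first moment of the sum over the bad primes
-/

set_option autoImplicit false

noncomputable section

namespace Pool.Agent.Lib.MP_757a88_nt.PS

open ArithmeticFunction

/-- The bad primes of the base `a` between `y` and `Z`: `y < p ≤ Z`, `p` does not divide `a`, and the order of `a` modulo `p` is at most `p ^ th`. -/
def badP (th y : ℝ) (Z a : ℕ) : Finset ℕ := by
  classical exact (Finset.Icc 1 Z).filter fun p => p.Prime ∧ y < p ∧ ¬ p ∣ a ∧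
    (orderOf (a : ZMod p) : ℝ) ≤ (p : ℝ) ^ th

theorem mem_badP {th y : ℝ} {Z a p : ℕ} : p ∈ badP th y Z a ↔ p ≤ Z ∧ p.Prime ∧ y < p ∧ ¬ p ∣ a ∧
    (orderOf (a : ZMod p) : ℝ) ≤ (p : ℝ) ^ th := by
  classical
  unfold badP
  rw [Finset.mem_filter, Finset.mem_Icc]
  constructor
  · rintro ⟨⟨_, h1⟩, h2⟩
    exact ⟨h1, h2⟩
  · rintro ⟨h1, h2⟩
    exact ⟨⟨h2.1.one_lt.le, h1⟩, h2⟩

/-- The number of bases `a ≤ A` with `Ω a ≤ K` for which `p` is bad. PROOF. The order `e` of `a` modulo `p` divides `p - 1`: union over the divisors `e` of `p - 1` with `e ≤ p ^ th`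
(at most `τ(p - 1)`), `card_base_small` or `card_base_large` for each. -/
theorem card_bad_base {p A K ρ : ℕ} (hp : p.Prime) (hA : 2 ≤ A) {th : ℝ} (hth : th ≤ 1)
    (hρ : p ≤ A ^ ρ) (G : Finset ℕ) (hG : ∀ a ∈ G, 1 ≤ a ∧ a ≤ A ∧ cardFactors a ≤ K ∧ ¬ p ∣ a ∧
      (orderOf (a : ZMod p) : ℝ) ≤ (p : ℝ) ^ th) :
    (G.card : ℝ) ≤ (p - 1).divisors.card * (if p ≤ A then 2 * A * (p : ℝ) ^ (th - 1)
      else 2 * (A : ℝ) ^ (1 - (1 - th) / 2) * (ρ : ℝ) ^ K) := by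
  classical
  have := Fact.mk hp
  have hp0 : (0 : ℝ) < p := by exact_mod_cast hp.pos
  have hA0 : (0 : ℝ) ≤ A := Nat.cast_nonneg A
  set bd : ℝ := if p ≤ A then 2 * A * (p : ℝ) ^ (th - 1)
      else 2 * (A : ℝ) ^ (1 - (1 - th) / 2) * (ρ : ℝ) ^ K with hbd
  have hbd0 : 0 ≤ bd := by
    rw [hbd]
    split_ifs <;> positivity
  have hunit : ∀ a ∈ G, (a : ZMod p) ^ (p - 1) = 1 := by
    intro a ha
    apply ZMod.pow_card_sub_one_eq_one
    rw [Ne, ZMod.natCast_eq_zero_iff]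
    exact (hG a ha).2.2.2.1
  have hmaps : ∀ a ∈ G, orderOf (a : ZMod p) ∈ (p - 1).divisors := by
    intro a ha
    rw [Nat.mem_divisors]
    refine ⟨orderOf_dvd_of_pow_eq_one (hunit a ha), ?_⟩
    have := hp.two_le
    omega
  rw [Finset.card_eq_sum_card_fiberwise hmaps]
  push_cast
  rw [← nsmul_eq_mul]
  apply Finset.sum_le_card_nsmul
  intro e he
  rcases (G.filter fun a : ℕ => orderOf (a : ZMod p) = e).eq_empty_or_nonempty with h | ⟨a₀, ha₀⟩
  · rw [h]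
    simpa using hbd0
  rw [Finset.mem_filter] at ha₀
  have he1 : 1 ≤ e := Nat.pos_of_mem_divisors he
  have heth : (e : ℝ) ≤ (p : ℝ) ^ th := by
    have := (hG a₀ ha₀.1).2.2.2.2
    rw [ha₀.2] at this
    exact this
  by_cases hpA : p ≤ A
  · rw [hbd, if_pos hpA]
    apply card_base_small hp he1 heth hpA
    intro a ha
    rw [Finset.mem_filter] at ha
    obtain ⟨h1, h2, _, _, _⟩ := hG a ha.1
    refine ⟨h1, h2, ?_⟩
    rw [← ha.2]
    exact pow_orderOf_eq_one _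
  · rw [hbd, if_neg hpA]
    apply card_base_large hp he1 hA hth heth (by omega) hρ
    intro a ha
    rw [Finset.mem_filter] at ha
    obtain ⟨h1, h2, h3, _, _⟩ := hG a ha.1
    refine ⟨h1, h2, h3, ?_⟩
    rw [← ha.2]
    exact pow_orderOf_eq_one _

/-- PROOF. Exchange the sums, `card_bad_base`, and `p ^ (-1 + v) ≤ (p - 1) ^ (-1 + v)`, `p ^ (-1 + v) * p ^ (th - 1) ≤ p ^ (-1 - δ) ≤ (p - 1) ^ (-1 - δ)`; the numbers `p - 1 ≥ y / 2`
(`y ≥ 2`): `C₁` from `sum_tau_tail` for the primes `p ≤ A`, `sum_tau_le` for the others. -/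
theorem first_moment {th δ : ℝ} (hth0 : 0 ≤ th) (hδ : 0 < δ) :
    ∃ C₁ : ℝ, 0 ≤ C₁ ∧ ∀ (v : ℝ) (A K ρ Z : ℕ) (y : ℝ), 0 ≤ v → th + v + δ ≤ 1 → 2 ≤ A → 2 ≤ y →
      Z ≤ A ^ ρ → 1 ≤ Z →
      ∑ a ∈ (Finset.Icc 2 A).filter (fun a => cardFactors a ≤ K),
        ∑ p ∈ badP th y Z a, (p : ℝ) ^ (-1 + v)
      ≤ 2 * A * (C₁ * (y / 2) ^ (-δ / 2))
        + 2 * (A : ℝ) ^ (1 - (1 - th) / 2) * (ρ : ℝ) ^ K * ((Z : ℝ) ^ v * (1 + Real.log Z) ^ 2) := by
  classical
  obtain ⟨C₁, hC0, hC⟩ := sum_tau_tail hδ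
  refine ⟨C₁, hC0, ?_⟩
  intro v A K ρ Z y hv hsum hA hy hZA hZ
  have hth : th ≤ 1 := by linarith
  have hA0 : (0 : ℝ) ≤ A := Nat.cast_nonneg A
  set P : Finset ℕ := (Finset.Icc 1 Z).filter (fun p => p.Prime ∧ y < p) with hP
  have hmP : ∀ p, p ∈ P ↔ (p ≤ Z ∧ p.Prime ∧ y < p) := by
    intro p
    rw [hP, Finset.mem_filter, Finset.mem_Icc]
    constructor
    · rintro ⟨⟨_, h1⟩, h2⟩
      exact ⟨h1, h2⟩
    · rintro ⟨h1, h2⟩
      exact ⟨⟨h2.1.one_lt.le, h1⟩, h2⟩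
  clear_value P
  set S : Finset ℕ := (Finset.Icc 2 A).filter (fun a => cardFactors a ≤ K) with hS
  have hexch : ∑ a ∈ S, ∑ p ∈ badP th y Z a, (p : ℝ) ^ (-1 + v)
      = ∑ p ∈ P, ∑ a ∈ S.filter (fun a => p ∈ badP th y Z a), (p : ℝ) ^ (-1 + v) := by
    apply Finset.sum_comm'
    intro a p
    constructor
    · rintro ⟨h1, h2⟩
      have h3 := mem_badP.1 h2
      exact ⟨Finset.mem_filter.2 ⟨h1, h2⟩, (hmP p).2 ⟨h3.1, h3.2.1, h3.2.2.1⟩⟩
    · rintro ⟨h1, _⟩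
      exact Finset.mem_filter.1 h1
  rw [hexch]
  set B : ℝ := 2 * (A : ℝ) ^ (1 - (1 - th) / 2) * (ρ : ℝ) ^ K with hB
  have hB0 : 0 ≤ B := by rw [hB]; positivity
  have hterm : ∀ p ∈ P, ∑ a ∈ S.filter (fun a => p ∈ badP th y Z a), (p : ℝ) ^ (-1 + v)
      ≤ (if p ≤ A then 2 * A * (((p - 1).divisors.card : ℝ) * ((p - 1 : ℕ) : ℝ) ^ (-1 - δ)) else 0)
        + B * (if p ≤ A then 0 else (((p - 1).divisors.card : ℝ) * ((p - 1 : ℕ) : ℝ) ^ (-1 + v))) := by
    intro p hp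
    rw [hmP] at hp
    obtain ⟨hpZ, hpp, hyp⟩ := hp
    have hp0 : (0 : ℝ) < p := by exact_mod_cast hpp.pos
    have hp1 : (1 : ℝ) ≤ ((p - 1 : ℕ) : ℝ) := by
      have := hpp.two_le
      have h2 : 1 ≤ p - 1 := by omega
      exact_mod_cast h2
    have hpm : ((p - 1 : ℕ) : ℝ) ≤ p := by
      have : p - 1 ≤ p := Nat.sub_le _ _
      exact_mod_cast this
    rw [Finset.sum_const, nsmul_eq_mul]
    have hcard := card_bad_base (K := K) hpp hA hth (hpZ.trans hZA)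
      (S.filter (fun a => p ∈ badP th y Z a)) (by
        intro a ha
        rw [Finset.mem_filter, mem_badP, hS, Finset.mem_filter, Finset.mem_Icc] at ha
        obtain ⟨⟨⟨h1, h2⟩, h3⟩, _, _, _, h4, h5⟩ := ha
        exact ⟨by omega, h2, h3, h4, h5⟩)
    have hmono : (p : ℝ) ^ (-1 + v) ≤ ((p - 1 : ℕ) : ℝ) ^ (-1 + v) :=
      Real.rpow_le_rpow_of_nonpos (by linarith) hpm (by linarith)
    have hpos : 0 ≤ (p : ℝ) ^ (-1 + v) := by positivity
    refine (mul_le_mul_of_nonneg_right hcard hpos).trans ?_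
    by_cases hpA : p ≤ A
    · rw [if_pos hpA, if_pos hpA, if_pos hpA, mul_zero, add_zero]
      have e1 : ((p - 1).divisors.card : ℝ) * (2 * A * (p : ℝ) ^ (th - 1)) * (p : ℝ) ^ (-1 + v)
          = 2 * A * (((p - 1).divisors.card : ℝ) * (p : ℝ) ^ (th - 1 + (-1 + v))) := by
        rw [Real.rpow_add hp0 (th - 1) (-1 + v)]
        ring
      rw [e1]
      apply mul_le_mul_of_nonneg_left _ (by positivity)
      apply mul_le_mul_of_nonneg_left _ (by positivity)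
      calc (p : ℝ) ^ (th - 1 + (-1 + v)) ≤ (p : ℝ) ^ (-1 - δ) := by
            apply Real.rpow_le_rpow_of_exponent_le
            · exact hp1.trans hpm
            · linarith
        _ ≤ ((p - 1 : ℕ) : ℝ) ^ (-1 - δ) :=
            Real.rpow_le_rpow_of_nonpos (by linarith) hpm (by linarith)
    · rw [if_neg hpA, if_neg hpA, if_neg hpA, zero_add]
      have e1 : ((p - 1).divisors.card : ℝ) * B * (p : ℝ) ^ (-1 + v)
          = B * (((p - 1).divisors.card : ℝ) * (p : ℝ) ^ (-1 + v)) := by ring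
      rw [← hB, e1]
      apply mul_le_mul_of_nonneg_left _ hB0
      apply mul_le_mul_of_nonneg_left hmono (by positivity)
  refine (Finset.sum_le_sum hterm).trans ?_
  rw [Finset.sum_add_distrib, ← Finset.mul_sum]
  have hinj : ∀ Q : Finset ℕ, (∀ p ∈ Q, p ∈ P) → Set.InjOn (fun p : ℕ => p - 1) (Q : Set ℕ) := by
    intro Q hQ p hp q hq hpq
    have h1 := ((hmP p).1 (hQ p hp)).2.1.two_le
    have h2 := ((hmP q).1 (hQ q hq)).2.1.two_le
    simp only at hpq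
    omega
  apply add_le_add
  · rw [← Finset.sum_filter, ← Finset.mul_sum]
    apply mul_le_mul_of_nonneg_left _ (by positivity)
    have h1 := hC (y / 2) (by linarith) ((P.filter (fun p => p ≤ A)).image (fun p => p - 1)) (by
      intro m hm
      rw [Finset.mem_image] at hm
      obtain ⟨p, hp, rfl⟩ := hm
      rw [Finset.mem_filter, hmP] at hp
      have h2 := hp.1.2.1.two_le
      have h3 : ((p - 1 : ℕ) : ℝ) = (p : ℝ) - 1 := by
        rw [Nat.cast_sub (by omega)]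
        simp
      rw [h3]
      linarith [hp.1.2.2])
    rw [Finset.sum_image (hinj _ (fun p hp => (Finset.mem_filter.1 hp).1))] at h1
    exact h1
  · apply mul_le_mul_of_nonneg_left _ hB0
    have e2 : ∑ p ∈ P, (if p ≤ A then (0 : ℝ)
        else (((p - 1).divisors.card : ℝ) * ((p - 1 : ℕ) : ℝ) ^ (-1 + v)))
        = ∑ p ∈ P.filter (fun p => ¬ p ≤ A),
          (((p - 1).divisors.card : ℝ) * ((p - 1 : ℕ) : ℝ) ^ (-1 + v)) := by
      rw [Finset.sum_filter]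
      apply Finset.sum_congr rfl
      intro p _
      by_cases h : p ≤ A <;> simp [h]
    rw [e2]
    have h1 := sum_tau_le (Z := (Z : ℝ)) (v := v) (by exact_mod_cast hZ) hv
      ((P.filter (fun p => ¬ p ≤ A)).image (fun p => p - 1)) (by
      intro m hm
      rw [Finset.mem_image] at hm
      obtain ⟨p, hp, rfl⟩ := hm
      rw [Finset.mem_filter, hmP] at hp
      have h2 := hp.1.2.1.two_le
      have h3 := hp.1.1
      constructor
      · omega
      · have h4 : p - 1 ≤ Z := by omega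
        exact_mod_cast h4)
    rw [Finset.sum_image (hinj _ (fun p hp => (Finset.mem_filter.1 hp).1))] at h1
    exact h1

end Pool.Agent.Lib.MP_757a88_nt.PS
end
end
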