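import Mathlib
import Pool.Agent.Lib.MP_757a88_nt.Mg.G001

section

/-!
# Pseudoprimes, C1: primes for which the group generated by `r` independent bases is small
-/

set_option autoImplicit false

noncomputable section

namespace Pool.Agent.Lib.MP_757a88_nt.PS

/-- PROOF. Put `E = ⌊D ^ (1 / r)⌋`, so `1 ≤ E ≤ D ^ (1 / r)` and `(E + 1) ^ r > D`. Let `p ∈ F`, with `e`. The map `(Fin r → Fin (E + 1)) → {u : ZMod p | u ^ e = 1}`,
`f ↦ ∏ (a i) ^ f i` is not injective (at most `e ≤ D` roots: `card_nthRootsFinset` / `Polynomial.card_roots`), so there are `f ≠ f'` with equal images; cancel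
the common factors (`p` does not divide `a i`): `∏ (a i) ^ (f i - f' i) = ∏ (a i) ^ (f' i - f i)` in `ZMod p` (truncated subtraction). So `p` divides the integer
`M g = |∏ (a i) ^ (g i).toNat - ∏ (a i) ^ (- g i).toNat|` with `g = f - f' : Fin r → ℤ`, `|g i| ≤ E`, `g ≠ 0`, which is not `0` by `hind` and at most `A ^ (r E)`, `A = ∏ a i`
(or the maximum). There are at most `(2 E + 1) ^ r ≤ 3 ^ r D` such `g`, each `M g` has at most `2 log M g ≤ 2 r E log A` prime divisors (`card_primes_dvd_le`). Total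
`3 ^ r D * 2 r D ^ (1 / r) log A`. -/
theorem rank_card_le {r : ℕ} (hr : 1 ≤ r) (a : Fin r → ℕ) (ha : ∀ i, 2 ≤ a i)
    (hind : ∀ e f : Fin r → ℕ, ∏ i, a i ^ e i = ∏ i, a i ^ f i → e = f) :
    ∃ C : ℝ, 1 ≤ C ∧ ∀ D : ℕ, 1 ≤ D → ∀ F : Finset ℕ,
      (∀ p ∈ F, p.Prime ∧ (∀ i, ¬ p ∣ a i) ∧ ∃ e, 1 ≤ e ∧ e ≤ D ∧ ∀ i, (a i : ZMod p) ^ e = 1) →
      (F.card : ℝ) ≤ C * (D : ℝ) ^ (1 + 1 / (r : ℝ)) := by
  classical
  set A : ℕ := ∏ i, a i with hA
  have hApos : 0 < A := Finset.prod_pos fun i _ => by have := ha i; omega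
  refine ⟨max 1 (3 ^ r * (2 * Real.log A)), le_max_left _ _, ?_⟩
  intro D hD F hF
  have hrR : (0 : ℝ) < r := by exact_mod_cast hr
  have hDR : (1 : ℝ) ≤ D := by exact_mod_cast hD
  have hD0 : (0 : ℝ) < D := by linarith
  set E : ℕ := ⌊(D : ℝ) ^ (1 / (r : ℝ))⌋₊ with hE
  have hpow1 : (1 : ℝ) ≤ (D : ℝ) ^ (1 / (r : ℝ)) := Real.one_le_rpow hDR (by positivity)
  have hE1 : 1 ≤ E := by
    rw [hE, Nat.one_le_floor_iff]
    exact hpow1
  have hEle : (E : ℝ) ≤ (D : ℝ) ^ (1 / (r : ℝ)) := Nat.floor_le (by positivity)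
  have hpr : ((D : ℝ) ^ (1 / (r : ℝ))) ^ r = D := by
    rw [← Real.rpow_natCast, ← Real.rpow_mul hD0.le, one_div, inv_mul_cancel₀ hrR.ne',
      Real.rpow_one]
  have hlt : D < (E + 1) ^ r := by
    have h1 : (D : ℝ) < ((E : ℝ) + 1) ^ r := by
      have h2 : (D : ℝ) ^ (1 / (r : ℝ)) < (E : ℝ) + 1 := Nat.lt_floor_add_one _
      calc (D : ℝ) = ((D : ℝ) ^ (1 / (r : ℝ))) ^ r := hpr.symm
        _ < ((E : ℝ) + 1) ^ r := pow_lt_pow_left₀ h2 (by positivity) (by omega)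
    exact_mod_cast h1
  have hErD : (E : ℝ) ^ r ≤ D := by
    calc (E : ℝ) ^ r ≤ ((D : ℝ) ^ (1 / (r : ℝ))) ^ r :=
          pow_le_pow_left₀ (Nat.cast_nonneg _) hEle r
      _ = D := hpr
  set M : (Fin r → ℤ) → ℕ := fun g =>
    (((∏ i, a i ^ (g i).toNat : ℕ) : ℤ) - ((∏ i, a i ^ (-g i).toNat : ℕ) : ℤ)).natAbs with hM
  set G : Finset (Fin r → ℤ) :=
    (Fintype.piFinset fun _ => Finset.Icc (-(E : ℤ)) E).erase 0 with hG
  have hGcard : (G.card : ℝ) ≤ 3 ^ r * D := by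
    have h1 : G.card ≤ (2 * E + 1) ^ r := by
      refine (Finset.card_erase_le).trans ?_
      rw [Fintype.card_piFinset]
      simp only [Int.card_Icc, Finset.prod_const, Finset.card_univ, Fintype.card_fin]
      refine Nat.pow_le_pow_left ?_ r
      omega
    have h2 : ((2 * E + 1) ^ r : ℕ) ≤ (3 * E) ^ r := Nat.pow_le_pow_left (by omega) r
    have h3 : (G.card : ℝ) ≤ ((3 * E : ℕ) : ℝ) ^ r := by exact_mod_cast h1.trans h2
    refine h3.trans ?_
    push_cast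
    rw [mul_pow]
    gcongr
  have hMne : ∀ g ∈ G, M g ≠ 0 := by
    intro g hg h0
    rw [hG, Finset.mem_erase] at hg
    apply hg.1
    have h1 : ∏ i, a i ^ (g i).toNat = ∏ i, a i ^ (-g i).toNat := by
      have h2 := Int.natAbs_eq_zero.mp h0
      have h3 : ((∏ i, a i ^ (g i).toNat : ℕ) : ℤ) = ((∏ i, a i ^ (-g i).toNat : ℕ) : ℤ) := by
        linarith
      exact_mod_cast h3
    have h4 := hind _ _ h1
    funext i
    have h5 : (g i).toNat = (-g i).toNat := congrFun h4 i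
    simp only [Pi.zero_apply]
    omega
  have hMle : ∀ g ∈ G, M g ≤ A ^ E := by
    intro g hg
    rw [hG, Finset.mem_erase, Fintype.mem_piFinset] at hg
    have hb : ∀ h : Fin r → ℕ, (∀ i, h i ≤ E) → ∏ i, a i ^ h i ≤ A ^ E := by
      intro h hh
      rw [hA, ← Finset.prod_pow]
      refine Finset.prod_le_prod' fun i _ => ?_
      exact Nat.pow_le_pow_right (by have := ha i; omega) (hh i)
    have h1 := hb (fun i => (g i).toNat) fun i => by
      have := Finset.mem_Icc.mp (hg.2 i)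
      show _ ≤ E
      omega
    have h2 := hb (fun i => (-g i).toNat) fun i => by
      have := Finset.mem_Icc.mp (hg.2 i)
      show _ ≤ E
      omega
    show (((∏ i, a i ^ (g i).toNat : ℕ) : ℤ) - ((∏ i, a i ^ (-g i).toNat : ℕ) : ℤ)).natAbs ≤ A ^ E
    generalize (∏ i, a i ^ (g i).toNat : ℕ) = u at *
    generalize (∏ i, a i ^ (-g i).toNat : ℕ) = v at *
    generalize A ^ E = w at *
    omega
  have hdvd : ∀ p ∈ F, ∃ g ∈ G, p ∣ M g := by
    intro p hp
    obtain ⟨hpp, hpa, e, he1, heD, hae⟩ := hF p hp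
    have : Fact p.Prime := ⟨hpp⟩
    have hane : ∀ i, (a i : ZMod p) ≠ 0 := by
      intro i h
      exact hpa i ((ZMod.natCast_eq_zero_iff _ _).mp h)
    have hcardlt : (Polynomial.nthRootsFinset e (1 : ZMod p)).card <
        (Fintype.piFinset fun _ : Fin r => Finset.range (E + 1)).card := by
      rw [Fintype.card_piFinset]
      simp only [Finset.card_range, Finset.prod_const, Finset.card_univ, Fintype.card_fin]
      refine lt_of_le_of_lt ?_ hlt
      refine le_trans ?_ heD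
      unfold Polynomial.nthRootsFinset
      exact (@Multiset.toFinset_card_le (ZMod p) (Classical.decEq (ZMod p)) _).trans
        (Polynomial.card_nthRoots e 1)
    obtain ⟨f, hf, f', hf', hne, heq⟩ := Finset.exists_ne_map_eq_of_card_lt_of_maps_to hcardlt
      (f := fun f : Fin r → ℕ => ∏ i, (a i : ZMod p) ^ f i) (by
        intro f _
        rw [Finset.mem_coe, Polynomial.mem_nthRootsFinset (by omega)]
        simp only
        rw [← Finset.prod_pow]
        refine Finset.prod_eq_one fun i _ => ?_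
        rw [← pow_mul, mul_comm, pow_mul, hae i, one_pow])
    rw [Fintype.mem_piFinset] at hf hf'
    refine ⟨fun i => (f i : ℤ) - f' i, ?_, ?_⟩
    · rw [hG, Finset.mem_erase, Fintype.mem_piFinset]
      refine ⟨?_, fun i => ?_⟩
      · intro h0
        apply hne
        funext i
        have := congrFun h0 i
        simp only [Pi.zero_apply] at this
        omega
      · have h1 := Finset.mem_range.mp (hf i)
        have h2 := Finset.mem_range.mp (hf' i)
        rw [Finset.mem_Icc]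
        constructor <;> omega
    · show p ∣ (((∏ i, a i ^ ((f i : ℤ) - f' i).toNat : ℕ) : ℤ) -
        ((∏ i, a i ^ (-((f i : ℤ) - f' i)).toNat : ℕ) : ℤ)).natAbs
      rw [← Int.natCast_dvd]
      have h1 : ∏ i, (a i : ZMod p) ^ ((f i : ℤ) - f' i).toNat =
          ∏ i, (a i : ZMod p) ^ (-((f i : ℤ) - f' i)).toNat := by
        have hm : (∏ i, (a i : ZMod p) ^ (min (f i) (f' i))) ≠ 0 :=
          Finset.prod_ne_zero_iff.mpr fun i _ => pow_ne_zero _ (hane i)
        apply mul_left_cancel₀ hm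
        rw [← Finset.prod_mul_distrib, ← Finset.prod_mul_distrib]
        have e1 : ∀ i, (a i : ZMod p) ^ (min (f i) (f' i)) * (a i : ZMod p) ^
            ((f i : ℤ) - f' i).toNat = (a i : ZMod p) ^ f i := by
          intro i
          rw [← pow_add]
          congr 1
          omega
        have e2 : ∀ i, (a i : ZMod p) ^ (min (f i) (f' i)) * (a i : ZMod p) ^
            (-((f i : ℤ) - f' i)).toNat = (a i : ZMod p) ^ f' i := by
          intro i
          rw [← pow_add]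
          congr 1
          omega
        rw [Finset.prod_congr rfl fun i _ => e1 i, Finset.prod_congr rfl fun i _ => e2 i]
        exact heq
      rw [← ZMod.intCast_zmod_eq_zero_iff_dvd]
      push_cast
      rw [h1, sub_self]
  have hcover : F ⊆ G.biUnion fun g => F.filter fun p => p ∣ M g := by
    intro p hp
    obtain ⟨g, hg, hpg⟩ := hdvd p hp
    rw [Finset.mem_biUnion]
    exact ⟨g, hg, Finset.mem_filter.mpr ⟨hp, hpg⟩⟩
  have hA1 : (1 : ℝ) ≤ A := by exact_mod_cast hApos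
  have hlogA : 0 ≤ Real.log A := Real.log_nonneg hA1
  have hsum : (F.card : ℝ) ≤ ∑ g ∈ G, 2 * (E * Real.log A) := by
    have h1 : F.card ≤ ∑ g ∈ G, (F.filter fun p => p ∣ M g).card :=
      (Finset.card_le_card hcover).trans Finset.card_biUnion_le
    have h2 : (F.card : ℝ) ≤ ∑ g ∈ G, ((F.filter fun p => p ∣ M g).card : ℝ) := by
      exact_mod_cast h1
    refine h2.trans (Finset.sum_le_sum fun g hg => ?_)
    refine (card_primes_dvd_le (hMne g hg) _ fun p hp => ?_).trans ?_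
    · rw [Finset.mem_filter] at hp
      exact ⟨(hF p hp.1).1, hp.2⟩
    · have h3 : Real.log (M g) ≤ E * Real.log A := by
        have h4 : (0 : ℝ) < M g := by exact_mod_cast Nat.pos_of_ne_zero (hMne g hg)
        have h5 : (M g : ℝ) ≤ (A : ℝ) ^ E := by exact_mod_cast hMle g hg
        calc Real.log (M g) ≤ Real.log ((A : ℝ) ^ E) := Real.log_le_log h4 h5
          _ = E * Real.log A := Real.log_pow _ _
      linarith
  rw [Finset.sum_const, nsmul_eq_mul] at hsum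
  refine hsum.trans ?_
  have h6 : (D : ℝ) ^ (1 + 1 / (r : ℝ)) = D * (D : ℝ) ^ (1 / (r : ℝ)) := by
    rw [Real.rpow_add hD0, Real.rpow_one]
  rw [h6]
  calc (G.card : ℝ) * (2 * (E * Real.log A))
      ≤ (3 ^ r * D) * (2 * ((D : ℝ) ^ (1 / (r : ℝ)) * Real.log A)) := by gcongr
    _ = (3 ^ r * (2 * Real.log A)) * (D * (D : ℝ) ^ (1 / (r : ℝ))) := by ring
    _ ≤ max 1 (3 ^ r * (2 * Real.log A)) * (D * (D : ℝ) ^ (1 / (r : ℝ))) := by
        gcongr
        exact le_max_right _ _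

end Pool.Agent.Lib.MP_757a88_nt.PS
end
end

section

/-!
# Pseudoprimes, C2: sums over sparse sets
-/

set_option autoImplicit false

noncomputable section

namespace Pool.Agent.Lib.MP_757a88_nt.PS

/-- PROOF. Split `F` by `2 ^ i ≤ p < 2 ^ (i + 1)`: the part has at most `C (2 ^ (i + 1)) ^ (1 - δ)` elements and each is at most `(2 ^ i) ^ (-1 + v)`, so it gives at most
`2 C 2 ^ (i (v - δ)) ≤ 2 C 2 ^ (- i δ / 2)`: `C₁ = 2 ∑' i, 2 ^ (- i δ / 2)`. (`v ≤ δ / 2 < 1`.) -/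
theorem sum_sparse_le {δ : ℝ} (hδ : 0 < δ) (hδ1 : δ ≤ 1) :
    ∃ C₁ : ℝ, 0 ≤ C₁ ∧ ∀ C v : ℝ, 0 ≤ C → v ≤ δ / 2 → ∀ F : Finset ℕ, (∀ p ∈ F, 1 ≤ p) →
      (∀ y : ℝ, 1 ≤ y → ((F.filter fun p : ℕ => (p : ℝ) ≤ y).card : ℝ) ≤ C * y ^ (1 - δ)) →
      ∑ p ∈ F, (p : ℝ) ^ (-1 + v) ≤ C * C₁ := by
  set r : ℝ := (2 : ℝ) ^ (-(δ / 2)) with hr
  have hr0 : 0 < r := Real.rpow_pos_of_pos (by norm_num) _
  have hr1 : r < 1 := Real.rpow_lt_one_of_one_lt_of_neg (by norm_num) (by linarith)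
  refine ⟨2 * (1 - r)⁻¹, ?_, ?_⟩
  · have : 0 < (1 - r)⁻¹ := inv_pos.2 (by linarith)
    positivity
  intro C v hC hv F hF hcard
  have hfib : ∀ i ∈ F.image (Nat.log 2),
      ∑ p ∈ F with Nat.log 2 p = i, (p : ℝ) ^ (-1 + v) ≤ C * 2 * r ^ i := by
    intro i _
    have h2 : (0 : ℝ) < 2 ^ i := by positivity
    have hterm : ∀ p ∈ F.filter (fun p => Nat.log 2 p = i),
        (p : ℝ) ^ (-1 + v) ≤ ((2 : ℝ) ^ i) ^ (-1 + v) := by
      intro p hp
      rw [Finset.mem_filter] at hp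
      have hp1 : 1 ≤ p := hF p hp.1
      have h := Nat.pow_log_le_self 2 (x := p) (by omega)
      rw [hp.2] at h
      have h' : ((2 : ℝ) ^ i) ≤ p := by exact_mod_cast h
      exact Real.rpow_le_rpow_of_nonpos h2 h' (by linarith)
    have hc : (((F.filter fun p => Nat.log 2 p = i).card : ℕ) : ℝ)
        ≤ C * ((2 : ℝ) ^ (i + 1)) ^ (1 - δ) := by
      refine le_trans ?_ (hcard ((2 : ℝ) ^ (i + 1)) (one_le_pow₀ (by norm_num)))
      have : (F.filter fun p => Nat.log 2 p = i) ⊆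
          F.filter fun p : ℕ => (p : ℝ) ≤ (2 : ℝ) ^ (i + 1) := by
        intro p hp
        rw [Finset.mem_filter] at hp ⊢
        refine ⟨hp.1, ?_⟩
        have h := Nat.lt_pow_succ_log_self (b := 2) (by norm_num) p
        rw [hp.2] at h
        exact_mod_cast h.le
      exact_mod_cast Finset.card_le_card this
    calc ∑ p ∈ F with Nat.log 2 p = i, (p : ℝ) ^ (-1 + v)
        ≤ ∑ _p ∈ F with Nat.log 2 _p = i, ((2 : ℝ) ^ i) ^ (-1 + v) := Finset.sum_le_sum hterm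
      _ = (((F.filter fun p => Nat.log 2 p = i).card : ℕ) : ℝ) * ((2 : ℝ) ^ i) ^ (-1 + v) := by
          rw [Finset.sum_const, nsmul_eq_mul]
      _ ≤ (C * ((2 : ℝ) ^ (i + 1)) ^ (1 - δ)) * ((2 : ℝ) ^ i) ^ (-1 + v) :=
          mul_le_mul_of_nonneg_right hc (Real.rpow_nonneg h2.le _)
      _ = C * (((2 : ℝ) ^ (i + 1)) ^ (1 - δ) * ((2 : ℝ) ^ i) ^ (-1 + v)) := by ring
      _ ≤ C * (2 * r ^ i) := by
          refine mul_le_mul_of_nonneg_left ?_ hC
          have e1 : ((2 : ℝ) ^ (i + 1)) ^ (1 - δ) = (2 : ℝ) ^ (((i : ℝ) + 1) * (1 - δ)) := by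
            rw [← Real.rpow_natCast, ← Real.rpow_mul (by norm_num)]
            push_cast; ring_nf
          have e2 : ((2 : ℝ) ^ i) ^ (-1 + v) = (2 : ℝ) ^ ((i : ℝ) * (-1 + v)) := by
            rw [← Real.rpow_natCast, ← Real.rpow_mul (by norm_num)]
          have e3 : 2 * r ^ i = (2 : ℝ) ^ (1 + -(δ / 2) * (i : ℝ)) := by
            rw [Real.rpow_add (by norm_num), Real.rpow_one, Real.rpow_mul (by norm_num),
              Real.rpow_natCast]
          rw [e1, e2, e3, ← Real.rpow_add (by norm_num)]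
          refine Real.rpow_le_rpow_of_exponent_le (by norm_num) ?_
          have hi : (0 : ℝ) ≤ i := Nat.cast_nonneg i
          nlinarith [mul_le_mul_of_nonneg_left hv hi]
      _ = C * 2 * r ^ i := by ring
  have hmaps : ∀ p ∈ F, Nat.log 2 p ∈ F.image (Nat.log 2) :=
    fun p hp => Finset.mem_image_of_mem _ hp
  rw [← Finset.sum_fiberwise_of_maps_to hmaps]
  calc ∑ i ∈ F.image (Nat.log 2), ∑ p ∈ F with Nat.log 2 p = i, (p : ℝ) ^ (-1 + v)
      ≤ ∑ i ∈ F.image (Nat.log 2), C * 2 * r ^ i := Finset.sum_le_sum hfib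
    _ = C * 2 * ∑ i ∈ F.image (Nat.log 2), r ^ i := by rw [Finset.mul_sum]
    _ ≤ C * 2 * ∑' i : ℕ, r ^ i := by
        refine mul_le_mul_of_nonneg_left ?_ (by positivity)
        exact (summable_geometric_of_lt_one hr0.le hr1).sum_le_tsum _
          (fun i _ => pow_nonneg hr0.le i)
    _ = C * (2 * (1 - r)⁻¹) := by
        rw [tsum_geometric_of_lt_one hr0.le hr1]; ring

end Pool.Agent.Lib.MP_757a88_nt.PS
end
end

section

/-!
# Pseudoprimes, C3a: the bad primes of several bases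
-/

set_option autoImplicit false

noncomputable section

namespace Pool.Agent.Lib.MP_757a88_nt.PS

/-- The bad primes. PROOF. Let `C` be as in `rank_card_le`, `δ = 1 - th (1 + 1 / r) > 0`. For `y ≥ 1` the elements `p ≤ y` of `F` have
`d p ≤ p ^ th ≤ y ^ th`; with `D = ⌊y ^ th⌋` and `e = d p` (`≥ 1`), their number is at most `C D ^ (1 + 1 / r) ≤ C y ^ (1 - δ)`. `sum_sparse_le`. -/
theorem sum_bad_le {r : ℕ} (hr : 1 ≤ r) (a : Fin r → ℕ) (ha : ∀ i, 2 ≤ a i)
    (hind : ∀ e f : Fin r → ℕ, ∏ i, a i ^ e i = ∏ i, a i ^ f i → e = f) {th : ℝ} (hth0 : 0 < th)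
    (hth : th * (1 + 1 / (r : ℝ)) < 1) :
    ∃ C₂ δ : ℝ, 0 < δ ∧ ∀ v : ℝ, v ≤ δ → ∀ F : Finset ℕ,
      (∀ p ∈ F, p.Prime ∧ (∀ i, ¬ p ∣ a i) ∧
        ((Finset.univ.lcm fun i => orderOf (a i : ZMod p) : ℕ) : ℝ) ≤ (p : ℝ) ^ th) →
      ∑ p ∈ F, (p : ℝ) ^ (-1 + v) ≤ C₂ := by
  obtain ⟨C, hC1, hC⟩ := rank_card_le hr a ha hind
  obtain ⟨s, hs⟩ : ∃ s : ℝ, s = 1 + 1 / (r : ℝ) := ⟨_, rfl⟩
  rw [← hs] at hth
  have hr0 : (0 : ℝ) < r := by exact_mod_cast (Nat.lt_of_lt_of_le Nat.zero_lt_one hr)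
  have hs0 : 0 < s := by
    rw [hs]
    positivity
  have hths : 0 < th * s := mul_pos hth0 hs0
  obtain ⟨C₁, -, hC₁⟩ := sum_sparse_le (δ := 1 - th * s) (by linarith) (by linarith)
  refine ⟨C * C₁, (1 - th * s) / 2, by linarith, fun v hv F hF => ?_⟩
  refine hC₁ C v (by linarith) hv F (fun p hp => (hF p hp).1.one_lt.le) ?_
  intro y hy
  obtain ⟨D, hD⟩ : ∃ D : ℕ, D = ⌊y ^ th⌋₊ := ⟨_, rfl⟩
  have hy0 : 0 ≤ y := by linarith
  have hyth : 1 ≤ y ^ th := Real.one_le_rpow hy hth0.le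
  have hD1 : 1 ≤ D := by
    rw [hD]
    exact Nat.le_floor (by exact_mod_cast hyth)
  have hDy : (D : ℝ) ≤ y ^ th := by
    rw [hD]
    exact Nat.floor_le (by linarith)
  have h1 := hC D hD1 (F.filter fun p : ℕ => (p : ℝ) ≤ y) (by
    intro p hp
    obtain ⟨hpF, hpy⟩ := Finset.mem_filter.1 hp
    obtain ⟨hpp, hpa, hpl⟩ := hF p hpF
    have : Fact p.Prime := ⟨hpp⟩
    refine ⟨hpp, hpa, Finset.univ.lcm fun i => orderOf (a i : ZMod p), ?_, ?_, ?_⟩
    · rw [Nat.one_le_iff_ne_zero]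
      intro h0
      rw [Finset.lcm_eq_zero_iff] at h0
      obtain ⟨i, -, hi⟩ := h0
      have h2 : (a i : ZMod p) ≠ 0 := by
        rw [Ne, ZMod.natCast_eq_zero_iff]
        exact hpa i
      have h3 : orderOf (a i : ZMod p) ∣ p - 1 :=
        orderOf_dvd_of_pow_eq_one (ZMod.pow_card_sub_one_eq_one h2)
      rw [hi, zero_dvd_iff] at h3
      have := hpp.two_le
      omega
    · rw [hD]
      refine Nat.le_floor (hpl.trans ?_)
      exact Real.rpow_le_rpow (Nat.cast_nonneg p) hpy hth0.le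
    · intro i
      exact orderOf_dvd_iff_pow_eq_one.1 (Finset.dvd_lcm (Finset.mem_univ i)))
  refine h1.trans (mul_le_mul_of_nonneg_left ?_ (by linarith))
  rw [← hs]
  calc (D : ℝ) ^ s ≤ (y ^ th) ^ s := Real.rpow_le_rpow (Nat.cast_nonneg D) hDy hs0.le
    _ = y ^ (1 - (1 - th * s)) := by
      rw [← Real.rpow_mul hy0, sub_sub_cancel]

end Pool.Agent.Lib.MP_757a88_nt.PS
end
end
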