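import Pool.Agent.Lib.MP_757a88_nt.Mg.G004
import Pool.Agent.Lib.MP_757a88_nt.Mg.G001

section

/-!
# Pseudoprimes, H1: the larger sieve for bases of small order
-/

set_option autoImplicit false

noncomputable section

namespace Pool.Agent.Lib.MP_757a88_nt.PS

/-- The pairs of elements of `G` which are congruent modulo `p`. -/
def prs (G : Finset ℕ) (p : ℕ) : Finset (ℕ × ℕ) := by
  classical exact (G ×ˢ G).filter fun q => (q.1 : ZMod p) = (q.2 : ZMod p)

theorem mem_prs {G : Finset ℕ} {p : ℕ} {q : ℕ × ℕ} :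
    q ∈ prs G p ↔ (q.1 ∈ G ∧ q.2 ∈ G) ∧ (q.1 : ZMod p) = (q.2 : ZMod p) := by
  classical
  simp [prs]

theorem prs_mono {G G' : Finset ℕ} (h : G ⊆ G') (p : ℕ) : prs G p ⊆ prs G' p := by
  intro q hq
  rw [mem_prs] at hq ⊢
  exact ⟨⟨h hq.1.1, h hq.1.2⟩, hq.2⟩

/-- The residue classes of order at most `D`. -/
private theorem h1_classes {p : ℕ} (hp : p.Prime) {D : ℝ} (hD : 0 ≤ D) (I : Finset (ZMod p))
    (hI : ∀ u ∈ I, u ≠ 0 ∧ (orderOf u : ℝ) ≤ D) :
    (I.card : ℝ) ≤ (p - 1).divisors.card * D := by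
  classical
  have : Fact p.Prime := ⟨hp⟩
  have hsub : I ⊆ ((p - 1).divisors.filter fun e : ℕ => (e : ℝ) ≤ D).biUnion
      fun e => (Polynomial.nthRoots e (1 : ZMod p)).toFinset := by
    intro u hu
    obtain ⟨h0, h1⟩ := hI u hu
    have h2 : orderOf u ∣ p - 1 := ZMod.orderOf_dvd_card_sub_one h0
    have h3 : p - 1 ≠ 0 := (Nat.sub_pos_of_lt hp.one_lt).ne'
    have h4 : 0 < orderOf u := Nat.pos_of_dvd_of_pos h2 (Nat.pos_of_ne_zero h3)
    rw [Finset.mem_biUnion]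
    refine ⟨orderOf u, Finset.mem_filter.2 ⟨Nat.mem_divisors.2 ⟨h2, h3⟩, h1⟩, ?_⟩
    rw [Multiset.mem_toFinset, Polynomial.mem_nthRoots h4]
    exact pow_orderOf_eq_one u
  have h1 : (I.card : ℝ) ≤ ∑ e ∈ (p - 1).divisors.filter fun e : ℕ => (e : ℝ) ≤ D, (e : ℝ) := by
    have h2 := (Finset.card_le_card hsub).trans Finset.card_biUnion_le
    have h3 : ∑ e ∈ (p - 1).divisors.filter fun e : ℕ => (e : ℝ) ≤ D,
        (Polynomial.nthRoots e (1 : ZMod p)).toFinset.card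
        ≤ ∑ e ∈ (p - 1).divisors.filter fun e : ℕ => (e : ℝ) ≤ D, e :=
      Finset.sum_le_sum fun e _ => (Multiset.toFinset_card_le _).trans
        (Polynomial.card_nthRoots e 1)
    have h5 : (I.card : ℝ) ≤ ((∑ e ∈ (p - 1).divisors.filter fun e : ℕ => (e : ℝ) ≤ D, e : ℕ) : ℝ) :=
      Nat.cast_le.2 (h2.trans h3)
    rwa [Nat.cast_sum] at h5
  refine h1.trans ?_
  have h4 : ∑ e ∈ (p - 1).divisors.filter fun e : ℕ => (e : ℝ) ≤ D, (e : ℝ)
      ≤ ∑ e ∈ (p - 1).divisors.filter fun e : ℕ => (e : ℝ) ≤ D, D :=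
    Finset.sum_le_sum fun e he => (Finset.mem_filter.1 he).2
  refine h4.trans ?_
  rw [Finset.sum_const, nsmul_eq_mul]
  exact mul_le_mul_of_nonneg_right (by exact_mod_cast Finset.card_filter_le _ _) hD

/-- Many congruent pairs. -/
theorem sq_card_le_prs {p : ℕ} (hp : p.Prime) {D : ℝ} (hD : 0 ≤ D) (G : Finset ℕ)
    (hG : ∀ a ∈ G, ¬ p ∣ a ∧ (orderOf (a : ZMod p) : ℝ) ≤ D) :
    (G.card : ℝ) ^ 2 ≤ ((p - 1).divisors.card * D) * ((prs G p).card : ℝ) := by
  classical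
  have : Fact p.Prime := ⟨hp⟩
  set f : ℕ → ZMod p := fun a => (a : ZMod p) with hf
  set I : Finset (ZMod p) := G.image f with hI
  have hIc : (I.card : ℝ) ≤ (p - 1).divisors.card * D := by
    refine h1_classes hp hD I ?_
    intro u hu
    obtain ⟨a, ha, rfl⟩ := Finset.mem_image.1 hu
    refine ⟨?_, (hG a ha).2⟩
    intro h0
    exact (hG a ha).1 ((ZMod.natCast_eq_zero_iff a p).1 h0)
  have h1 : G.card = ∑ u ∈ I, (G.filter fun a => f a = u).card :=
    Finset.card_eq_sum_card_image f G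
  have h2 : (prs G p).card = ∑ u ∈ I, (G.filter fun a => f a = u).card ^ 2 := by
    have h3 : ∀ q ∈ prs G p, f q.1 ∈ I := by
      intro q hq
      rw [mem_prs] at hq
      exact Finset.mem_image_of_mem f hq.1.1
    rw [Finset.card_eq_sum_card_fiberwise h3]
    refine Finset.sum_congr rfl fun u _ => ?_
    rw [pow_two, ← Finset.card_product]
    congr 1
    ext q
    rw [Finset.mem_filter, mem_prs, Finset.mem_product, Finset.mem_filter, Finset.mem_filter]
    constructor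
    · rintro ⟨⟨⟨g1, g2⟩, g3⟩, g4⟩
      exact ⟨⟨g1, g4⟩, ⟨g2, g3.symm.trans g4⟩⟩
    · rintro ⟨⟨g1, g2⟩, ⟨g3, g4⟩⟩
      exact ⟨⟨⟨g1, g3⟩, g2.trans g4.symm⟩, g2⟩
  have h5 : (G.card : ℝ) ^ 2 ≤ (I.card : ℝ) * ((prs G p).card : ℝ) := by
    rw [h1, h2]
    push_cast
    exact sq_sum_le_card_mul_sum_sq
  refine h5.trans ?_
  exact mul_le_mul_of_nonneg_right hIc (Nat.cast_nonneg _)

private theorem h1_omega (n : ℕ) (hn : n ≠ 0) (S : Finset ℕ) (hS : ∀ p ∈ S, p.Prime ∧ p ∣ n) :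
    (S.card : ℝ) * Real.log 2 ≤ Real.log n := by
  have h1 : 2 ^ S.card ≤ n := by
    have h2 : ∏ p ∈ S, p ∣ n := by
      refine (Finset.prod_dvd_prod_of_subset _ _ _ ?_).trans (Nat.prod_primeFactors_dvd n)
      intro p hp
      exact Nat.mem_primeFactors.2 ⟨(hS p hp).1, (hS p hp).2, hn⟩
    have h3 : 2 ^ S.card ≤ ∏ p ∈ S, p :=
      Finset.pow_card_le_prod S _ 2 fun p hp => (hS p hp).1.two_le
    exact h3.trans (Nat.le_of_dvd (Nat.pos_of_ne_zero hn) h2)
  have h2 : ((2 : ℝ) ^ S.card) ≤ n := by exact_mod_cast h1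
  have h3 := Real.log_le_log (by positivity) h2
  rwa [Real.log_pow] at h3

/-- Few congruent pairs. -/
theorem sum_prs_le {X : ℝ} (hX : 1 ≤ X) (G S : Finset ℕ) (hG : ∀ a ∈ G, (a : ℝ) ≤ X)
    (hS : ∀ p ∈ S, p.Prime) :
    ∑ p ∈ S, ((prs G p).card : ℝ) ≤ G.card * S.card + (G.card : ℝ) ^ 2 * (2 * Real.log X) := by
  classical
  have h0 : 0 ≤ Real.log X := Real.log_nonneg hX
  have h1 : ∀ p : ℕ, ((prs G p).card : ℝ) =
      ∑ q ∈ G ×ˢ G, if (q.1 : ZMod p) = (q.2 : ZMod p) then (1 : ℝ) else 0 := by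
    intro p
    rw [Finset.sum_ite, Finset.sum_const_zero, add_zero, Finset.sum_const, nsmul_eq_mul, mul_one]
    simp [prs]
  simp_rw [h1]
  rw [Finset.sum_comm]
  have h2 : ∀ q ∈ G ×ˢ G, ∑ p ∈ S, (if (q.1 : ZMod p) = (q.2 : ZMod p) then (1 : ℝ) else 0)
      ≤ (if q.1 = q.2 then (S.card : ℝ) else 0) + 2 * Real.log X := by
    intro q hq
    rw [Finset.mem_product] at hq
    by_cases h : q.1 = q.2
    · rw [if_pos h]
      have h3 : ∑ p ∈ S, (if (q.1 : ZMod p) = (q.2 : ZMod p) then (1 : ℝ) else 0)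
          ≤ ∑ p ∈ S, (1 : ℝ) := Finset.sum_le_sum fun p _ => by split_ifs <;> norm_num
      rw [Finset.sum_const, nsmul_eq_mul, mul_one] at h3
      linarith
    · rw [if_neg h, zero_add]
      rw [Finset.sum_ite, Finset.sum_const_zero, add_zero, Finset.sum_const, nsmul_eq_mul, mul_one]
      -- the number of primes dividing the difference
      set n : ℕ := max q.1 q.2 - min q.1 q.2 with hn
      have hn0 : n ≠ 0 := by
        rcases lt_or_gt_of_ne h with h' | h'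
        · rw [hn, max_eq_right h'.le, min_eq_left h'.le]; omega
        · rw [hn, max_eq_left h'.le, min_eq_right h'.le]; omega
      have hnX : (n : ℝ) ≤ X := by
        have h3 : (n : ℝ) ≤ (max q.1 q.2 : ℕ) := by exact_mod_cast Nat.sub_le _ _
        refine h3.trans ?_
        rcases le_total q.1 q.2 with h' | h'
        · rw [max_eq_right h']; exact hG _ hq.2
        · rw [max_eq_left h']; exact hG _ hq.1
      have h4 := h1_omega n hn0 (S.filter fun p => (q.1 : ZMod p) = (q.2 : ZMod p)) (by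
        intro p hp
        obtain ⟨hpS, hpe⟩ := Finset.mem_filter.1 hp
        refine ⟨hS p hpS, ?_⟩
        rw [ZMod.natCast_eq_natCast_iff] at hpe
        rcases le_total q.1 q.2 with h' | h'
        · rw [hn, max_eq_right h', min_eq_left h']
          exact (Nat.modEq_iff_dvd' h').1 hpe
        · rw [hn, max_eq_left h', min_eq_right h']
          exact (Nat.modEq_iff_dvd' h').1 hpe.symm)
      have h5 : Real.log n ≤ Real.log X :=
        Real.log_le_log (by exact_mod_cast Nat.pos_of_ne_zero hn0) hnX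
      have h6 : (1 / 2 : ℝ) ≤ Real.log 2 := by
        have := Real.log_two_gt_d9
        linarith
      have h7 : (0 : ℝ) ≤ ((S.filter fun p => (q.1 : ZMod p) = (q.2 : ZMod p)).card : ℝ) :=
        Nat.cast_nonneg _
      nlinarith
  refine (Finset.sum_le_sum h2).trans ?_
  rw [Finset.sum_add_distrib, Finset.sum_const, Finset.card_product, nsmul_eq_mul]
  have h3 : ∑ q ∈ G ×ˢ G, (if q.1 = q.2 then (S.card : ℝ) else 0) ≤ G.card * S.card := by
    rw [Finset.sum_product]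
    have h4 : ∀ a ∈ G, ∑ b ∈ G, (if a = b then (S.card : ℝ) else 0) ≤ S.card := by
      intro a ha
      rw [Finset.sum_ite_eq]
      rw [if_pos ha]
    refine (Finset.sum_le_sum h4).trans ?_
    rw [Finset.sum_const, nsmul_eq_mul]
  have h5 : ((G.card * G.card : ℕ) : ℝ) * (2 * Real.log X) = (G.card : ℝ) ^ 2 * (2 * Real.log X) := by
    push_cast
    ring
  rw [h5]
  linarith

end Pool.Agent.Lib.MP_757a88_nt.PS
end
end

section

/-!
# Pseudoprimes, H2: very few bases have many bad primes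
-/

set_option autoImplicit false

noncomputable section

namespace Pool.Agent.Lib.MP_757a88_nt.PS

open Filter

/-- The weighted larger sieve. -/
theorem larger_sieve {th δ : ℝ} (hδ : 0 < δ) :
    ∃ C₁ : ℝ, 0 ≤ C₁ ∧ ∀ (v X y : ℝ) (Z : ℕ), th + 2 * v + δ ≤ 1 → 1 ≤ X → 2 ≤ y →
      ∀ G : Finset ℕ, (∀ a ∈ G, (a : ℝ) ≤ X ∧ 1 < ∑ p ∈ badP th y Z a, (p : ℝ) ^ (-1 + v)) →
      (G.card : ℝ) ^ 2 ≤ C₁ * (y / 2) ^ (-δ / 2) * (G.card * Z + (G.card : ℝ) ^ 2 * (2 * Real.log X)) := by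
  classical
  obtain ⟨C₁, hC0, hC⟩ := sum_tau_tail hδ
  refine ⟨C₁, hC0, fun v X y Z hv hX hy G hG => ?_⟩
  set S : Finset ℕ := (Finset.Icc 1 Z).filter fun p => p.Prime ∧ y < p with hS
  have hSp : ∀ p ∈ S, p.Prime ∧ y < p ∧ p ≤ Z := by
    intro p hp
    obtain ⟨h1, h2, h3⟩ := Finset.mem_filter.1 hp
    exact ⟨h2, h3, (Finset.mem_Icc.1 h1).2⟩
  have hbad : ∀ a, badP th y Z a ⊆ S := by
    intro a p hp
    rw [mem_badP] at hp
    exact Finset.mem_filter.2 ⟨Finset.mem_Icc.2 ⟨hp.2.1.one_lt.le, hp.1⟩, hp.2.1, hp.2.2.1⟩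
  set Gp : ℕ → Finset ℕ := fun p => G.filter fun a => p ∈ badP th y Z a with hGp
  set w : ℕ → ℝ := fun p => (p : ℝ) ^ (-1 + v) with hw
  set ν : ℕ → ℝ := fun p => ((p - 1).divisors.card : ℝ) * (p : ℝ) ^ th with hν
  have hwpos : ∀ p ∈ S, 0 < w p := fun p hp =>
    Real.rpow_pos_of_pos (by exact_mod_cast (hSp p hp).1.pos) _
  have hνpos : ∀ p ∈ S, 0 < ν p := by
    intro p hp
    have h1 := (hSp p hp).1
    have h2 : 0 < (p - 1).divisors.card :=
      Finset.card_pos.2 (Nat.nonempty_divisors.2 (Nat.sub_pos_of_lt h1.one_lt).ne')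
    exact mul_pos (by exact_mod_cast h2) (Real.rpow_pos_of_pos (by exact_mod_cast h1.pos) _)
  -- first step: exchange of the sums
  have h1 : (G.card : ℝ) ≤ ∑ p ∈ S, w p * (Gp p).card := by
    have h2 : (G.card : ℝ) ≤ ∑ a ∈ G, ∑ p ∈ badP th y Z a, w p := by
      have h3 : ∑ a ∈ G, (1 : ℝ) ≤ ∑ a ∈ G, ∑ p ∈ badP th y Z a, w p :=
        Finset.sum_le_sum fun a ha => (hG a ha).2.le
      simpa using h3
    refine h2.trans (le_of_eq ?_)
    have h3 : ∀ a ∈ G, ∑ p ∈ badP th y Z a, w p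
        = ∑ p ∈ S, if p ∈ badP th y Z a then w p else 0 := by
      intro a _
      rw [← Finset.sum_filter]
      refine Finset.sum_congr ?_ fun _ _ => rfl
      ext p
      rw [Finset.mem_filter]
      exact ⟨fun h => ⟨hbad a h, h⟩, fun h => h.2⟩
    rw [Finset.sum_congr rfl h3, Finset.sum_comm]
    refine Finset.sum_congr rfl fun p _ => ?_
    rw [← Finset.sum_filter, Finset.sum_const, nsmul_eq_mul, mul_comm]
  -- Cauchy-Schwarz
  have h2 : (∑ p ∈ S, w p * (Gp p).card) ^ 2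
      ≤ (∑ p ∈ S, w p ^ 2 * ν p) * ∑ p ∈ S, ((prs G p).card : ℝ) := by
    have e1 : ∑ p ∈ S, w p * (Gp p).card
        = ∑ p ∈ S, (w p * √(ν p)) * ((Gp p).card / √(ν p)) := by
      refine Finset.sum_congr rfl fun p hp => ?_
      have h3 : √(ν p) ≠ 0 := (Real.sqrt_pos.2 (hνpos p hp)).ne'
      field_simp
    rw [e1]
    refine (Finset.sum_mul_sq_le_sq_mul_sq _ _ _).trans ?_
    refine mul_le_mul (le_of_eq ?_) (Finset.sum_le_sum fun p hp => ?_)
      (Finset.sum_nonneg fun p _ => sq_nonneg _)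
      (Finset.sum_nonneg fun p hp => mul_nonneg (sq_nonneg _) (hνpos p hp).le)
    · refine Finset.sum_congr rfl fun p hp => ?_
      rw [mul_pow, Real.sq_sqrt (hνpos p hp).le]
    · rw [div_pow, Real.sq_sqrt (hνpos p hp).le, div_le_iff₀ (hνpos p hp)]
      have h3 := sq_card_le_prs (hSp p hp).1 (D := (p : ℝ) ^ th)
        (Real.rpow_nonneg (Nat.cast_nonneg p) _) (Gp p) (by
          intro a ha
          have h4 := (Finset.mem_filter.1 ha).2
          rw [mem_badP] at h4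
          exact ⟨h4.2.2.2.1, h4.2.2.2.2⟩)
      have h4 : ((prs (Gp p) p).card : ℝ) ≤ (prs G p).card := by
        exact_mod_cast Finset.card_le_card (prs_mono (Finset.filter_subset _ _) p)
      have h5 : ν p * ((prs (Gp p) p).card : ℝ) ≤ ν p * (prs G p).card :=
        mul_le_mul_of_nonneg_left h4 (hνpos p hp).le
      have h6 : ((Gp p).card : ℝ) ^ 2 ≤ ν p * ((prs (Gp p) p).card : ℝ) := h3
      linarith
  -- the sum over the primes
  have h3 : ∑ p ∈ S, w p ^ 2 * ν p ≤ C₁ * (y / 2) ^ (-δ / 2) := by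
    have h4 : ∑ p ∈ S, w p ^ 2 * ν p
        ≤ ∑ m ∈ S.image (fun p : ℕ => (p - 1 : ℕ)), ((m.divisors.card : ℝ)) * (m : ℝ) ^ (-1 - δ) := by
      rw [Finset.sum_image (by
        intro p hp q hq h
        have h5 := (hSp p hp).1.two_le
        have h6 := (hSp q hq).1.two_le
        simp only at h
        omega)]
      refine Finset.sum_le_sum fun p hp => ?_
      have hp1 := (hSp p hp).1
      have hp0 : (0 : ℝ) < p := by exact_mod_cast hp1.pos
      have hp1' : (1 : ℝ) ≤ p := by exact_mod_cast hp1.one_lt.le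
      have hm0 : (0 : ℝ) < ((p - 1 : ℕ) : ℝ) := by exact_mod_cast Nat.sub_pos_of_lt hp1.one_lt
      have hmp : ((p - 1 : ℕ) : ℝ) ≤ p := by exact_mod_cast Nat.sub_le p 1
      have e1 : w p ^ 2 * ν p = ((p - 1).divisors.card : ℝ) * (p : ℝ) ^ (-2 + 2 * v + th) := by
        have e2 : w p ^ 2 = (p : ℝ) ^ (-2 + 2 * v) := by
          rw [hw, ← Real.rpow_natCast, ← Real.rpow_mul hp0.le]
          congr 1
          push_cast
          ring
        rw [e2, Real.rpow_add hp0 (-2 + 2 * v) th]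
        show (p : ℝ) ^ (-2 + 2 * v) * (((p - 1).divisors.card : ℝ) * (p : ℝ) ^ th) = _
        ring
      rw [e1]
      refine mul_le_mul_of_nonneg_left ?_ (Nat.cast_nonneg _)
      calc (p : ℝ) ^ (-2 + 2 * v + th) ≤ (p : ℝ) ^ (-1 - δ) :=
            Real.rpow_le_rpow_of_exponent_le hp1' (by linarith)
        _ ≤ ((p - 1 : ℕ) : ℝ) ^ (-1 - δ) :=
            Real.rpow_le_rpow_of_nonpos hm0 hmp (by linarith)
    refine h4.trans (hC (y / 2) (by linarith) _ ?_)
    intro m hm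
    obtain ⟨p, hp, rfl⟩ := Finset.mem_image.1 hm
    have h5 := (hSp p hp).2.1
    have h6 : ((p - 1 : ℕ) : ℝ) = (p : ℝ) - 1 := by
      rw [Nat.cast_sub (hSp p hp).1.one_lt.le, Nat.cast_one]
    rw [h6]
    linarith
  have h4 : ∑ p ∈ S, ((prs G p).card : ℝ) ≤ G.card * Z + (G.card : ℝ) ^ 2 * (2 * Real.log X) := by
    refine (sum_prs_le hX G S (fun a ha => (hG a ha).1) fun p hp => (hSp p hp).1).trans ?_
    have h5 : (S.card : ℝ) ≤ Z := by
      have h6 : S.card ≤ Z := (Finset.card_filter_le _ _).trans (by simp)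
      exact_mod_cast h6
    have h7 : (G.card : ℝ) * S.card ≤ G.card * Z := mul_le_mul_of_nonneg_left h5 (Nat.cast_nonneg _)
    linarith
  have hnn : 0 ≤ C₁ * (y / 2) ^ (-δ / 2) :=
    mul_nonneg hC0 (Real.rpow_nonneg (by linarith) _)
  calc (G.card : ℝ) ^ 2 ≤ (∑ p ∈ S, w p * (Gp p).card) ^ 2 :=
        pow_le_pow_left₀ (Nat.cast_nonneg _) h1 2
    _ ≤ (∑ p ∈ S, w p ^ 2 * ν p) * ∑ p ∈ S, ((prs G p).card : ℝ) := h2
    _ ≤ C₁ * (y / 2) ^ (-δ / 2) * ∑ p ∈ S, ((prs G p).card : ℝ) :=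
        mul_le_mul_of_nonneg_right h3 (Finset.sum_nonneg fun p _ => Nat.cast_nonneg _)
    _ ≤ _ := mul_le_mul_of_nonneg_left h4 hnn

end Pool.Agent.Lib.MP_757a88_nt.PS
end
end
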